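import Pool.Agent.W_7742r_h74.Loc

/-!
# The Euler product

Let `x > 1`, `h n = r n / r 1`.

* `h` is multiplicative: `r (m n) r 1 = r m r n` for coprime `m`, `n` (induction on the
  factorisation of `m`, `Nat.recOnPosPrimePosCoprime` or induction on the number of primes, from
  the relation for `p ^ j`; if a prime divisor of `N` divides `m n` both sides are zero).
* `EulerProduct.eulerProduct_hasProd` for `n ↦ h n * n ^ (-x)` (summable by hypothesis): the factor
  at `p ∣ N` is `1`, at `p ∤ N` it is `∑_j ‖lam j‖ ^ 2 X ^ j` with `X = p ^ (-x)`, which is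
  `(1 - X ^ 2) exp (S p)`, `S p = ∑_k ‖psum (k + 1)‖ ^ 2 X ^ (k + 1) / (k + 1)`, by
  `local_identity` with `X' = p ^ (-x')`, `1 < x' < x`.
* `zetaM N x = ∏_{p ∤ N} (1 - p ^ (-2 x))⁻¹` (`EulerProduct.eulerProduct_hasProd` again).
* So `∏_p exp (S p)` (with `S p = 0` for `p ∣ N`) converges to `zetaM N x * ∑ h n n ^ (-x)`; the
  `S p` are nonnegative, so the partial sums are bounded by the logarithm of this number, the
  double series is summable and `exp (∑ S p)` is the product.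
-/

set_option autoImplicit false

noncomputable section

namespace Pool.Agent.MaassRS74

open ComplexConjugate

theorem Eul_mul {N : ℕ} {r : ℕ → ℝ} {L : ℕ → ℕ → ℝ}
    (hN0 : ∀ n : ℕ, ¬ n.Coprime N → r n = 0)
    (hm : ∀ p : ℕ, p.Prime → ¬ p ∣ N → ∀ j n : ℕ, ¬ p ∣ n → r (p ^ j * n) = L p j * r n)
    (m : ℕ) : ∀ n : ℕ, m.Coprime n → r (m * n) * r 1 = r m * r n := by
  induction m using Nat.strong_induction_on with
  | _ m ih =>
    intro n hmn
    rcases Nat.eq_zero_or_pos m with rfl | hm0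
    · rw [Nat.coprime_zero_left] at hmn
      rw [hmn, Nat.zero_mul]
    rcases Nat.lt_or_ge 1 m with h1 | h1
    · have hp : m.minFac.Prime := Nat.minFac_prime (by omega)
      set p := m.minFac with hpd
      obtain ⟨j, m', hpm', hmm⟩ := Nat.exists_eq_pow_mul_and_not_dvd (n := m) (by omega) p hp.ne_one
      have hpm : p ∣ m := Nat.minFac_dvd m
      have hj : j ≠ 0 := by
        rintro rfl
        rw [pow_zero, one_mul] at hmm
        exact hpm' (hmm ▸ hpm)
      by_cases hpN : p ∣ N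
      · have h2 : ¬ m.Coprime N := fun h => hp.ne_one (Nat.eq_one_of_dvd_coprimes h hpm hpN)
        have h3 : ¬ (m * n).Coprime N := fun h =>
          hp.ne_one (Nat.eq_one_of_dvd_coprimes h (hpm.mul_right n) hpN)
        rw [hN0 _ h2, hN0 _ h3, zero_mul, zero_mul]
      · have hpn : ¬ p ∣ n := fun h => hp.ne_one (Nat.eq_one_of_dvd_coprimes hmn hpm h)
        have hpmn : ¬ p ∣ m' * n := fun h => (hp.dvd_mul.1 h).elim hpm' hpn
        have hlt : m' < m := by
          rw [hmm]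
          have h2 : 1 < p ^ j := Nat.one_lt_pow hj hp.one_lt
          have h3 : 0 < m' := by
            rcases Nat.eq_zero_or_pos m' with h | h
            · rw [h] at hpm'; exact absurd (dvd_zero p) hpm'
            · exact h
          calc m' = 1 * m' := (one_mul _).symm
            _ < p ^ j * m' := Nat.mul_lt_mul_of_pos_right h2 h3
        have hcop : m'.Coprime n := Nat.Coprime.coprime_dvd_left ⟨p ^ j, by rw [hmm]; ring⟩ hmn
        have e1 : m * n = p ^ j * (m' * n) := by rw [hmm]; ring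
        rw [e1, hm p hp hpN j _ hpmn]
        have e2 : r m = L p j * r m' := by
          conv_lhs => rw [hmm]
          exact hm p hp hpN j _ hpm'
        rw [e2, mul_assoc, ih m' hlt n hcop, mul_assoc]
    · have : m = 1 := by omega
      rw [this, one_mul, mul_comm]

theorem Eul_hasSum {ι : Type*} {S : ι → ℝ} (hS : ∀ i, 0 ≤ S i) {L : ℝ}
    (h : HasProd (fun i => Real.exp (S i)) L) : HasSum S (Real.log L) ∧ 0 < L := by
  have h1 : 1 ≤ L := by
    refine ge_of_tendsto' h fun s => ?_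
    rw [← Real.exp_sum]
    exact Real.one_le_exp (Finset.sum_nonneg fun i _ => hS i)
  have hL : 0 < L := by linarith
  refine ⟨?_, hL⟩
  have h2 := ((Real.continuousAt_log hL.ne').tendsto.comp h)
  refine h2.congr fun s => ?_
  rw [Function.comp_apply, ← Real.exp_sum, Real.log_exp]

theorem Eul_pow (p e : ℕ) (x : ℝ) : ((p ^ e : ℕ) : ℝ) ^ (-x) = ((p : ℝ) ^ (-x)) ^ e := by
  rw [Nat.cast_pow, ← Real.rpow_natCast, ← Real.rpow_mul (Nat.cast_nonneg p), mul_comm,
    Real.rpow_mul (Nat.cast_nonneg p), Real.rpow_natCast]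

theorem Eul_zeta {N : ℕ} {x : ℝ} (hx : 1 < x) : HasProd (fun p : Nat.Primes =>
    if (p : ℕ) ∣ N then (1 : ℝ) else (1 - (((p : ℕ) : ℝ) ^ (-x)) ^ 2)⁻¹) (zetaM N x) := by
  classical
  set h : ℕ → ℝ := fun k => if k.Coprime N then (k : ℝ) ^ (-(2 * x)) else 0 with hh
  have h1 : h 1 = 1 := by simp [hh]
  have h0 : h 0 = 0 := by
    simp only [hh]
    split_ifs
    · rw [Nat.cast_zero, Real.zero_rpow (by linarith)]
    · rfl
  have hmul : ∀ {m n : ℕ}, m.Coprime n → h (m * n) = h m * h n := by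
    intro m n _
    simp only [hh]
    by_cases hm : m.Coprime N
    · by_cases hn : n.Coprime N
      · rw [if_pos hm, if_pos hn, if_pos (Nat.Coprime.mul_left hm hn), Nat.cast_mul,
          Real.mul_rpow (Nat.cast_nonneg m) (Nat.cast_nonneg n)]
      · have : ¬ (m * n).Coprime N := fun h => hn (Nat.Coprime.coprime_mul_left h)
        rw [if_neg hn, if_neg this, mul_zero]
    · have : ¬ (m * n).Coprime N := fun h => hm (Nat.Coprime.coprime_mul_right h)
      rw [if_neg hm, if_neg this, zero_mul]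
  have hsum : Summable h := by
    refine Summable.of_nonneg_of_le (f := fun k : ℕ => (k : ℝ) ^ (-(2 * x))) (fun k => ?_) (fun k => ?_) ?_
    · simp only [hh]
      split_ifs
      · exact Real.rpow_nonneg (Nat.cast_nonneg k) _
      · exact le_rfl
    · simp only [hh]
      split_ifs
      · exact le_rfl
      · exact Real.rpow_nonneg (Nat.cast_nonneg k) _
    · exact Real.summable_nat_rpow.2 (by linarith)
  have hprod := EulerProduct.eulerProduct_hasProd h1 hmul hsum.norm h0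
  have hz : ∑' n, h n = zetaM N x := by
    unfold zetaM
    refine tsum_congr fun k => ?_
    simp only [hh]
  rw [hz] at hprod
  suffices heq : (fun p : Nat.Primes =>
      if (p : ℕ) ∣ N then (1 : ℝ) else (1 - (((p : ℕ) : ℝ) ^ (-x)) ^ 2)⁻¹) =
      fun p : Nat.Primes => ∑' e, h ((p : ℕ) ^ e) by
    rw [heq]; exact hprod
  funext p
  have hp := p.2
  have hp1 : (1 : ℝ) < ((p : ℕ) : ℝ) := by exact_mod_cast hp.one_lt
  by_cases hpN : (p : ℕ) ∣ N
  · rw [if_pos hpN, tsum_eq_single 0]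
    · rw [pow_zero, h1]
    · intro e he
      simp only [hh]
      rw [if_neg]
      intro hc
      exact hp.ne_one (Nat.eq_one_of_dvd_coprimes hc (dvd_pow_self _ he) hpN)
  · rw [if_neg hpN]
    have e1 : ∀ e : ℕ, h ((p : ℕ) ^ e) = ((((p : ℕ) : ℝ) ^ (-x)) ^ 2) ^ e := by
      intro e
      have hc : ((p : ℕ) ^ e).Coprime N := Nat.Coprime.pow_left e ((Nat.Prime.coprime_iff_not_dvd hp).2 hpN)
      simp only [hh]
      rw [if_pos hc, Eul_pow]
      congr 1
      rw [← Real.rpow_natCast, ← Real.rpow_mul (Nat.cast_nonneg _)]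
      congr 1
      push_cast
      ring
    rw [tsum_congr e1, tsum_geometric_of_lt_one (by positivity)]
    have h2 : ((p : ℕ) : ℝ) ^ (-x) < 1 := Real.rpow_lt_one_of_one_lt_of_neg hp1 (by linarith)
    have h3 : 0 < ((p : ℕ) : ℝ) ^ (-x) := Real.rpow_pos_of_pos (by linarith) _
    nlinarith

open Classical in
theorem euler {N : ℕ} (hN : 0 < N) {r : ℕ → ℝ} {a w : ℕ → ℂ} (h1 : 0 < r 1)
    (hr : ∀ n, 0 ≤ r n) (hr0 : r 0 = 0)
    (hN0 : ∀ n : ℕ, ¬ n.Coprime N → r n = 0)
    (hm : ∀ p : ℕ, p.Prime → ¬ p ∣ N → ∀ j n : ℕ, ¬ p ∣ n →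
      r (p ^ j * n) = ‖lam (a p) (w p) j‖ ^ 2 * r n)
    (hs : ∀ x : ℝ, 1 < x → Summable fun n : ℕ => r n * (n : ℝ) ^ (-x))
    (hw : ∀ p : ℕ, p.Prime → ¬ p ∣ N → ‖w p‖ = 1)
    (hu : ∀ p : ℕ, p.Prime → ¬ p ∣ N → w p * conj (a p) = a p) {x : ℝ} (hx : 1 < x) :
    Summable (fun q : Nat.Primes × ℕ => if (q.1 : ℕ) ∣ N then 0 else
      ‖psum (a q.1) (w q.1) (q.2 + 1)‖ ^ 2 / (q.2 + 1) / ((q.1 : ℕ) : ℝ) ^ ((q.2 + 1) * x)) ∧
    r 1 * Real.exp (∑' q : Nat.Primes × ℕ, if (q.1 : ℕ) ∣ N then 0 else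
      ‖psum (a q.1) (w q.1) (q.2 + 1)‖ ^ 2 / (q.2 + 1) / ((q.1 : ℕ) : ℝ) ^ ((q.2 + 1) * x)) =
      zetaM N x * ∑' n : ℕ, r n * (n : ℝ) ^ (-x) := by
  set X : Nat.Primes → ℝ := fun p => ((p : ℕ) : ℝ) ^ (-x) with hX
  set T : Nat.Primes → ℕ → ℝ := fun p k => if (p : ℕ) ∣ N then 0 else
    ‖psum (a p) (w p) (k + 1)‖ ^ 2 * X p ^ (k + 1) / (k + 1) with hT
  have hXpos : ∀ p, 0 < X p := fun p => Real.rpow_pos_of_pos (by exact_mod_cast p.2.pos) _
  have hXlt : ∀ p, X p < 1 := fun p =>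
    Real.rpow_lt_one_of_one_lt_of_neg (by exact_mod_cast p.2.one_lt) (by linarith)
  have hT0 : ∀ p k, 0 ≤ T p k := by
    intro p k
    simp only [hT]
    split_ifs
    · exact le_rfl
    · have := hXpos p
      positivity
  have hloc : ∀ p : Nat.Primes, ¬ (p : ℕ) ∣ N →
      Summable (fun k : ℕ => ‖psum (a p) (w p) (k + 1)‖ ^ 2 * X p ^ (k + 1) / (k + 1)) ∧
      ∑' j : ℕ, ‖lam (a p) (w p) j‖ ^ 2 * X p ^ j = (1 - X p ^ 2) *
        Real.exp (∑' k : ℕ, ‖psum (a p) (w p) (k + 1)‖ ^ 2 * X p ^ (k + 1) / (k + 1)) := by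
    intro p hpN
    have hx' : 1 < (1 + x) / 2 := by linarith
    have hpg : (1 : ℝ) < ((p : ℕ) : ℝ) := by exact_mod_cast p.2.one_lt
    refine local_identity (X' := ((p : ℕ) : ℝ) ^ (-((1 + x) / 2))) (hw p p.2 hpN) (hu p p.2 hpN)
      (hXpos p) ?_ (hXlt p) ?_
    · exact Real.rpow_lt_rpow_of_exponent_lt hpg (by linarith)
    · have h2 := ((hs _ hx').comp_injective (Nat.pow_right_injective p.2.two_le)).mul_left (r 1)⁻¹
      refine h2.congr fun j => ?_
      have h3 := hm p p.2 hpN j 1 p.2.not_dvd_one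
      rw [mul_one] at h3
      simp only [Function.comp_apply]
      rw [h3, Eul_pow]
      field_simp
  have hTsum : ∀ p, Summable (T p) := by
    intro p
    by_cases hpN : (p : ℕ) ∣ N
    · simp only [hT, if_pos hpN]
      exact summable_zero
    · simp only [hT, if_neg hpN]
      exact (hloc p hpN).1
  set f : ℕ → ℝ := fun n => r n / r 1 * (n : ℝ) ^ (-x) with hf
  have hf1 : f 1 = 1 := by
    simp only [hf]
    rw [div_self h1.ne', Nat.cast_one, Real.one_rpow, one_mul]
  have hf0 : f 0 = 0 := by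
    simp only [hf]
    rw [hr0, zero_div, zero_mul]
  have hfmul : ∀ {m n : ℕ}, m.Coprime n → f (m * n) = f m * f n := by
    intro m n hmn
    have h2 := Eul_mul (L := fun p j => ‖lam (a p) (w p) j‖ ^ 2) hN0 hm m n hmn
    simp only [hf]
    rw [Nat.cast_mul, Real.mul_rpow (Nat.cast_nonneg m) (Nat.cast_nonneg n)]
    have h3 : r (m * n) / r 1 = r m / r 1 * (r n / r 1) := by
      rw [div_mul_div_comm, ← h2]
      field_simp
    rw [h3]
    ring
  have hfsum : Summable f := by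
    refine ((hs x hx).mul_left (r 1)⁻¹).congr fun n => ?_
    simp only [hf]
    field_simp
  have hfnorm : Summable (fun n => ‖f n‖) := hfsum.norm
  have hprod := EulerProduct.eulerProduct_hasProd hf1 hfmul hfnorm hf0
  have hfD : ∑' n, f n = (∑' n : ℕ, r n * (n : ℝ) ^ (-x)) / r 1 := by
    rw [← tsum_div_const]
    refine tsum_congr fun n => ?_
    simp only [hf]
    ring
  rw [hfD] at hprod
  have hprod2 := hprod.mul (Eul_zeta (N := N) hx)
  have hfac : (fun p : Nat.Primes => (∑' e, f ((p : ℕ) ^ e)) *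
      (if (p : ℕ) ∣ N then (1 : ℝ) else (1 - (((p : ℕ) : ℝ) ^ (-x)) ^ 2)⁻¹)) =
      fun p => Real.exp (∑' k, T p k) := by
    funext p
    by_cases hpN : (p : ℕ) ∣ N
    · rw [if_pos hpN, mul_one, tsum_eq_single 0]
      · rw [pow_zero, hf1]
        simp only [hT, if_pos hpN]
        rw [tsum_zero, Real.exp_zero]
      · intro e he
        have hc : ¬ ((p : ℕ) ^ e).Coprime N := fun h =>
          p.2.ne_one (Nat.eq_one_of_dvd_coprimes h (dvd_pow_self _ he) hpN)
        simp only [hf]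
        rw [hN0 _ hc, zero_div, zero_mul]
    · rw [if_neg hpN]
      have e1 : ∀ e : ℕ, f ((p : ℕ) ^ e) = ‖lam (a p) (w p) e‖ ^ 2 * X p ^ e := by
        intro e
        have h3 := hm p p.2 hpN e 1 p.2.not_dvd_one
        rw [mul_one] at h3
        simp only [hf, hX]
        rw [h3, Eul_pow]
        field_simp
      rw [tsum_congr e1, (hloc p hpN).2]
      have h4 : (1 - X p ^ 2) ≠ 0 := by
        have h5 := hXpos p
        have h6 := hXlt p
        nlinarith
      have h7 : ∑' k, T p k = ∑' k : ℕ, ‖psum (a p) (w p) (k + 1)‖ ^ 2 * X p ^ (k + 1) / (k + 1) := by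
        refine tsum_congr fun k => ?_
        simp only [hT, if_neg hpN]
      rw [h7, mul_comm (1 - X p ^ 2), mul_assoc, mul_inv_cancel₀ h4, mul_one]
  rw [hfac] at hprod2
  obtain ⟨hS, hL⟩ := Eul_hasSum (fun p => tsum_nonneg (hT0 p)) hprod2
  have hTT : (fun q : Nat.Primes × ℕ => if (q.1 : ℕ) ∣ N then 0 else
      ‖psum (a q.1) (w q.1) (q.2 + 1)‖ ^ 2 / (q.2 + 1) / ((q.1 : ℕ) : ℝ) ^ ((q.2 + 1) * x)) =
      fun q : Nat.Primes × ℕ => T q.1 q.2 := by
    funext q
    simp only [hT]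
    split_ifs
    · rfl
    · have h2 : X q.1 ^ (q.2 + 1) = (((q.1 : ℕ) : ℝ) ^ (((q.2 : ℝ) + 1) * x))⁻¹ := by
        simp only [hX]
        rw [← Real.rpow_natCast, ← Real.rpow_mul (Nat.cast_nonneg _),
          ← Real.rpow_neg (Nat.cast_nonneg _)]
        congr 1
        push_cast
        ring
      rw [h2]
      ring
  rw [hTT]
  have hsumT : Summable (fun q : Nat.Primes × ℕ => T q.1 q.2) := by
    rw [summable_prod_of_nonneg (fun q => hT0 q.1 q.2)]
    exact ⟨hTsum, hS.summable⟩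
  refine ⟨hsumT, ?_⟩
  rw [hsumT.tsum_prod' hTsum, hS.tsum_eq, Real.exp_log hL]
  field_simp

end Pool.Agent.MaassRS74
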