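import Pool.Agent.W_7742r_h74.MelA

/-!
# The Mellin transform of the unfolded theta integral

* `uth_mellin`: Tonelli and
  `∫_0^∞ t ^ (x - 1) exp(-π t k ^ 2 / y) dt = Γ(x) (π k ^ 2 / y) ^ (-x)`, so that
  `∫_0^∞ t ^ (x - 1) uth M G t dt = ∑_k π ^ (-x) Γ(x) k ^ (-2 x) ∫ R(y) y ^ (x - 2) dy`; insert
  `cterm_mellin`: `π ^ (-x) (2 π) ^ (-x) 2 ^ (x - 3) = π ^ (-2 x) / 8`.
* `uth_antitone`: clear.
* `uth_bigO`: `exp(-X) ≤ c X ^ (-B)` gives
  `uth M G t ≤ c (π t) ^ (-B) ∑_k k ^ (-2 B) ∫ R(y) y ^ (B - 2) dy` for `B > 1`.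
-/

set_option autoImplicit false

noncomputable section

namespace Pool.Agent.MaassRS74

open MeasureTheory ENNReal UpperHalfPlane Filter Asymptotics

theorem MelB_gamma {a c : ℝ} (ha : 0 < a) (hc : 0 < c) :
    ∫⁻ t in Set.Ioi (0 : ℝ), ENNReal.ofReal (t ^ (a - 1) * Real.exp (-(c * t))) =
      ENNReal.ofReal (c ^ (-a) * Real.Gamma a) := by
  have h1 := Real.integral_rpow_mul_exp_neg_mul_Ioi ha hc
  have h2 : (1 / c) ^ a = c ^ (-a) := by
    rw [one_div, Real.inv_rpow hc.le, Real.rpow_neg hc.le]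
  rw [h2] at h1
  have h3 : 0 < c ^ (-a) * Real.Gamma a := mul_pos (Real.rpow_pos_of_pos hc _) (Real.Gamma_pos_of_pos ha)
  have h4 : IntegrableOn (fun t : ℝ => t ^ (a - 1) * Real.exp (-(c * t))) (Set.Ioi 0) := by
    by_contra h5
    have h6 := integral_undef h5
    rw [h1] at h6
    exact h3.ne' h6
  rw [← h1, ofReal_integral_eq_lintegral_ofReal h4]
  filter_upwards [ae_restrict_mem measurableSet_Ioi] with t ht
  exact mul_nonneg (Real.rpow_nonneg (le_of_lt ht) _) (Real.exp_pos _).le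

/-- The measurable version of the constant term. -/
def MelB_R (G : ℍ → ℝ) : ℝ → ℝ := (Set.Ioi (0 : ℝ)).indicator (cterm G)

theorem MelB_measurable_R {G : ℍ → ℝ} (hG : Continuous G) : Measurable (MelB_R G) := by
  classical
  have h1 := (cterm_continuousOn hG).measurable_piecewise
    (g := (0 : ℝ → ℝ)) continuousOn_const measurableSet_Ioi
  rw [Set.piecewise_eq_indicator] at h1
  exact h1

theorem MelB_R_eq {G : ℍ → ℝ} {y : ℝ} (hy : y ∈ Set.Ioi (0 : ℝ)) : MelB_R G y = cterm G y :=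
  Set.indicator_of_mem hy _

/-- The `k`-th term. -/
def MelB_H (G : ℍ → ℝ) (k : ℕ) (t : ℝ) : ℝ≥0∞ :=
  ∫⁻ y in Set.Ioi (0 : ℝ), ENNReal.ofReal
      (MelB_R G y * Real.exp (-(Real.pi * t * k ^ 2 / y)) / y ^ 2)

theorem MelB_measurable_joint {G : ℍ → ℝ} (hG : Continuous G) (k : ℕ) :
    Measurable (fun p : ℝ × ℝ => ENNReal.ofReal
      (MelB_R G p.2 * Real.exp (-(Real.pi * p.1 * k ^ 2 / p.2)) / p.2 ^ 2)) := by
  have h1 : Measurable fun p : ℝ × ℝ => MelB_R G p.2 :=
    (MelB_measurable_R hG).comp measurable_snd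
  fun_prop

theorem MelB_measurable_H {G : ℍ → ℝ} (hG : Continuous G) (k : ℕ) : Measurable (MelB_H G k) :=
  (MelB_measurable_joint hG k).lintegral_prod_right'

open Classical in
theorem MelB_uth (M : ℕ) (G : ℍ → ℝ) (t : ℝ) :
    uth M G t = ∑' k : ℕ, if 0 < k ∧ k.Coprime M then MelB_H G k t else 0 := by
  rw [uth]
  refine tsum_congr fun k => ?_
  split_ifs with hk
  · refine setLIntegral_congr_fun measurableSet_Ioi fun y hy => ?_
    simp only [MelB_R_eq hy]
  · rfl

theorem MelB_H_mellin {G : ℍ → ℝ} (hG : Continuous G) (h0 : ∀ z, 0 ≤ G z) {k : ℕ} (hk : 0 < k)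
    {x : ℝ} (hx : 0 < x) :
    ∫⁻ t in Set.Ioi (0 : ℝ), ENNReal.ofReal (t ^ (x - 1)) * MelB_H G k t =
      ENNReal.ofReal (Real.pi ^ (-x) * Real.Gamma x * (k : ℝ) ^ (-(2 * x))) *
        ∫⁻ y in Set.Ioi (0 : ℝ), ENNReal.ofReal (cterm G y * y ^ (x - 2)) := by
  have hk' : (0 : ℝ) < k := by exact_mod_cast hk
  have hmj := MelB_measurable_joint hG k
  have h1 : ∀ t : ℝ, ENNReal.ofReal (t ^ (x - 1)) * MelB_H G k t =
      ∫⁻ y in Set.Ioi (0 : ℝ), ENNReal.ofReal (t ^ (x - 1)) * ENNReal.ofReal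
        (MelB_R G y * Real.exp (-(Real.pi * t * k ^ 2 / y)) / y ^ 2) := by
    intro t
    rw [lintegral_const_mul]
    · rfl
    · exact hmj.comp (measurable_prodMk_left (x := t))
  have hmt : Measurable fun t : ℝ => ENNReal.ofReal (t ^ (x - 1)) := by fun_prop
  have hm2 : Measurable (Function.uncurry fun (t y : ℝ) => ENNReal.ofReal (t ^ (x - 1)) *
      ENNReal.ofReal (MelB_R G y * Real.exp (-(Real.pi * t * k ^ 2 / y)) / y ^ 2)) :=
    (hmt.comp measurable_fst).mul hmj
  calc ∫⁻ t in Set.Ioi (0 : ℝ), ENNReal.ofReal (t ^ (x - 1)) * MelB_H G k t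
      = ∫⁻ t in Set.Ioi (0 : ℝ), ∫⁻ y in Set.Ioi (0 : ℝ), ENNReal.ofReal (t ^ (x - 1)) *
          ENNReal.ofReal (MelB_R G y * Real.exp (-(Real.pi * t * k ^ 2 / y)) / y ^ 2) :=
        lintegral_congr h1
    _ = ∫⁻ y in Set.Ioi (0 : ℝ), ∫⁻ t in Set.Ioi (0 : ℝ), ENNReal.ofReal (t ^ (x - 1)) *
          ENNReal.ofReal (MelB_R G y * Real.exp (-(Real.pi * t * k ^ 2 / y)) / y ^ 2) :=
        lintegral_lintegral_swap hm2.aemeasurable
    _ = ∫⁻ y in Set.Ioi (0 : ℝ),
          ENNReal.ofReal (Real.pi ^ (-x) * Real.Gamma x * (k : ℝ) ^ (-(2 * x))) *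
            ENNReal.ofReal (cterm G y * y ^ (x - 2)) := by
        refine setLIntegral_congr_fun measurableSet_Ioi fun y hy => ?_
        have hy0 : 0 < y := hy
        have hR := cterm_nonneg h0 y
        have hc : 0 < Real.pi * k ^ 2 / y := by positivity
        have e1 : ∀ t ∈ Set.Ioi (0 : ℝ), ENNReal.ofReal (t ^ (x - 1)) *
            ENNReal.ofReal (MelB_R G y * Real.exp (-(Real.pi * t * k ^ 2 / y)) / y ^ 2) =
            ENNReal.ofReal (cterm G y / y ^ 2) *
              ENNReal.ofReal (t ^ (x - 1) * Real.exp (-(Real.pi * k ^ 2 / y * t))) := by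
          intro t ht
          have ht0 : 0 < t := ht
          rw [MelB_R_eq hy, ← ENNReal.ofReal_mul (by positivity), ← ENNReal.ofReal_mul (by positivity)]
          congr 1
          have e2 : Real.pi * t * k ^ 2 / y = Real.pi * k ^ 2 / y * t := by ring
          rw [e2]
          ring
        refine (setLIntegral_congr_fun measurableSet_Ioi e1).trans ?_
        rw [lintegral_const_mul _ (by fun_prop),
          MelB_gamma hx hc, ← ENNReal.ofReal_mul (by positivity), ← ENNReal.ofReal_mul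
            (by have := Real.Gamma_pos_of_pos hx; positivity)]
        congr 1
        have e3 : (Real.pi * k ^ 2 / y) ^ (-x) = Real.pi ^ (-x) * (k : ℝ) ^ (-(2 * x)) * y ^ x := by
          rw [Real.div_rpow (by positivity) hy0.le, Real.mul_rpow Real.pi_pos.le (by positivity),
            ← Real.rpow_natCast, ← Real.rpow_mul hk'.le, Real.rpow_neg hy0.le, div_inv_eq_mul]
          congr 3
          push_cast
          ring
        have e4 : y ^ (x - 2) = y ^ x / y ^ 2 := by
          rw [Real.rpow_sub hy0]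
          congr 1
          exact_mod_cast Real.rpow_natCast y 2
        rw [e3, e4]
        ring
    _ = _ := by
        rw [lintegral_const_mul']
        exact ENNReal.ofReal_ne_top

theorem uth_mellin {M : ℕ} {G : ℍ → ℝ} {r : ℕ → ℝ} (h : IsRS M G r) {x : ℝ} (hx : 1 < x) :
    ∫⁻ t in Set.Ioi (0 : ℝ), ENNReal.ofReal (t ^ (x - 1)) * uth M G t =
      ENNReal.ofReal (Real.pi ^ (-(2 * x)) / 8 * Real.Gamma (x / 2) ^ 4 * zetaM M x *
        ∑' n : ℕ, r n * (n : ℝ) ^ (-x)) := by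
  classical
  have hx0 : 0 < x := by linarith
  have hG := h.continuous
  have h0 := h.nonneg
  set I : ℝ≥0∞ := ∫⁻ y in Set.Ioi (0 : ℝ), ENNReal.ofReal (cterm G y * y ^ (x - 2)) with hI
  have hGx : 0 < Real.Gamma x := Real.Gamma_pos_of_pos hx0
  have hmt : Measurable fun t : ℝ => ENNReal.ofReal (t ^ (x - 1)) := by fun_prop
  have hsum : Summable fun k : ℕ => if k.Coprime M then (k : ℝ) ^ (-(2 * x)) else 0 := by
    have hs : Summable fun k : ℕ => (k : ℝ) ^ (-(2 * x)) :=
      Real.summable_nat_rpow.2 (by linarith)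
    refine Summable.of_nonneg_of_le (fun k => ?_) (fun k => ?_) hs
    · split_ifs
      · positivity
      · exact le_rfl
    · split_ifs
      · exact le_rfl
      · positivity
  have h1 : ∫⁻ t in Set.Ioi (0 : ℝ), ENNReal.ofReal (t ^ (x - 1)) * uth M G t =
      ∑' k : ℕ, ENNReal.ofReal (if k.Coprime M then (k : ℝ) ^ (-(2 * x)) else 0) *
        (ENNReal.ofReal (Real.pi ^ (-x) * Real.Gamma x) * I) := by
    calc ∫⁻ t in Set.Ioi (0 : ℝ), ENNReal.ofReal (t ^ (x - 1)) * uth M G t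
        = ∫⁻ t in Set.Ioi (0 : ℝ), ∑' k : ℕ, ENNReal.ofReal (t ^ (x - 1)) *
            (if 0 < k ∧ k.Coprime M then MelB_H G k t else 0) := by
          refine lintegral_congr fun t => ?_
          rw [MelB_uth, ENNReal.tsum_mul_left]
      _ = ∑' k : ℕ, ∫⁻ t in Set.Ioi (0 : ℝ), ENNReal.ofReal (t ^ (x - 1)) *
            (if 0 < k ∧ k.Coprime M then MelB_H G k t else 0) := by
          refine lintegral_tsum fun k => ?_
          split_ifs
          · exact (hmt.mul (MelB_measurable_H hG k)).aemeasurable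
          · exact (hmt.mul measurable_const).aemeasurable
      _ = _ := by
          refine tsum_congr fun k => ?_
          by_cases hk : 0 < k ∧ k.Coprime M
          · simp only [if_pos hk, if_pos hk.2]
            rw [MelB_H_mellin hG h0 hk.1 hx0, ← mul_assoc, ← ENNReal.ofReal_mul (by positivity)]
            congr 2
            ring
          · simp only [if_neg hk, mul_zero, lintegral_zero]
            have hz : (if k.Coprime M then (k : ℝ) ^ (-(2 * x)) else 0) = 0 := by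
              split_ifs with hc
              · have hk0 : k = 0 := by
                  by_contra h2
                  exact hk ⟨Nat.pos_of_ne_zero h2, hc⟩
                rw [hk0, Nat.cast_zero, Real.zero_rpow (by linarith)]
              · rfl
            rw [hz, ENNReal.ofReal_zero, zero_mul]
  have h2 : ∑' k : ℕ, ENNReal.ofReal (if k.Coprime M then (k : ℝ) ^ (-(2 * x)) else 0) =
      ENNReal.ofReal (zetaM M x) := by
    rw [zetaM, ENNReal.ofReal_tsum_of_nonneg _ hsum]
    intro k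
    split_ifs
    · positivity
    · exact le_rfl
  have hrn : ∀ n : ℕ, 0 ≤ r n * (n : ℝ) ^ (-x) := fun n =>
    mul_nonneg (h.r_nonneg n) (by positivity)
  have h3 : I = ENNReal.ofReal ((2 * Real.pi) ^ (-x) *
      (2 ^ (x - 3) * Real.Gamma (x / 2) ^ 4 / Real.Gamma x)) *
        ENNReal.ofReal (∑' n : ℕ, r n * (n : ℝ) ^ (-x)) := by
    rw [hI, cterm_mellin h hx, ENNReal.ofReal_tsum_of_nonneg hrn (summable_r h hx)]
  have hz0 : 0 ≤ zetaM M x := by
    rw [zetaM]
    refine tsum_nonneg fun k => ?_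
    split_ifs
    · positivity
    · exact le_rfl
  rw [h1, ENNReal.tsum_mul_right, h2, h3, ← ENNReal.ofReal_mul (by positivity),
    ← ENNReal.ofReal_mul (by positivity), ← ENNReal.ofReal_mul hz0]
  congr 1
  have e1 : (2 * Real.pi) ^ (-x) = 2 ^ (-x) * Real.pi ^ (-x) :=
    Real.mul_rpow (by norm_num) Real.pi_pos.le
  have e2 : (2 : ℝ) ^ (-x) * 2 ^ (x - 3) = 1 / 8 := by
    rw [← Real.rpow_add (by norm_num)]
    have : -x + (x - 3) = -(3 : ℕ) := by push_cast; ring
    rw [this, Real.rpow_neg (by norm_num), Real.rpow_natCast]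
    norm_num
  have e3 : Real.pi ^ (-(2 * x)) = Real.pi ^ (-x) * Real.pi ^ (-x) := by
    rw [← Real.rpow_add Real.pi_pos]
    congr 1
    ring
  rw [e1, e3]
  have e4 : Real.Gamma x * (Real.Gamma x)⁻¹ = 1 := mul_inv_cancel₀ hGx.ne'
  calc _ = Real.pi ^ (-x) * Real.pi ^ (-x) * ((2 : ℝ) ^ (-x) * 2 ^ (x - 3)) *
        Real.Gamma (x / 2) ^ 4 * zetaM M x * (∑' n : ℕ, r n * (n : ℝ) ^ (-x)) *
        (Real.Gamma x * (Real.Gamma x)⁻¹) := by ring
    _ = _ := by
        rw [e4, e2]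
        ring

theorem uth_antitone {M : ℕ} {G : ℍ → ℝ} (h0 : ∀ z, 0 ≤ G z) {s t : ℝ} (hst : s ≤ t) :
    uth M G t ≤ uth M G s := by
  classical
  rw [uth, uth]
  refine ENNReal.tsum_le_tsum fun k => ?_
  split_ifs with hk
  · refine setLIntegral_mono' measurableSet_Ioi fun y hy => ?_
    have hy0 : 0 < y := hy
    refine ENNReal.ofReal_le_ofReal ?_
    have hR := cterm_nonneg h0 y
    have h1 : Real.exp (-(Real.pi * t * k ^ 2 / y)) ≤ Real.exp (-(Real.pi * s * k ^ 2 / y)) := by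
      refine Real.exp_le_exp.2 (neg_le_neg ?_)
      have h2 : 0 ≤ Real.pi * k ^ 2 / y := by positivity
      have h3 : Real.pi * s * k ^ 2 / y = s * (Real.pi * k ^ 2 / y) := by ring
      have h4 : Real.pi * t * k ^ 2 / y = t * (Real.pi * k ^ 2 / y) := by ring
      rw [h3, h4]
      exact mul_le_mul_of_nonneg_right hst h2
    gcongr
  · exact le_rfl

theorem uth_bigO {M : ℕ} {G : ℍ → ℝ} {r : ℕ → ℝ} (h : IsRS M G r) {B : ℝ} (hB : 1 < B) :
    (fun t : ℝ => (uth M G t).toReal) =O[atTop] fun t : ℝ => t ^ (-B) := by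
  have hB0 : 0 < B := by linarith
  have h1 := uth_mellin h hB
  set K : ℝ := Real.pi ^ (-(2 * B)) / 8 * Real.Gamma (B / 2) ^ 4 * zetaM M B *
        ∑' n : ℕ, r n * (n : ℝ) ^ (-B) with hK
  refine IsBigO.of_bound (|K| * 2 ^ B) ?_
  filter_upwards [eventually_gt_atTop (0 : ℝ)] with t ht
  have ht2 : 0 < t / 2 := by linarith
  have h2 : ENNReal.ofReal ((t / 2) ^ B) * uth M G t ≤ ENNReal.ofReal |K| := by
    calc ENNReal.ofReal ((t / 2) ^ B) * uth M G t
        = (ENNReal.ofReal ((t / 2) ^ (B - 1)) * uth M G t) * ENNReal.ofReal (t / 2) := by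
          rw [mul_right_comm, ← ENNReal.ofReal_mul (by positivity)]
          congr 2
          rw [← Real.rpow_add_one ht2.ne']
          congr 1
          ring
      _ = ∫⁻ s in Set.Ioc (t / 2) t, ENNReal.ofReal ((t / 2) ^ (B - 1)) * uth M G t := by
          rw [setLIntegral_const, Real.volume_Ioc]
          congr 2
          ring
      _ ≤ ∫⁻ s in Set.Ioc (t / 2) t, ENNReal.ofReal (s ^ (B - 1)) * uth M G s := by
          refine setLIntegral_mono' measurableSet_Ioc fun s hs => ?_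
          refine mul_le_mul' (ENNReal.ofReal_le_ofReal ?_) (uth_antitone h.nonneg hs.2)
          exact Real.rpow_le_rpow ht2.le hs.1.le (by linarith)
      _ ≤ ∫⁻ s in Set.Ioi (0 : ℝ), ENNReal.ofReal (s ^ (B - 1)) * uth M G s :=
          lintegral_mono_set fun s hs => ht2.trans hs.1
      _ = ENNReal.ofReal K := h1
      _ ≤ ENNReal.ofReal |K| := ENNReal.ofReal_le_ofReal (le_abs_self K)
  have h3 : 0 < (t / 2) ^ B := Real.rpow_pos_of_pos ht2 _
  have h4 : ((t / 2) ^ B) * (uth M G t).toReal ≤ |K| := by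
    have h5 := ENNReal.toReal_mono ENNReal.ofReal_ne_top h2
    rwa [ENNReal.toReal_mul, ENNReal.toReal_ofReal h3.le, ENNReal.toReal_ofReal (abs_nonneg K)] at h5
  rw [Real.norm_of_nonneg ENNReal.toReal_nonneg,
    Real.norm_of_nonneg (Real.rpow_nonneg ht.le _)]
  have h6 : (t / 2) ^ B = t ^ B / 2 ^ B := Real.div_rpow ht.le (by norm_num) B
  have h7 : t ^ (-B) = (t ^ B)⁻¹ := Real.rpow_neg ht.le B
  have h8 : 0 < t ^ B := Real.rpow_pos_of_pos ht _
  have h9 : (0 : ℝ) < 2 ^ B := by positivity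
  rw [h6] at h4
  rw [h7, ← div_eq_mul_inv, le_div_iff₀ h8]
  have h10 : (uth M G t).toReal * t ^ B = (t ^ B / 2 ^ B * (uth M G t).toReal) * 2 ^ B := by
    field_simp
  rw [h10]
  exact mul_le_mul_of_nonneg_right h4 h9.le

end Pool.Agent.MaassRS74
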