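import Pool.Agent.W_7742r_h74.Asy
import Pool.Agent.W_7742r_h74.MelB

/-!
# Analytic continuation of the Rankin-Selberg series

Let `u t = (uth M G t).toReal`, `c`, `V'` from `uth_asymp` and
`φ t = u t - 1_{(0, 1]}(t) (c / t - V')`.  `φ` is locally integrable on `(0, ∞)` (`u` is
monotone), `O(t ^ (-B))` for `t → ∞` for all `B > 1`, and `O(t ^ (A - 1))` for `t → 0+` for all
`1 / 2 < A < 1`.  So its Mellin transform `m(s)` is complex differentiable on `Re s > 0`
(`mellin_differentiableAt_of_isBigO_rpow`).  For real `x > 1`,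
`∫ t ^ (x - 1) u t dt = m(x) + c / (x - 1) - V' / x` (`hasMellin_one_Ioc`, `hasMellin_cpow_Ioc`),
and by `uth_mellin` it is `π ^ (-2 x) / 8 Γ(x / 2) ^ 4 ζ_M(x) D(x)`, `D(x) = ∑ r(n) n ^ (-x)`.  Put
`g s = 8 π ^ (2 s) Γ(s / 2) ^ (-4) ((s - 1) m(s) + c - V' (s - 1) / s)`, which is complex
differentiable on the open set `Re s > 0` (`Γ` has no zeros and is differentiable there), hence
analytic.
-/

set_option autoImplicit false

noncomputable section

namespace Pool.Agent.MaassRS74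

open UpperHalfPlane

open MeasureTheory Filter Asymptotics Set Topology in
/-- Mellin transforms of functions with a simple pole at `1` and a constant term. -/
theorem RSm_mellin (u : ℝ → ℝ) (hanti : AntitoneOn u (Ioi 0)) (c V' : ℝ)
    (h0 : ∀ A : ℝ, 1 / 2 < A → A < 1 →
      (fun t : ℝ => u t - c / t + V') =O[𝓝[>] 0] fun t : ℝ => t ^ (A - 1))
    (hinf : ∀ B : ℝ, 1 < B → (fun t : ℝ => u t) =O[atTop] fun t : ℝ => t ^ (-B)) :
    ∃ m : ℂ → ℂ, (∀ s : ℂ, 0 < s.re → DifferentiableAt ℂ m s) ∧ ∀ s : ℂ, 1 < s.re →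
      mellin (fun t => (u t : ℂ)) s = m s + c * (1 / (s - 1)) - V' * (1 / s) := by
  set p1 : ℝ → ℂ := indicator (Ioc 0 1) (fun t => (t : ℂ) ^ (-1 : ℂ)) with hp1
  set p0 : ℝ → ℂ := indicator (Ioc 0 1) (fun _ => (1 : ℂ)) with hp0
  set φ : ℝ → ℂ := fun t => (u t : ℂ) - ((c : ℂ) • p1 t - (V' : ℂ) • p0 t) with hφ
  have hφtop : ∀ t : ℝ, 1 < t → φ t = (u t : ℂ) := by
    intro t ht
    have : t ∉ Ioc (0 : ℝ) 1 := fun h => absurd h.2 (not_le.2 ht)
    simp only [hφ, hp1, hp0, indicator_of_notMem this]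
    simp
  have hφbot : ∀ t : ℝ, t ∈ Ioc (0 : ℝ) 1 → φ t = ((u t - c / t + V' : ℝ) : ℂ) := by
    intro t ht
    simp only [hφ, hp1, hp0, indicator_of_mem ht]
    rw [Complex.cpow_neg_one]
    push_cast
    simp only [smul_eq_mul]
    ring
  have hloc : LocallyIntegrableOn φ (Ioi 0) := by
    rw [locallyIntegrableOn_iff isOpen_Ioi.isLocallyClosed]
    intro k hk hkc
    have hu : IntegrableOn u k := (hanti.mono hk).integrableOn_isCompact hkc
    have hu' : IntegrableOn (fun t => (u t : ℂ)) k := hu.ofReal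
    have hc1 : ContinuousOn (fun t : ℝ => (t : ℂ) ^ (-1 : ℂ)) k := by
      intro t ht
      have h0t : (0 : ℝ) < t := hk ht
      have h1 : ContinuousAt (fun t : ℝ => (t : ℂ) ^ (-1 : ℂ)) t := by
        simp only [Complex.cpow_neg_one]
        refine ContinuousAt.inv₀ Complex.continuous_ofReal.continuousAt ?_
        exact_mod_cast h0t.ne'
      exact h1.continuousWithinAt
    have hi1 : IntegrableOn p1 k :=
      (hc1.integrableOn_compact hkc).indicator measurableSet_Ioc
    have hi0 : IntegrableOn p0 k :=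
      ((continuousOn_const (c := (1 : ℂ))).integrableOn_compact hkc).indicator measurableSet_Ioc
    exact hu'.sub ((hi1.smul (c : ℂ)).sub (hi0.smul (V' : ℂ)))
  have htop : ∀ B : ℝ, 1 < B → φ =O[atTop] fun t : ℝ => t ^ (-B) := by
    intro B hB
    refine IsBigO.congr' (f₁ := fun t : ℝ => (u t : ℂ)) (g₁ := fun t : ℝ => t ^ (-B)) ?_ ?_ (EventuallyEq.refl _ _)
    · have := hinf B hB
      rw [← isBigO_norm_left] at this ⊢
      simpa using this
    · filter_upwards [eventually_gt_atTop (1 : ℝ)] with t ht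
      exact (hφtop t ht).symm
  have hbot : ∀ A : ℝ, 1 / 2 < A → A < 1 → φ =O[𝓝[>] 0] fun t : ℝ => t ^ (-(1 - A)) := by
    intro A hA hA1
    refine IsBigO.congr' (f₁ := fun t : ℝ => ((u t - c / t + V' : ℝ) : ℂ)) (g₁ := fun t : ℝ => t ^ (A - 1)) ?_ ?_ ?_
    · have := h0 A hA hA1
      rw [← isBigO_norm_left] at this ⊢
      refine this.congr_left fun t => ?_
      rw [Complex.norm_real]
    · have : Ioc (0 : ℝ) 1 ∈ 𝓝[>] (0 : ℝ) := Ioc_mem_nhdsGT one_pos
      filter_upwards [this] with t ht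
      exact (hφbot t ht).symm
    · refine Eventually.of_forall fun t => ?_
      change t ^ (A - 1) = t ^ (-(1 - A))
      congr 1
      ring
  refine ⟨mellin φ, fun s hs => ?_, fun s hs => ?_⟩
  · have hA : 1 / 2 < max (3 / 4) (1 - s.re / 2) := lt_max_of_lt_left (by norm_num)
    have hA1 : max (3 / 4) (1 - s.re / 2) < 1 := max_lt (by norm_num) (by linarith)
    have hB : 1 < max 2 (s.re + 1) := lt_max_of_lt_left (by norm_num)
    refine mellin_differentiableAt_of_isBigO_rpow hloc (htop _ hB) ?_ (hbot _ hA hA1) ?_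
    · exact lt_of_lt_of_le (by linarith) (le_max_right _ _)
    · have : 1 - s.re / 2 ≤ max (3 / 4) (1 - s.re / 2) := le_max_right _ _
      linarith
  · have hm1 := hasMellin_cpow_Ioc (-1) (s := s) (by simpa using hs)
    have hm0 := hasMellin_one_Ioc (s := s) (by linarith)
    have hs0 : 0 < s.re := by linarith
    have hφc : MellinConvergent φ s := by
      have hA : 1 / 2 < max (3 / 4) (1 - s.re / 2) := lt_max_of_lt_left (by norm_num)
      have hA1 : max (3 / 4) (1 - s.re / 2) < 1 := max_lt (by norm_num) (by linarith)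
      have hB : 1 < max 2 (s.re + 1) := lt_max_of_lt_left (by norm_num)
      refine mellinConvergent_of_isBigO_rpow hloc (htop _ hB) ?_ (hbot _ hA hA1) ?_
      · exact lt_of_lt_of_le (by linarith) (le_max_right _ _)
      · have : 1 - s.re / 2 ≤ max (3 / 4) (1 - s.re / 2) := le_max_right _ _
        linarith
    have h1 := hasMellin_const_smul hm1.1 (c : ℂ)
    have h2 := hasMellin_const_smul hm0.1 (V' : ℂ)
    have h3 := hasMellin_sub h1.1 h2.1
    have h4 := hasMellin_add hφc h3.1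
    have e : (fun t => φ t + ((c : ℂ) • p1 t - (V' : ℂ) • p0 t)) = fun t => (u t : ℂ) := by
      funext t
      simp only [hφ]
      ring
    have h5 : mellin (fun t => (u t : ℂ)) s =
        mellin φ s + mellin (fun t => (c : ℂ) • p1 t - (V' : ℂ) • p0 t) s := by
      rw [← e]; exact h4.2
    rw [h5, h3.2, h1.2, h2.2, hm1.2, hm0.2]
    simp only [smul_eq_mul]
    ring

open MeasureTheory Set ENNReal in
/-- The Mellin transform as a Lebesgue integral. -/
theorem RSm_real (v : ℝ → ℝ≥0∞) (hv : Measurable v) (hfin : ∀ t : ℝ, 0 < t → v t < ∞) (x K : ℝ)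
    (hK : 0 ≤ K)
    (h : ∫⁻ t in Ioi (0 : ℝ), ENNReal.ofReal (t ^ (x - 1)) * v t = ENNReal.ofReal K) :
    mellin (fun t => (((v t).toReal : ℝ) : ℂ)) x = (K : ℂ) := by
  have e1 : mellin (fun t => (((v t).toReal : ℝ) : ℂ)) x =
      ((∫ t in Ioi (0 : ℝ), t ^ (x - 1) * (v t).toReal : ℝ) : ℂ) := by
    rw [mellin, ← integral_complex_ofReal]
    refine setIntegral_congr_fun measurableSet_Ioi fun t ht => ?_
    have ht' : (0 : ℝ) < t := ht
    simp only [smul_eq_mul]
    rw [Complex.ofReal_mul, Complex.ofReal_cpow ht'.le]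
    push_cast
    rfl
  rw [e1]
  congr 1
  rw [integral_eq_lintegral_of_nonneg_ae]
  · have e2 : ∫⁻ t in Ioi (0 : ℝ), ENNReal.ofReal (t ^ (x - 1) * (v t).toReal) =
        ∫⁻ t in Ioi (0 : ℝ), ENNReal.ofReal (t ^ (x - 1)) * v t := by
      refine setLIntegral_congr_fun measurableSet_Ioi fun t ht => ?_
      have ht' : (0 : ℝ) < t := ht
      change ENNReal.ofReal (t ^ (x - 1) * (v t).toReal) = ENNReal.ofReal (t ^ (x - 1)) * v t
      rw [ENNReal.ofReal_mul (Real.rpow_nonneg ht'.le _), ENNReal.ofReal_toReal (hfin t ht').ne]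
    rw [e2, h, ENNReal.toReal_ofReal hK]
  · refine (ae_restrict_iff' measurableSet_Ioi).2 (Filter.Eventually.of_forall fun t ht => ?_)
    have ht' : (0 : ℝ) < t := ht
    exact mul_nonneg (Real.rpow_nonneg ht'.le _) ENNReal.toReal_nonneg
  · exact ((measurable_id.pow_const _).mul hv.ennreal_toReal).aestronglyMeasurable

theorem rs_main {M : ℕ} [NeZero M] {G : ℍ → ℝ} {r : ℕ → ℝ} (h : IsRS M G r) :
    ∃ g : ℂ → ℂ, (∀ s : ℂ, 0 < s.re → AnalyticAt ℂ g s) ∧ ∀ x : ℝ, 1 < x →
      g x = (((x - 1) * (zetaM M x * ∑' n : ℕ, r n * (n : ℝ) ^ (-x)) : ℝ) : ℂ) := by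
  have h0 := h.nonneg
  obtain ⟨c, V', hcV⟩ := uth_asymp h.continuous h0 h.bdd h.inv
  have hanti : Antitone (uth M G) := fun s t hst => uth_antitone h0 hst
  have hfin : ∀ t : ℝ, 0 < t → uth M G t < ⊤ := fun t ht =>
    uth_lt_top h.continuous h0 h.bdd h.inv ht
  obtain ⟨m, hm, hmu⟩ := RSm_mellin (fun t => (uth M G t).toReal)
    (fun s hs t ht hst => ENNReal.toReal_mono (hfin s hs).ne (hanti hst)) c V' hcV
    (fun B hB => uth_bigO h hB)
  refine ⟨fun s => 8 * (Real.pi : ℂ) ^ (2 * s) * ((Complex.Gamma (s / 2)) ^ 4)⁻¹ *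
    ((s - 1) * m s + c - V' * (s - 1) * (1 / s)), fun s hs => ?_, fun x hx => ?_⟩
  · have hopen : IsOpen {s : ℂ | 0 < s.re} := isOpen_lt continuous_const Complex.continuous_re
    refine DifferentiableOn.analyticAt (s := {s : ℂ | 0 < s.re}) (fun w hw => ?_) (hopen.mem_nhds hs)
    have hw' : 0 < w.re := hw
    have hw2 : 0 < (w / 2).re := by
      rw [Complex.div_ofNat_re]
      exact div_pos hw' two_pos
    have hw0 : w ≠ 0 := by
      rintro rfl
      simp at hw'
    have hπ : (Real.pi : ℂ) ≠ 0 := by exact_mod_cast Real.pi_ne_zero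
    have d1 : DifferentiableAt ℂ (fun s : ℂ => (Real.pi : ℂ) ^ (2 * s)) w :=
      (differentiableAt_id.const_mul 2).const_cpow (Or.inl hπ)
    have d2 : DifferentiableAt ℂ (fun s : ℂ => Complex.Gamma (s / 2)) w := by
      have : DifferentiableAt ℂ Complex.Gamma (w / 2) := by
        refine Complex.differentiableAt_Gamma _ fun n hn => ?_
        rw [hn] at hw2
        have : (-(n : ℂ)).re = -(n : ℝ) := by simp
        rw [this] at hw2
        have : (0 : ℝ) ≤ n := Nat.cast_nonneg n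
        linarith
      exact this.comp w (differentiableAt_id.div_const 2)
    have d3 : Complex.Gamma (w / 2) ^ 4 ≠ 0 := pow_ne_zero _ (Complex.Gamma_ne_zero_of_re_pos hw2)
    have d4 : DifferentiableAt ℂ (fun s : ℂ => ((Complex.Gamma (s / 2)) ^ 4)⁻¹) w :=
      (d2.pow 4).inv d3
    have d5 : DifferentiableAt ℂ (fun s : ℂ => (s - 1) * m s + c - V' * (s - 1) * (1 / s)) w := by
      have e1 : DifferentiableAt ℂ (fun s : ℂ => s - 1) w := differentiableAt_id.sub_const 1
      have e2 : DifferentiableAt ℂ (fun s : ℂ => 1 / s) w := by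
        simp only [one_div]
        exact differentiableAt_inv hw0
      exact ((e1.mul (hm w hw')).add_const _).sub ((e1.const_mul _).mul e2)
    exact (((d1.const_mul 8).mul d4).mul d5).differentiableWithinAt
  · have hx1 : 1 < ((x : ℝ) : ℂ).re := by simpa using hx
    have hx0 : (0 : ℝ) < x := by linarith
    have hzM : 0 ≤ zetaM M x := by
      unfold zetaM
      exact tsum_nonneg fun k => by
        split_ifs
        · exact Real.rpow_nonneg (Nat.cast_nonneg k) _
        · exact le_rfl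
    have hD : 0 ≤ ∑' n : ℕ, r n * (n : ℝ) ^ (-x) :=
      tsum_nonneg fun n => mul_nonneg (h.r_nonneg n) (Real.rpow_nonneg (Nat.cast_nonneg n) _)
    have hΓ : 0 < Real.Gamma (x / 2) := Real.Gamma_pos_of_pos (by linarith)
    have hpi := Real.pi_pos
    have hK : 0 ≤ Real.pi ^ (-(2 * x)) / 8 * Real.Gamma (x / 2) ^ 4 * zetaM M x *
        ∑' n : ℕ, r n * (n : ℝ) ^ (-x) := by positivity
    have hmel := RSm_real (uth M G) hanti.measurable hfin x _ hK (uth_mellin h hx)
    have h3 := hmu x hx1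
    rw [hmel] at h3
    have hx1' : ((x : ℂ) - 1) ≠ 0 := by
      have : (x - 1 : ℝ) ≠ 0 := by linarith
      exact_mod_cast this
    have h4 : ((x : ℂ) - 1) * m x + c - V' * ((x : ℂ) - 1) * (1 / x) =
        ((x : ℂ) - 1) * ((Real.pi ^ (-(2 * x)) / 8 * Real.Gamma (x / 2) ^ 4 * zetaM M x *
        ∑' n : ℕ, r n * (n : ℝ) ^ (-x) : ℝ) : ℂ) := by
      rw [h3]
      field_simp
    simp only []
    rw [h4]
    have hg : Complex.Gamma ((x : ℂ) / 2) = ((Real.Gamma (x / 2) : ℝ) : ℂ) := by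
      rw [← Complex.Gamma_ofReal]
      push_cast
      rfl
    have hpow : (Real.pi : ℂ) ^ (2 * (x : ℂ)) = ((Real.pi ^ (2 * x) : ℝ) : ℂ) := by
      rw [Complex.ofReal_cpow hpi.le]
      push_cast
      rfl
    rw [hg, hpow]
    have h5 : (8 : ℝ) * Real.pi ^ (2 * x) * (Real.Gamma (x / 2) ^ 4)⁻¹ *
        ((x - 1) * (Real.pi ^ (-(2 * x)) / 8 * Real.Gamma (x / 2) ^ 4 * zetaM M x *
        ∑' n : ℕ, r n * (n : ℝ) ^ (-x))) =
        (x - 1) * (zetaM M x * ∑' n : ℕ, r n * (n : ℝ) ^ (-x)) := by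
      rw [Real.rpow_neg hpi.le]
      have : Real.pi ^ (2 * x) ≠ 0 := (Real.rpow_pos_of_pos hpi _).ne'
      field_simp
    rw [← h5]
    push_cast
    ring

end Pool.Agent.MaassRS74
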