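import Pool.Agent.W_7742r_h74.ThA

/-!
# The theta function of level `M` by Moebius inversion

For `d ∣ M` the map `(m', n') ↦ (M m', d n')` is a bijection of `ℤ × ℤ` onto the `(m, n)` with
`M ∣ m`, `d ∣ n`, and `qf z (M m', d n') = |M m' z + d n'| ^ 2 / y
 = d ^ 2 (M / d) |m' (M / d) z + n'| ^ 2 / ((M / d) y) = M d qf ((M / d) z) (m', n')`.  So
`th (t M d) (sc (M / d) z)` is the sum of `exp(-π t qf z v)` over the `v` with `M ∣ v.1`,
`d ∣ v.2`, and `∑_{d ∣ M, d ∣ n} μ(d) = [gcd (n, M) = 1]`.  (Pass to real numbers: everything is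
finite by `th_lt_top`.)
-/

set_option autoImplicit false

noncomputable section

namespace Pool.Agent.MaassRS74

open UpperHalfPlane ENNReal

theorem Mob_sc {e : ℕ} (he : 0 < e) (z : ℍ) : ((sc e z : ℍ) : ℂ) = (e : ℂ) * z := by
  have h : 0 < ((e : ℂ) * (z : ℂ)).im := by
    have h1 : ((e : ℂ) * (z : ℂ)).im = (e : ℝ) * z.im := by simp
    rw [h1]
    have := z.im_pos
    positivity
  unfold sc
  rw [ofComplex_apply_of_im_pos h]

theorem Mob_sc_im {e : ℕ} (he : 0 < e) (z : ℍ) : (sc e z).im = (e : ℝ) * z.im := by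
  have h := congrArg Complex.im (Mob_sc he z)
  simpa using h

theorem Mob_qf {M d : ℕ} (hM : 0 < M) (hd : d ∣ M) (z : ℍ) (v : ℤ × ℤ) :
    (M * d : ℝ) * qf (sc (M / d) z) v = qf z ((M : ℤ) * v.1, (d : ℤ) * v.2) := by
  obtain ⟨e, rfl⟩ := hd
  have hd0 : 0 < d := Nat.pos_of_mul_pos_right hM
  have he0 : 0 < e := Nat.pos_of_mul_pos_left hM
  have h1 : d * e / d = e := Nat.mul_div_cancel_left e hd0
  rw [h1]
  unfold qf
  rw [Mob_sc he0, Mob_sc_im he0]
  have hy := z.im_pos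
  have hdr : (0 : ℝ) < d := by exact_mod_cast hd0
  have her : (0 : ℝ) < e := by exact_mod_cast he0
  have h2 : (((d * e : ℕ) : ℤ) * v.1 : ℤ) * (z : ℂ) + (((d : ℤ) * v.2 : ℤ) : ℂ) =
      (d : ℂ) * ((v.1 : ℂ) * ((e : ℂ) * z) + v.2) := by
    push_cast
    ring
  simp only
  rw [h2, norm_mul, mul_pow, Complex.norm_natCast]
  push_cast
  field_simp

theorem Mob_sum {M : ℕ} (hM : 0 < M) (n : ℤ) :
    ∑ d ∈ M.divisors, (if (d : ℤ) ∣ n then (ArithmeticFunction.moebius d : ℝ) else 0) =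
      if IsCoprime n (M : ℤ) then 1 else 0 := by
  have h0 : ∀ k : ℕ, 0 < k → ∑ d ∈ k.divisors, (ArithmeticFunction.moebius d : ℤ) =
      if k = 1 then 1 else 0 := by
    intro k hk
    rw [← ArithmeticFunction.coe_mul_zeta_apply, ArithmeticFunction.moebius_mul_coe_zeta]
    simp [ArithmeticFunction.one_apply]
  have h1 : M.divisors.filter (fun d : ℕ => (d : ℤ) ∣ n) = (Int.gcd n M).divisors := by
    ext d
    have hg : Int.gcd n M ≠ 0 := by
      intro h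
      rw [Int.gcd_eq_zero_iff] at h
      omega
    have hdvd : d ∣ Int.gcd n M ↔ (d : ℤ) ∣ n ∧ (d : ℤ) ∣ (M : ℤ) := by
      rw [Int.gcd_def, Int.natAbs_natCast, Nat.dvd_gcd_iff, ← Int.natCast_dvd,
        Int.natCast_dvd_natCast]
    rw [Finset.mem_filter, Nat.mem_divisors, Nat.mem_divisors, hdvd]
    constructor
    · rintro ⟨⟨a, b⟩, c⟩
      exact ⟨⟨c, by exact_mod_cast a⟩, hg⟩
    · rintro ⟨⟨a, b⟩, c⟩
      exact ⟨⟨by exact_mod_cast b, hM.ne'⟩, a⟩
  rw [← Finset.sum_filter, h1]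
  have hg : 0 < Int.gcd n M := by
    refine Nat.pos_of_ne_zero fun h => ?_
    rw [Int.gcd_eq_zero_iff] at h
    omega
  have h2 : ((∑ d ∈ (Int.gcd n M).divisors, (ArithmeticFunction.moebius d : ℤ) : ℤ) : ℝ) =
      ((if Int.gcd n M = 1 then 1 else 0 : ℤ) : ℝ) := by rw [h0 _ hg]
  push_cast at h2
  rw [h2]
  have h3 : IsCoprime n (M : ℤ) ↔ Int.gcd n M = 1 := Int.isCoprime_iff_gcd_eq_one
  by_cases h : Int.gcd n M = 1
  · simp [h, h3]
  · simp [h, h3]

open Classical in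
theorem Mob_th {M d : ℕ} (hM : 0 < M) (hd : d ∣ M) {t : ℝ} (ht : 0 < t) (z : ℍ) :
    (th (t * M * d) (sc (M / d) z)).toReal =
      ∑' v : ℤ × ℤ, if (M : ℤ) ∣ v.1 ∧ (d : ℤ) ∣ v.2 then ThA_F t z v else 0 := by
  have hd0 : 0 < d := Nat.pos_of_dvd_of_pos hd hM
  have hdr : (0 : ℝ) < d := by exact_mod_cast hd0
  have hMr : (0 : ℝ) < M := by exact_mod_cast hM
  rw [ThA_th (by positivity), ENNReal.toReal_ofReal
    (tsum_nonneg (g := ThA_F (t * M * d) (sc (M / d) z)) fun v => (Real.exp_pos _).le)]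
  let φ : ℤ × ℤ → ℤ × ℤ := fun v => ((M : ℤ) * v.1, (d : ℤ) * v.2)
  have hφ : Function.Injective φ := by
    rintro ⟨a, b⟩ ⟨a', b'⟩ h
    have h1 : (M : ℤ) * a = (M : ℤ) * a' := congrArg Prod.fst h
    have h2 : (d : ℤ) * b = (d : ℤ) * b' := congrArg Prod.snd h
    have e1 : a = a' := mul_left_cancel₀ (by exact_mod_cast hM.ne') h1
    have e2 : b = b' := mul_left_cancel₀ (by exact_mod_cast hd0.ne') h2
    rw [e1, e2]
  rw [← hφ.tsum_eq (f := fun v : ℤ × ℤ => if (M : ℤ) ∣ v.1 ∧ (d : ℤ) ∣ v.2 then ThA_F t z v else 0)]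
  · refine tsum_congr fun v => ?_
    have h1 : (M : ℤ) ∣ (φ v).1 ∧ (d : ℤ) ∣ (φ v).2 := ⟨Dvd.intro _ rfl, Dvd.intro _ rfl⟩
    rw [if_pos h1]
    unfold ThA_F
    rw [← Mob_qf hM hd z v]
    congr 1
    ring
  · intro v hv
    rw [Function.mem_support] at hv
    by_cases h : (M : ℤ) ∣ v.1 ∧ (d : ℤ) ∣ v.2
    · obtain ⟨⟨a, ha⟩, ⟨b, hb⟩⟩ := h
      exact ⟨(a, b), Prod.ext ha.symm hb.symm⟩
    · exact absurd (if_neg h) hv

theorem thN_eq {M : ℕ} (hM : 0 < M) {t : ℝ} (ht : 0 < t) (z : ℍ) :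
    (thN M t z).toReal = ∑ d ∈ M.divisors, (ArithmeticFunction.moebius d : ℝ) *
      (th (t * M * d) (sc (M / d) z)).toReal := by
  classical
  have hs := ThA_summable ht z
  have hsub : ∀ d : ℕ, Summable (fun v : ℤ × ℤ =>
      if (M : ℤ) ∣ v.1 ∧ (d : ℤ) ∣ v.2 then ThA_F t z v else 0) := by
    intro d
    refine Summable.of_nonneg_of_le (fun v => ?_) (fun v => ?_) hs
    · split_ifs
      · exact (Real.exp_pos _).le
      · exact le_rfl
    · split_ifs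
      · exact le_rfl
      · exact (Real.exp_pos _).le
  have hR : ∑ d ∈ M.divisors, (ArithmeticFunction.moebius d : ℝ) *
      (th (t * M * d) (sc (M / d) z)).toReal =
      ∑' v : ℤ × ℤ, ∑ d ∈ M.divisors, (ArithmeticFunction.moebius d : ℝ) *
        (if (M : ℤ) ∣ v.1 ∧ (d : ℤ) ∣ v.2 then ThA_F t z v else 0) := by
    rw [Summable.tsum_finsetSum (fun d _ => (hsub d).mul_left _)]
    refine Finset.sum_congr rfl fun d hd => ?_
    rw [tsum_mul_left, Mob_th hM (Nat.dvd_of_mem_divisors hd) ht z]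
  rw [hR]
  have hL : (thN M t z).toReal =
      ∑' v : ℤ × ℤ, if (M : ℤ) ∣ v.1 ∧ IsCoprime v.2 (M : ℤ) then ThA_F t z v else 0 := by
    unfold thN
    rw [ENNReal.tsum_toReal_eq]
    · refine tsum_congr fun v => ?_
      split_ifs
      · exact ENNReal.toReal_ofReal (Real.exp_pos _).le
      · rfl
    · intro v
      split_ifs
      · exact ENNReal.ofReal_ne_top
      · exact ENNReal.zero_ne_top
  rw [hL]
  refine tsum_congr fun v => ?_
  by_cases h1 : (M : ℤ) ∣ v.1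
  · have h2 : ∑ d ∈ M.divisors, (ArithmeticFunction.moebius d : ℝ) *
        (if (M : ℤ) ∣ v.1 ∧ (d : ℤ) ∣ v.2 then ThA_F t z v else 0) =
        (∑ d ∈ M.divisors, (if (d : ℤ) ∣ v.2 then (ArithmeticFunction.moebius d : ℝ) else 0)) *
          ThA_F t z v := by
      rw [Finset.sum_mul]
      refine Finset.sum_congr rfl fun d _ => ?_
      by_cases h3 : (d : ℤ) ∣ v.2
      · rw [if_pos ⟨h1, h3⟩, if_pos h3]
      · rw [if_neg (fun h => h3 h.2), if_neg h3, mul_zero, zero_mul]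
    rw [h2, Mob_sum hM]
    by_cases h4 : IsCoprime v.2 (M : ℤ)
    · rw [if_pos ⟨h1, h4⟩, if_pos h4, one_mul]
    · rw [if_neg (fun h => h4 h.2), if_neg h4, zero_mul]
  · rw [if_neg (fun h => h1 h.1)]
    symm
    refine Finset.sum_eq_zero fun d _ => ?_
    rw [if_neg (fun h => h1 h.1), mul_zero]

end Pool.Agent.MaassRS74
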