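import Pool.Agent.W_7742r_h74.Defs

/-!
# The theta function on the fundamental domain

For `z ∈ 𝒟`: `|m z + n| ^ 2 ≥ m ^ 2 |z| ^ 2 - |m n| + n ^ 2 ≥ (m ^ 2 |z| ^ 2 + n ^ 2) / 2` as
`|Re z| ≤ 1 / 2`, `|z| ≥ 1`, so `qf z (m, n) ≥ m ^ 2 y / 2 + n ^ 2 / (2 y)`, `y = Im z ≥ √3 / 2`.
Hence for `u ≥ 1`: `th u z ≤ (1 + a) (1 + b)` with `a = ∑_{m ≠ 0} exp(-π u y m ^ 2 / 2)`,
`b = ∑_{n ≠ 0} exp(-π u n ^ 2 / (2 y))`.  Since `exp(-X) ≤ c X ^ (-A)` (`c` depends on `A`) and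
`∑_{n ≠ 0} |n| ^ (-2 A) < ∞` for `A > 1 / 2`: `b ≤ c' (y / u) ^ A` and
`a ≤ c' (u y) ^ (-A) ≤ c'' (y / u) ^ A` (`y ^ (-2 A)` is bounded), and `a ≤ c''`.  So
`a + b + a b ≤ C (y / u) ^ A`.

`lintegral_fd_im`: `𝒟` is contained in `{|Re z| ≤ 1 / 2, Im z ≥ 1 / 2}` and
`∫_{1/2}^∞ y ^ (A - 2) dy < ∞` for `A < 1` (compare `volume_fd_lt_top` in
`Pool.Agent.W_7742m_h74.Cnt`).
-/

set_option autoImplicit false

noncomputable section

namespace Pool.Agent.MaassRS74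

open UpperHalfPlane ENNReal MeasureTheory

private theorem exp_rpow {A t : ℝ} (hA : 0 < A) (ht : 0 < t) :
    Real.exp (-t) ≤ A ^ A * t ^ (-A) := by
  have h1 : t / A ≤ Real.exp (t / A) := by
    have := Real.add_one_le_exp (t / A)
    linarith
  have h2 : (t / A) ^ A ≤ Real.exp t := by
    have h3 := Real.rpow_le_rpow (div_pos ht hA).le h1 hA.le
    rw [← Real.exp_mul, div_mul_cancel₀ t hA.ne'] at h3
    exact h3
  rw [Real.div_rpow ht.le hA.le, div_le_iff₀ (Real.rpow_pos_of_pos hA A)] at h2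
  rw [Real.rpow_neg ht.le, Real.exp_neg, ← div_eq_mul_inv, ← one_div,
    div_le_div_iff₀ (Real.exp_pos t) (Real.rpow_pos_of_pos ht A)]
  linarith

private theorem s_bound {A : ℝ} (hA : 1 / 2 < A) : ∃ K : ℝ, 0 < K ∧ ∀ X : ℝ, 0 < X →
    ∑' n : ℤ, ENNReal.ofReal (Real.exp (-(X * (n : ℝ) ^ 2))) ≤
      1 + ENNReal.ofReal (K * X ^ (-A)) := by
  have hA0 : 0 < A := lt_trans (by norm_num) hA
  have hs : Summable fun n : ℤ => |(n : ℝ)| ^ (-(2 * A)) :=
    Real.summable_abs_int_rpow (by linarith)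
  have hnn : ∀ n : ℤ, 0 ≤ |(n : ℝ)| ^ (-(2 * A)) := fun n => Real.rpow_nonneg (abs_nonneg _) _
  have hT : 0 ≤ ∑' n : ℤ, |(n : ℝ)| ^ (-(2 * A)) := tsum_nonneg hnn
  have hAA : 0 < A ^ A := Real.rpow_pos_of_pos hA0 A
  refine ⟨A ^ A * (∑' n : ℤ, |(n : ℝ)| ^ (-(2 * A)) + 1), mul_pos hAA (by linarith), ?_⟩
  intro X hX
  have hXA : 0 < X ^ (-A) := Real.rpow_pos_of_pos hX _
  rw [ENNReal.tsum_eq_add_tsum_ite (f := fun n : ℤ => ENNReal.ofReal
    (Real.exp (-(X * (n : ℝ) ^ 2)))) (0 : ℤ)]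
  refine add_le_add (by simp) ?_
  refine le_trans (ENNReal.tsum_le_tsum
    (g := fun n : ℤ => ENNReal.ofReal (A ^ A * X ^ (-A) * |(n : ℝ)| ^ (-(2 * A)))) fun n => ?_) ?_
  · split_ifs with h
    · simp
    · apply ENNReal.ofReal_le_ofReal
      have hn : 0 < |(n : ℝ)| := abs_pos.mpr (by exact_mod_cast h)
      have h1 := exp_rpow hA0 (t := X * (n : ℝ) ^ 2) (by positivity)
      refine h1.trans (le_of_eq ?_)
      rw [Real.mul_rpow hX.le (sq_nonneg _), ← sq_abs, ← Real.rpow_natCast,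
        ← Real.rpow_mul (abs_nonneg _), mul_assoc]
      congr 3
      push_cast
      ring
  · rw [← ENNReal.ofReal_tsum_of_nonneg]
    · apply ENNReal.ofReal_le_ofReal
      rw [tsum_mul_left]
      have : 0 < A ^ A * X ^ (-A) := mul_pos hAA hXA
      nlinarith
    · intro n
      exact mul_nonneg (mul_pos hAA hXA).le (hnn n)
    · exact hs.mul_left _

private theorem qf_ge {z : ℍ} (hz : z ∈ ModularGroup.fd) (v : ℤ × ℤ) :
    z.im / 2 * (v.1 : ℝ) ^ 2 + 1 / (2 * z.im) * (v.2 : ℝ) ^ 2 ≤ qf z v := by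
  obtain ⟨m, n⟩ := v
  obtain ⟨h1, h2⟩ := hz
  have hy := z.im_pos
  unfold qf
  rw [le_div_iff₀ hy]
  have h3 : ‖((m, n) : ℤ × ℤ).1 * (z : ℂ) + (((m, n) : ℤ × ℤ).2 : ℂ)‖ ^ 2 =
      (m : ℝ) ^ 2 * (z.re ^ 2 + z.im ^ 2) + 2 * m * n * z.re + (n : ℝ) ^ 2 := by
    rw [← Complex.normSq_eq_norm_sq, Complex.normSq_apply]
    simp
    ring
  rw [h3]
  have h4 : 1 ≤ z.re ^ 2 + z.im ^ 2 := by
    rw [Complex.normSq_apply] at h1
    simp only [coe_re, coe_im] at h1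
    nlinarith
  have h5 : (z.im / 2 * (((m, n) : ℤ × ℤ).1 : ℝ) ^ 2 +
      1 / (2 * z.im) * (((m, n) : ℤ × ℤ).2 : ℝ) ^ 2) * z.im =
      z.im ^ 2 * (m : ℝ) ^ 2 / 2 + (n : ℝ) ^ 2 / 2 := by
    simp only
    field_simp
  rw [h5]
  have h6 := abs_le.mp h2
  have h7 : -(|(m : ℝ) * n|) ≤ 2 * m * n * z.re := by
    have h8 : |2 * (m : ℝ) * n * z.re| ≤ |(m : ℝ) * n| := by
      have h9 : 2 * (m : ℝ) * n * z.re = (m * n) * (2 * z.re) := by ring
      rw [h9, abs_mul]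
      have h10 : |2 * z.re| ≤ 1 := by
        rw [abs_mul, abs_two]
        linarith
      nlinarith [abs_nonneg ((m : ℝ) * n)]
    linarith [neg_abs_le (2 * (m : ℝ) * n * z.re)]
  have h11 : |(m : ℝ) * n| ≤ ((m : ℝ) ^ 2 + (n : ℝ) ^ 2) / 2 := by
    rw [abs_le]
    constructor <;> nlinarith [sq_nonneg ((m : ℝ) + n), sq_nonneg ((m : ℝ) - n)]
  have h12 : (m : ℝ) ^ 2 * 1 ≤ (m : ℝ) ^ 2 * (z.re ^ 2 + z.im ^ 2) :=
    mul_le_mul_of_nonneg_left h4 (sq_nonneg _)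
  have h13 : 0 ≤ (m : ℝ) ^ 2 * z.re ^ 2 := by positivity
  nlinarith

theorem th_bound {A : ℝ} (hA : 1 / 2 < A) : ∃ C : ℝ, 0 < C ∧ ∀ u : ℝ, 1 ≤ u →
    ∀ z ∈ ModularGroup.fd, th u z ≤ 1 + ENNReal.ofReal (C * (z.im / u) ^ A) := by
  have hA0 : 0 < A := lt_trans (by norm_num) hA
  obtain ⟨K, hK, hs⟩ := s_bound hA
  have h2A : 0 < (2 : ℝ) ^ A := Real.rpow_pos_of_pos (by norm_num) A
  refine ⟨K * 2 ^ A + K + K * 2 ^ A * K, by positivity, ?_⟩
  intro u hu z hz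
  have hy := z.im_pos
  have hu0 : 0 < u := lt_of_lt_of_le one_pos hu
  have h34 := ModularGroup.three_le_four_mul_im_sq_of_mem_fd hz
  have hy2 : (1 : ℝ) / 2 ≤ z.im := by
    by_contra hc
    push Not at hc
    nlinarith
  have hpi := Real.pi_gt_three
  set X : ℝ := Real.pi * u * (z.im / 2) with hXd
  set Y : ℝ := Real.pi * u * (1 / (2 * z.im)) with hYd
  have hX : 0 < X := by positivity
  have hY : 0 < Y := by positivity
  have hr : 0 < (z.im / u) ^ A := Real.rpow_pos_of_pos (by positivity) A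
  have hXr : X ^ (-A) ≤ 2 ^ A * (z.im / u) ^ A := by
    rw [Real.rpow_neg hX.le, ← Real.inv_rpow hX.le, ← Real.mul_rpow (by norm_num) (by positivity)]
    refine Real.rpow_le_rpow (inv_nonneg.mpr hX.le) ?_ hA0.le
    rw [hXd, inv_le_iff_one_le_mul₀ hX]
    have : 2 * (z.im / u) * (Real.pi * u * (z.im / 2)) = Real.pi * z.im ^ 2 := by
      field_simp
    rw [this]
    nlinarith
  have hX1 : X ^ (-A) ≤ 2 ^ A := by
    rw [Real.rpow_neg hX.le, ← Real.inv_rpow hX.le]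
    refine Real.rpow_le_rpow (inv_nonneg.mpr hX.le) ?_ hA0.le
    rw [hXd, inv_le_iff_one_le_mul₀ hX]
    have h1 : 1 * (1 / 2) ≤ u * z.im := mul_le_mul hu hy2 (by norm_num) hu0.le
    nlinarith
  have hYr : Y ^ (-A) ≤ (z.im / u) ^ A := by
    rw [Real.rpow_neg hY.le, ← Real.inv_rpow hY.le]
    refine Real.rpow_le_rpow (inv_nonneg.mpr hY.le) ?_ hA0.le
    rw [hYd, inv_le_iff_one_le_mul₀ hY]
    have : z.im / u * (Real.pi * u * (1 / (2 * z.im))) = Real.pi / 2 := by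
      field_simp
    rw [this]
    linarith
  calc th u z ≤ ∑' v : ℤ × ℤ, ENNReal.ofReal (Real.exp (-(X * (v.1 : ℝ) ^ 2))) *
        ENNReal.ofReal (Real.exp (-(Y * (v.2 : ℝ) ^ 2))) := by
        unfold th
        refine ENNReal.tsum_le_tsum fun v => ?_
        rw [← ENNReal.ofReal_mul (Real.exp_pos _).le, ← Real.exp_add]
        apply ENNReal.ofReal_le_ofReal
        apply Real.exp_le_exp.mpr
        have h1 := mul_le_mul_of_nonneg_left (qf_ge hz v) (mul_pos Real.pi_pos hu0).le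
        have h2 : Real.pi * u * (z.im / 2 * (v.1 : ℝ) ^ 2 + 1 / (2 * z.im) * (v.2 : ℝ) ^ 2) =
            X * (v.1 : ℝ) ^ 2 + Y * (v.2 : ℝ) ^ 2 := by
          rw [hXd, hYd]
          ring
        rw [h2] at h1
        linarith
    _ = (∑' m : ℤ, ENNReal.ofReal (Real.exp (-(X * (m : ℝ) ^ 2)))) *
        ∑' n : ℤ, ENNReal.ofReal (Real.exp (-(Y * (n : ℝ) ^ 2))) := by
        rw [ENNReal.tsum_prod', ← ENNReal.tsum_mul_right]
        refine tsum_congr fun m => ?_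
        dsimp only
        rw [ENNReal.tsum_mul_left]
    _ ≤ (1 + ENNReal.ofReal (K * X ^ (-A))) * (1 + ENNReal.ofReal (K * Y ^ (-A))) :=
        mul_le_mul' (hs X hX) (hs Y hY)
    _ = 1 + ENNReal.ofReal (K * X ^ (-A) + K * Y ^ (-A) + K * X ^ (-A) * (K * Y ^ (-A))) := by
        have hXA : 0 < X ^ (-A) := Real.rpow_pos_of_pos hX _
        have hYA : 0 < Y ^ (-A) := Real.rpow_pos_of_pos hY _
        rw [ENNReal.ofReal_add (by positivity) (by positivity),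
          ENNReal.ofReal_add (by positivity) (by positivity),
          ENNReal.ofReal_mul (p := K * X ^ (-A)) (by positivity)]
        ring
    _ ≤ _ := by
        have hXA : 0 < X ^ (-A) := Real.rpow_pos_of_pos hX _
        have hYA : 0 < Y ^ (-A) := Real.rpow_pos_of_pos hY _
        refine add_le_add le_rfl (ENNReal.ofReal_le_ofReal ?_)
        have h1 : K * X ^ (-A) ≤ K * (2 ^ A * (z.im / u) ^ A) := mul_le_mul_of_nonneg_left hXr hK.le
        have h2 : K * Y ^ (-A) ≤ K * (z.im / u) ^ A := mul_le_mul_of_nonneg_left hYr hK.le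
        have h3 : K * X ^ (-A) * (K * Y ^ (-A)) ≤ K * 2 ^ A * (K * (z.im / u) ^ A) :=
          mul_le_mul (mul_le_mul_of_nonneg_left hX1 hK.le) h2 (by positivity) (by positivity)
        nlinarith

theorem lintegral_fd_im {A : ℝ} (hA : A < 1) :
    ∫⁻ z in ModularGroup.fd, ENNReal.ofReal (z.im ^ A) < ∞ := by
  set S : Set ℍ := {z : ℍ | |z.re| ≤ 1 / 2 ∧ 1 / 4 < z.im} with hSd
  have hSm : MeasurableSet S := by
    apply MeasurableSet.inter
    · exact (isClosed_le (continuous_abs.comp continuous_re) continuous_const).measurableSet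
    · exact (isOpen_lt continuous_const continuous_im).measurableSet
  have hsub : ModularGroup.fd ⊆ S := by
    intro z hz
    have h1 := ModularGroup.three_le_four_mul_im_sq_of_mem_fd hz
    refine ⟨hz.2, ?_⟩
    by_contra hc
    push Not at hc
    have := z.im_pos
    nlinarith
  refine lt_of_le_of_lt (lintegral_mono_set hsub) ?_
  have hg : Measurable fun z : ℍ => (((1 / NNReal.mk z.im z.im_pos.le) ^ 2 : NNReal) : ℝ≥0∞) := by
    apply Measurable.coe_nnreal_ennreal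
    apply Measurable.pow_const
    apply Measurable.div measurable_const
    exact (continuous_im.subtype_mk _).measurable
  have hf : Measurable fun z : ℍ => ENNReal.ofReal (z.im ^ A) :=
    ENNReal.measurable_ofReal.comp (continuous_im.measurable.pow_const A)
  rw [UpperHalfPlane.volume_def, setLIntegral_withDensity_eq_setLIntegral_mul _ hg hf hSm]
  have hmp : MeasurePreserving UpperHalfPlane.coe
      ((volume : Measure ℂ).comap UpperHalfPlane.coe)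
      ((volume : Measure ℂ).restrict (Set.range UpperHalfPlane.coe)) :=
    ⟨measurable_coe, by rw [measurableEmbedding_coe.map_comap]⟩
  set F : ℝ → ℝ≥0∞ := fun y => ENNReal.ofReal (y ^ (A - 2)) with hFd
  have hFm : Measurable F := ENNReal.measurable_ofReal.comp (measurable_id.pow_const _)
  have h1 : ∫⁻ z in S, ((fun z : ℍ => (((1 / NNReal.mk z.im z.im_pos.le) ^ 2 : NNReal) : ℝ≥0∞)) *
      fun z : ℍ => ENNReal.ofReal (z.im ^ A)) z ∂((volume : Measure ℂ).comap UpperHalfPlane.coe) =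
      ∫⁻ z in S, F ((z : ℂ).im) ∂((volume : Measure ℂ).comap UpperHalfPlane.coe) := by
    refine setLIntegral_congr_fun hSm ?_
    intro z hz
    have hy := z.im_pos
    simp only [Pi.mul_apply, hFd, coe_im]
    rw [Real.rpow_sub hy, ← ENNReal.ofReal_coe_nnreal, ← ENNReal.ofReal_mul (NNReal.coe_nonneg _)]
    congr 1
    push_cast
    have : z.im ^ (2 : ℝ) = z.im ^ 2 := by norm_cast
    rw [this]
    show (1 / z.im) ^ 2 * z.im ^ A = z.im ^ A / z.im ^ 2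
    field_simp
  rw [h1, hmp.setLIntegral_comp_emb measurableEmbedding_coe (fun z : ℂ => F z.im)]
  refine lt_of_le_of_lt (lintegral_mono' (Measure.restrict_mono_measure
    Measure.restrict_le_self _) le_rfl) ?_
  have hsub2 : UpperHalfPlane.coe '' S ⊆ Complex.measurableEquivRealProd ⁻¹'
      (Set.Icc (-(1 / 2) : ℝ) (1 / 2) ×ˢ Set.Ioi (1 / 4 : ℝ)) := by
    rintro _ ⟨z, ⟨hz1, hz2⟩, rfl⟩
    have h4 := abs_le.mp hz1
    exact ⟨⟨h4.1, h4.2⟩, hz2⟩
  refine lt_of_le_of_lt (lintegral_mono_set hsub2) ?_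
  have h2 := Complex.volume_preserving_equiv_real_prod.setLIntegral_comp_preimage_emb
    Complex.measurableEquivRealProd.measurableEmbedding
    (fun p : ℝ × ℝ => F p.2)
    (Set.Icc (-(1 / 2) : ℝ) (1 / 2) ×ˢ Set.Ioi (1 / 4 : ℝ))
  have h3 : ∫⁻ z : ℂ in Complex.measurableEquivRealProd ⁻¹'
        (Set.Icc (-(1 / 2) : ℝ) (1 / 2) ×ˢ Set.Ioi (1 / 4 : ℝ)), F z.im =
      ∫⁻ p : ℝ × ℝ in (Set.Icc (-(1 / 2) : ℝ) (1 / 2) ×ˢ Set.Ioi (1 / 4 : ℝ)), F p.2 := by
    exact h2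
  rw [h3, Measure.volume_eq_prod, ← Measure.prod_restrict]
  have h4 := lintegral_prod_mul (μ := (volume.restrict (Set.Icc (-(1 / 2) : ℝ) (1 / 2))))
    (ν := (volume.restrict (Set.Ioi (1 / 4 : ℝ)))) (f := fun _ => (1 : ℝ≥0∞))
    (g := F) (by fun_prop) hFm.aemeasurable
  simp only [one_mul] at h4
  rw [h4]
  refine ENNReal.mul_lt_top (by simp) ?_
  have h5 : IntegrableOn (fun t : ℝ => t ^ (A - 2)) (Set.Ioi (1 / 4 : ℝ)) :=
    integrableOn_Ioi_rpow_of_lt (by linarith) (by norm_num)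
  have h6 := h5.2
  unfold HasFiniteIntegral at h6
  refine lt_of_le_of_lt (le_of_eq ?_) h6
  refine setLIntegral_congr_fun measurableSet_Ioi ?_
  intro t ht
  have ht0 : (0 : ℝ) < t := lt_trans (by norm_num) ht
  show ENNReal.ofReal (t ^ (A - 2)) = ‖t ^ (A - 2)‖ₑ
  rw [Real.enorm_eq_ofReal (Real.rpow_nonneg ht0.le _)]

end Pool.Agent.MaassRS74
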