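import Pool.Agent.W_7742m_h74.Wt

/-!
# The weight function, with invariant functions

As `Pool.Agent.Maass74.exists_weight` (file `Pool/Agent/W_7742m_h74/Wt.lean`), with
`w z = (1 / 2) ∑_q 1_𝒟 (q z)`, `q` through representatives of `SL(2, ℤ) ⧸ Γ₀(M)`.  If `H` is
invariant under `SL(2, ℤ)` then
`∫ w H = (1 / 2) ∑_q ∫ 1_𝒟 (q z) H (q z) = (1 / 2) (index) ∫_𝒟 H` (the measure is invariant).
-/

set_option autoImplicit false

noncomputable section

namespace Pool.Agent.MaassRS74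

open UpperHalfPlane MeasureTheory ENNReal CongruenceSubgroup
open scoped MatrixGroups

theorem WtB_lintegral (g : SL(2, ℤ)) (H : ℍ → ℝ≥0∞) (hH : Measurable H)
    (hinv : ∀ (g : SL(2, ℤ)) (z : ℍ), H (g • z) = H z) :
    ∫⁻ z : ℍ, ModularGroup.fd.indicator (fun _ => (1 : ℝ≥0∞)) (g • z) * H z =
      ∫⁻ z in ModularGroup.fd, H z := by
  have hmp : MeasurePreserving (fun z : ℍ => (g : GL (Fin 2) ℝ) • z) volume volume :=
    measurePreserving_smul _ _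
  have hm : Measurable (fun z : ℍ => ModularGroup.fd.indicator (fun _ : ℍ => (1 : ℝ≥0∞)) z * H z) :=
    (measurable_const.indicator ModularGroup.isClosed_fd.measurableSet).mul hH
  have h1 := hmp.lintegral_comp hm
  have h2 : ∫⁻ z : ℍ, ModularGroup.fd.indicator (fun _ : ℍ => (1 : ℝ≥0∞)) z * H z =
      ∫⁻ z in ModularGroup.fd, H z := by
    rw [← lintegral_indicator ModularGroup.isClosed_fd.measurableSet]
    refine lintegral_congr fun z => ?_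
    by_cases hz : z ∈ ModularGroup.fd
    · rw [Set.indicator_of_mem hz, Set.indicator_of_mem hz, one_mul]
    · rw [Set.indicator_of_notMem hz, Set.indicator_of_notMem hz, zero_mul]
  rw [← h2, ← h1]
  refine lintegral_congr fun z => ?_
  show ModularGroup.fd.indicator (fun _ => (1 : ℝ≥0∞)) (g • z) * H z =
    ModularGroup.fd.indicator (fun _ => (1 : ℝ≥0∞)) (g • z) * H (g • z)
  rw [hinv]

theorem exists_weightB (M : ℕ) [NeZero M] : ∃ w : ℍ → ℝ≥0∞, Measurable w ∧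
    (∀ᵐ z : ℍ, ∑' γ : Gamma0 M, w ((γ : SL(2, ℤ)) • z) = 1) ∧
    ∃ C : ℝ≥0∞, C ≠ ∞ ∧ ∀ H : ℍ → ℝ≥0∞, Measurable H → (∀ (g : SL(2, ℤ)) (z : ℍ), H (g • z) = H z) →
      ∫⁻ z, w z * H z ≤ C * ∫⁻ z in ModularGroup.fd, H z := by
  classical
  have hfin : Finite (SL(2, ℤ) ⧸ Gamma0 M) := inferInstance
  let hft : Fintype (SL(2, ℤ) ⧸ Gamma0 M) := Fintype.ofFinite _
  have hm1 : Measurable (ModularGroup.fd.indicator (fun _ : ℍ => (1 : ℝ≥0∞))) :=
    measurable_const.indicator ModularGroup.isClosed_fd.measurableSet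
  have hm2 : ∀ g : SL(2, ℤ),
      Measurable (fun z : ℍ => ModularGroup.fd.indicator (fun _ => (1 : ℝ≥0∞)) (g • z)) :=
    fun g => hm1.comp (Pool.Agent.Maass74.continuous_sl_smul g).measurable
  refine ⟨fun z => (2 : ℝ≥0∞)⁻¹ * ∑ q : SL(2, ℤ) ⧸ Gamma0 M,
    ModularGroup.fd.indicator (fun _ => (1 : ℝ≥0∞)) (q.out • z), ?_, ?_,
    (2 : ℝ≥0∞)⁻¹ * (Fintype.card (SL(2, ℤ) ⧸ Gamma0 M) : ℝ≥0∞), ?_, ?_⟩
  · exact (Finset.measurable_fun_sum _ fun q _ => hm2 q.out).const_mul _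
  · filter_upwards [Pool.Agent.Maass74.ae_count] with z hz
    rw [ENNReal.tsum_mul_left]
    have h1 : ∑' γ : Gamma0 M, ∑ q : SL(2, ℤ) ⧸ Gamma0 M,
        ModularGroup.fd.indicator (fun _ => (1 : ℝ≥0∞)) (q.out • (γ : SL(2, ℤ)) • z) =
        ∑' g : SL(2, ℤ), ModularGroup.fd.indicator (fun _ => (1 : ℝ≥0∞)) (g • z) := by
      have h2 : ∑' x : (SL(2, ℤ) ⧸ Gamma0 M) × Gamma0 M,
          ModularGroup.fd.indicator (fun _ => (1 : ℝ≥0∞)) ((x.1.out * (x.2 : SL(2, ℤ))) • z) =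
          ∑' g : SL(2, ℤ), ModularGroup.fd.indicator (fun _ => (1 : ℝ≥0∞)) (g • z) :=
        (Equiv.ofBijective _ (Pool.Agent.Maass74.coset_bij (Gamma0 M))).tsum_eq
          (fun g : SL(2, ℤ) => ModularGroup.fd.indicator (fun _ => (1 : ℝ≥0∞)) (g • z))
      have h3 : ∑' x : (SL(2, ℤ) ⧸ Gamma0 M) × Gamma0 M,
          ModularGroup.fd.indicator (fun _ => (1 : ℝ≥0∞)) ((x.1.out * (x.2 : SL(2, ℤ))) • z) =
          ∑' (q : SL(2, ℤ) ⧸ Gamma0 M) (γ : Gamma0 M),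
            ModularGroup.fd.indicator (fun _ => (1 : ℝ≥0∞)) ((q.out * (γ : SL(2, ℤ))) • z) :=
        ENNReal.tsum_prod (f := fun (q : SL(2, ℤ) ⧸ Gamma0 M) (γ : Gamma0 M) =>
          ModularGroup.fd.indicator (fun _ => (1 : ℝ≥0∞)) ((q.out * (γ : SL(2, ℤ))) • z))
      rw [← h2, h3, ENNReal.tsum_comm]
      refine tsum_congr fun γ => ?_
      rw [tsum_fintype]
      refine Finset.sum_congr rfl fun q _ => ?_
      rw [mul_smul]
    rw [h1, hz]
    exact ENNReal.inv_mul_cancel (by simp) (by simp)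
  · exact ENNReal.mul_ne_top (by simp) (ENNReal.natCast_ne_top _)
  · intro H hH hinv
    have h1 : ∀ z : ℍ, (2 : ℝ≥0∞)⁻¹ * (∑ q : SL(2, ℤ) ⧸ Gamma0 M,
        ModularGroup.fd.indicator (fun _ => (1 : ℝ≥0∞)) (q.out • z)) * H z =
        (2 : ℝ≥0∞)⁻¹ * ∑ q : SL(2, ℤ) ⧸ Gamma0 M,
          (ModularGroup.fd.indicator (fun _ => (1 : ℝ≥0∞)) (q.out • z) * H z) := fun z => by
      rw [mul_assoc, Finset.sum_mul]
    have h2 : ∀ q : SL(2, ℤ) ⧸ Gamma0 M, Measurable (fun z : ℍ =>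
        ModularGroup.fd.indicator (fun _ => (1 : ℝ≥0∞)) (q.out • z) * H z) :=
      fun q => (hm2 q.out).mul hH
    show ∫⁻ z, (2 : ℝ≥0∞)⁻¹ * (∑ q : SL(2, ℤ) ⧸ Gamma0 M,
        ModularGroup.fd.indicator (fun _ => (1 : ℝ≥0∞)) (q.out • z)) * H z ≤ _
    simp_rw [h1]
    rw [lintegral_const_mul _ (Finset.measurable_fun_sum _ fun q _ => h2 q),
      lintegral_finsetSum _ (fun q _ => h2 q)]
    simp_rw [WtB_lintegral _ H hH hinv]
    rw [Finset.sum_const, nsmul_eq_mul, mul_assoc, Finset.card_univ]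

end Pool.Agent.MaassRS74
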