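import Pool.Agent.W_7742r_h74.UnfB
import Pool.Agent.W_7742r_h74.Mob
import Pool.Agent.W_7742r_h74.ThC
import Pool.Agent.W_7742r_h74.WtB

/-!
# The behaviour of the theta integral for `t → 0`

Let `w` be the weight function, `V = ∫ w G < ∞` and `J e u = ∫ w G th u (sc e ·)` for `e ≥ 1`.

* `J_inv`: `J e u = u⁻¹ J e u⁻¹` for `u > 0` (`th_inv`).
* `J_bound`: for `1 / 2 < A < 1` there is `C` with `V ≤ J e u ≤ V + C u ^ (-A)` for `u ≥ e`:
  the lower bound is `one_le_th`.  For the upper bound `th u (sc e z) ≤ th (u / e) z`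
  (`th_sc_le`), the function `H z = th (u / e) z - 1` is invariant (`th_smul`), and
  `∫ w G H ≤ (sup G) ∫ w H ≤ C' ∫_𝒟 H ≤ C'' ∫_𝒟 (e Im z / u) ^ A` (`exists_weightB`, `th_bound`,
  `lintegral_fd_im`).
* `uth_asymp`: `uth M G t + [M = 1] V = ∑_{d ∣ M} μ(d) J (M / d) (t M d)` for `t > 0` (`unfolding`,
  `thN_eq`; in real numbers, everything is finite), and
  `J (M / d) (t M d) = (t M d)⁻¹ J (M / d) ((t M d)⁻¹) = (t M d)⁻¹ (V + O ((t M d) ^ A))` for
  `t → 0`, so `c = (V / M) ∑_{d ∣ M} μ(d) / d` and `V' = [M = 1] V`.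
* `uth_lt_top`: it is bounded by `∫ w G thN ≤ ∫ w G th t < ∞` (`J_inv`, `J_bound` or directly).
-/

set_option autoImplicit false

noncomputable section

namespace Pool.Agent.MaassRS74

open UpperHalfPlane ENNReal MeasureTheory CongruenceSubgroup Filter Topology Asymptotics
open scoped MatrixGroups

/-- The integral of `w G` against the theta function at `e z`. -/
def Jint (w : ℍ → ℝ≥0∞) (G : ℍ → ℝ) (e : ℕ) (u : ℝ) : ℝ≥0∞ :=
  ∫⁻ z, w z * (ENNReal.ofReal (G z) * th u (sc e z))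

theorem Asy_sc_one (z : ℍ) : sc 1 z = z := by
  unfold sc
  rw [Nat.cast_one, one_mul, ofComplex_apply]

theorem Asy_thN_le (M : ℕ) (t : ℝ) (z : ℍ) : thN M t z ≤ th t z := by
  unfold thN th
  refine ENNReal.tsum_le_tsum fun v => ?_
  split_ifs
  · exact le_rfl
  · exact bot_le

theorem Asy_lower (w : ℍ → ℝ≥0∞) (G : ℍ → ℝ) (e : ℕ) (u : ℝ) :
    ∫⁻ z, w z * ENNReal.ofReal (G z) ≤ Jint w G e u := by
  unfold Jint
  refine lintegral_mono fun z => ?_
  exact mul_le_mul_right (le_mul_of_one_le_right (bot_le : (0 : ℝ≥0∞) ≤ _) (one_le_th u _)) _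

theorem Asy_meas {w : ℍ → ℝ≥0∞} (hw : Measurable w) {G : ℍ → ℝ} (hG : Continuous G) (e : ℕ) (u : ℝ) :
    Measurable fun z => w z * (ENNReal.ofReal (G z) * th u (sc e z)) :=
  hw.mul (hG.measurable.ennreal_ofReal.mul ((measurable_th u).comp (measurable_sc e)))

theorem J_inv (w : ℍ → ℝ≥0∞) (G : ℍ → ℝ) (e : ℕ) {u : ℝ} (hu : 0 < u) :
    Jint w G e u = ENNReal.ofReal u⁻¹ * Jint w G e u⁻¹ := by
  unfold Jint
  rw [← lintegral_const_mul' _ _ ENNReal.ofReal_ne_top]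
  refine lintegral_congr fun z => ?_
  rw [th_inv hu]
  ring

theorem J_bound {M : ℕ} [NeZero M] {G : ℍ → ℝ} (hG : Continuous G) (h0 : ∀ z, 0 ≤ G z)
    {B : ℝ} (hB : ∀ z, G z ≤ B) {w : ℍ → ℝ≥0∞} (hw : Measurable w) {C₀ : ℝ≥0∞} (hC₀ : C₀ ≠ ∞)
    (hwC : ∀ H : ℍ → ℝ≥0∞, Measurable H → (∀ (g : SL(2, ℤ)) (z : ℍ), H (g • z) = H z) →
      ∫⁻ z, w z * H z ≤ C₀ * ∫⁻ z in ModularGroup.fd, H z) {e : ℕ} (he : 0 < e)
    {A : ℝ} (hA : 1 / 2 < A) (hA1 : A < 1) :
    ∃ C : ℝ, 0 < C ∧ ∀ u : ℝ, (e : ℝ) ≤ u →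
      ∫⁻ z, w z * ENNReal.ofReal (G z) ≤ Jint w G e u ∧
      Jint w G e u ≤ (∫⁻ z, w z * ENNReal.ofReal (G z)) + ENNReal.ofReal (C * u ^ (-A)) := by
  obtain ⟨C1, hC1, hth⟩ := th_bound hA
  have hK := lintegral_fd_im hA1
  obtain ⟨K, hKdef⟩ : ∃ K : ℝ≥0∞, K = ∫⁻ z in ModularGroup.fd, ENNReal.ofReal (z.im ^ A) := ⟨_, rfl⟩
  rw [← hKdef] at hK
  have hB0 : 0 ≤ B := (h0 UpperHalfPlane.I).trans (hB UpperHalfPlane.I)
  have he' : (0 : ℝ) < e := by exact_mod_cast he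
  have hc0 : 0 ≤ C₀.toReal := ENNReal.toReal_nonneg
  have hk0 : 0 ≤ K.toReal := ENNReal.toReal_nonneg
  refine ⟨B * (C₀.toReal * (C1 * (e : ℝ) ^ A * K.toReal)) + 1, by positivity, fun u hu =>
    ⟨Asy_lower w G e u, ?_⟩⟩
  have hu0 : 0 < u := he'.trans_le hu
  have hue : 1 ≤ u / e := by rwa [one_le_div he']
  obtain ⟨H, hHdef⟩ : ∃ H : ℍ → ℝ≥0∞, H = fun z => th (u / e) z - 1 := ⟨_, rfl⟩
  have hHm : Measurable H := by
    rw [hHdef]
    exact (measurable_th _).sub_const 1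
  have hHinv : ∀ (g : SL(2, ℤ)) (z : ℍ), H (g • z) = H z := fun g z => by
    rw [hHdef]
    simp only [th_smul]
  have hH : ∀ z, th u (sc e z) ≤ 1 + H z := fun z => by
    have h1 : 1 + H z = th (u / e) z := by
      rw [hHdef]
      exact add_tsub_cancel_of_le (one_le_th _ z)
    rw [h1]
    exact th_sc_le he u z
  have h1 : Jint w G e u ≤
      ∫⁻ z, (w z * ENNReal.ofReal (G z) + ENNReal.ofReal B * (w z * H z)) := by
    unfold Jint
    refine lintegral_mono fun z => ?_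
    calc w z * (ENNReal.ofReal (G z) * th u (sc e z))
        ≤ w z * (ENNReal.ofReal (G z) * (1 + H z)) := by
          gcongr
          exact hH z
      _ = w z * ENNReal.ofReal (G z) + ENNReal.ofReal (G z) * (w z * H z) := by ring
      _ ≤ w z * ENNReal.ofReal (G z) + ENNReal.ofReal B * (w z * H z) := by
          gcongr
          exact hB z
  have hm : Measurable (fun z => w z * ENNReal.ofReal (G z)) := hw.mul hG.measurable.ennreal_ofReal
  rw [lintegral_add_left hm, lintegral_const_mul' _ _ ENNReal.ofReal_ne_top] at h1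
  have h3 : ∫⁻ z in ModularGroup.fd, H z ≤ ENNReal.ofReal (C1 * ((e : ℝ) ^ A * u ^ (-A))) * K := by
    rw [hKdef, ← lintegral_const_mul' _ _ ENNReal.ofReal_ne_top]
    refine setLIntegral_mono' ModularGroup.isClosed_fd.measurableSet fun z hz => ?_
    have h4 : H z ≤ ENNReal.ofReal (C1 * (z.im / (u / e)) ^ A) := by
      rw [hHdef]
      exact tsub_le_iff_left.2 (hth (u / e) hue z hz)
    refine h4.trans (le_of_eq ?_)
    have h5 : z.im / (u / e) = z.im * (e / u) := by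
      field_simp
    rw [h5, Real.mul_rpow z.im_pos.le (by positivity), Real.div_rpow he'.le hu0.le,
      Real.rpow_neg hu0.le, ← ENNReal.ofReal_mul (by positivity)]
    congr 1
    ring
  refine h1.trans (add_le_add le_rfl ?_)
  calc ENNReal.ofReal B * ∫⁻ z, w z * H z
      ≤ ENNReal.ofReal B * (C₀ * (ENNReal.ofReal (C1 * ((e : ℝ) ^ A * u ^ (-A))) * K)) := by
        gcongr
        exact (hwC H hHm hHinv).trans (by gcongr)
    _ = ENNReal.ofReal (B * (C₀.toReal * (C1 * ((e : ℝ) ^ A * u ^ (-A)) * K.toReal))) := by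
        conv_lhs => rw [← ENNReal.ofReal_toReal hC₀, ← ENNReal.ofReal_toReal hK.ne]
        rw [← ENNReal.ofReal_mul (by positivity), ← ENNReal.ofReal_mul hc0,
          ← ENNReal.ofReal_mul hB0]
    _ ≤ _ := by
        apply ENNReal.ofReal_le_ofReal
        have h6 : 0 < u ^ (-A) := Real.rpow_pos_of_pos hu0 _
        nlinarith

/-- The volume of the weighted function is finite. -/
theorem Asy_V_lt_top {G : ℍ → ℝ} {B : ℝ} (hB : ∀ z, G z ≤ B) {w : ℍ → ℝ≥0∞} {C₀ : ℝ≥0∞}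
    (hC₀ : C₀ ≠ ∞)
    (hwC : ∀ H : ℍ → ℝ≥0∞, Measurable H → (∀ (g : SL(2, ℤ)) (z : ℍ), H (g • z) = H z) →
      ∫⁻ z, w z * H z ≤ C₀ * ∫⁻ z in ModularGroup.fd, H z) :
    ∫⁻ z, w z * ENNReal.ofReal (G z) < ∞ := by
  have h1 : ∫⁻ z, w z * ENNReal.ofReal (G z) ≤ ENNReal.ofReal B * ∫⁻ z, w z * 1 := by
    rw [← lintegral_const_mul' _ _ ENNReal.ofReal_ne_top]
    refine lintegral_mono fun z => ?_
    rw [mul_one, mul_comm]
    gcongr
    exact hB z
  have h2 := hwC (fun _ => 1) measurable_const (fun _ _ => rfl)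
  have h3 : ∫⁻ z in ModularGroup.fd, (1 : ℝ≥0∞) < ∞ := by
    have h4 := lintegral_fd_im (A := 0) one_pos
    simpa using h4
  refine h1.trans_lt (ENNReal.mul_lt_top ENNReal.ofReal_lt_top (h2.trans_lt ?_))
  exact ENNReal.mul_lt_top hC₀.lt_top h3

/-- All theta integrals are finite. -/
theorem Asy_J_lt_top {M : ℕ} [NeZero M] {G : ℍ → ℝ} (hG : Continuous G) (h0 : ∀ z, 0 ≤ G z)
    {B : ℝ} (hB : ∀ z, G z ≤ B) {w : ℍ → ℝ≥0∞} (hw : Measurable w) {C₀ : ℝ≥0∞} (hC₀ : C₀ ≠ ∞)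
    (hwC : ∀ H : ℍ → ℝ≥0∞, Measurable H → (∀ (g : SL(2, ℤ)) (z : ℍ), H (g • z) = H z) →
      ∫⁻ z, w z * H z ≤ C₀ * ∫⁻ z in ModularGroup.fd, H z) {e : ℕ} (he : 0 < e)
    {u : ℝ} (hu : 0 < u) : Jint w G e u < ∞ := by
  have he' : (0 : ℝ) < e := by exact_mod_cast he
  have h1 : Jint w G e u ≤ Jint w G 1 (u / e) := by
    unfold Jint
    refine lintegral_mono fun z => ?_
    gcongr
    rw [Asy_sc_one]
    exact th_sc_le he u z
  refine h1.trans_lt ?_
  have hV := Asy_V_lt_top (w := w) hB hC₀ hwC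
  obtain ⟨C, hC, hJ⟩ := J_bound (M := M) hG h0 hB hw hC₀ hwC (e := 1) one_pos
    (A := 3 / 4) (by norm_num) (by norm_num)
  have h2 : ∀ v : ℝ, 1 ≤ v → Jint w G 1 v < ∞ := fun v hv =>
    ((hJ v (by simpa using hv)).2).trans_lt (ENNReal.add_lt_top.2 ⟨hV, ENNReal.ofReal_lt_top⟩)
  have hv0 : 0 < u / e := by positivity
  rcases le_or_gt 1 (u / e) with hv | hv
  · exact h2 _ hv
  · rw [J_inv w G 1 hv0]
    exact ENNReal.mul_lt_top ENNReal.ofReal_lt_top (h2 _ ((one_le_inv₀ hv0).2 hv.le))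

theorem Asy_thN_int_le (w : ℍ → ℝ≥0∞) (G : ℍ → ℝ) (M : ℕ) (t : ℝ) :
    ∫⁻ z, w z * (ENNReal.ofReal (G z) * thN M t z) ≤ Jint w G 1 t := by
  unfold Jint
  refine lintegral_mono fun z => ?_
  gcongr
  rw [Asy_sc_one]
  exact Asy_thN_le M t z

theorem uth_lt_top {M : ℕ} [NeZero M] {G : ℍ → ℝ} (hG : Continuous G) (h0 : ∀ z, 0 ≤ G z)
    (hb : ∃ B : ℝ, ∀ z, G z ≤ B) (hinv : ∀ γ ∈ Gamma0 M, ∀ z : ℍ, G (γ • z) = G z) {t : ℝ}
    (ht : 0 < t) : uth M G t < ∞ := by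
  obtain ⟨B, hB⟩ := hb
  obtain ⟨w, hw, hw1, C₀, hC₀, hwC⟩ := exists_weightB M
  have hM : 0 < M := Nat.pos_of_ne_zero (NeZero.ne M)
  have h1 := unfolding hM hG h0 hinv hw hw1 t
  have h2 : uth M G t ≤ ∫⁻ z, w z * (ENNReal.ofReal (G z) * thN M t z) := by
    rw [h1]
    exact (le_add_self : uth M G t ≤ _ + uth M G t)
  exact (h2.trans (Asy_thN_int_le w G M t)).trans_lt
    (Asy_J_lt_top (M := M) hG h0 hB hw hC₀ hwC one_pos ht)

/-- The theta integral of level `M` in real numbers. -/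
theorem Asy_eq {M : ℕ} [NeZero M] {G : ℍ → ℝ} (hG : Continuous G) (h0 : ∀ z, 0 ≤ G z)
    {B : ℝ} (hB : ∀ z, G z ≤ B) (hinv : ∀ γ ∈ Gamma0 M, ∀ z : ℍ, G (γ • z) = G z)
    {w : ℍ → ℝ≥0∞} (hw : Measurable w)
    (hw1 : ∀ᵐ z : ℍ, ∑' γ : Gamma0 M, w ((γ : SL(2, ℤ)) • z) = 1) {C₀ : ℝ≥0∞} (hC₀ : C₀ ≠ ∞)
    (hwC : ∀ H : ℍ → ℝ≥0∞, Measurable H → (∀ (g : SL(2, ℤ)) (z : ℍ), H (g • z) = H z) →
      ∫⁻ z, w z * H z ≤ C₀ * ∫⁻ z in ModularGroup.fd, H z) {t : ℝ} (ht : 0 < t) :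
    (uth M G t).toReal + (if M = 1 then 1 else 0) * (∫⁻ z, w z * ENNReal.ofReal (G z)).toReal =
      ∑ d ∈ M.divisors, (ArithmeticFunction.moebius d : ℝ) *
        (Jint w G (M / d) (t * M * d)).toReal := by
  have hM : 0 < M := Nat.pos_of_ne_zero (NeZero.ne M)
  have hM' : (0 : ℝ) < M := by exact_mod_cast hM
  have hV := Asy_V_lt_top (w := w) hB hC₀ hwC
  have h1 := unfolding hM hG h0 hinv hw hw1 t
  have hfin : ∫⁻ z, w z * (ENNReal.ofReal (G z) * thN M t z) < ∞ :=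
    (Asy_thN_int_le w G M t).trans_lt (Asy_J_lt_top (M := M) hG h0 hB hw hC₀ hwC one_pos ht)
  have hd : ∀ d ∈ M.divisors, 0 < d ∧ 0 < M / d := by
    intro d hd
    have h2 := Nat.dvd_of_mem_divisors hd
    exact ⟨Nat.pos_of_dvd_of_pos h2 hM, Nat.div_pos (Nat.le_of_dvd hM h2)
      (Nat.pos_of_dvd_of_pos h2 hM)⟩
  have hJ : ∀ d ∈ M.divisors, Jint w G (M / d) (t * M * d) < ∞ := by
    intro d hd'
    obtain ⟨h2, h3⟩ := hd d hd'
    have h4 : (0 : ℝ) < d := by exact_mod_cast h2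
    exact Asy_J_lt_top (M := M) hG h0 hB hw hC₀ hwC h3 (by positivity)
  have hthN : ∀ z, thN M t z = ENNReal.ofReal (∑ d ∈ M.divisors, (ArithmeticFunction.moebius d : ℝ) *
      (th (t * M * d) (sc (M / d) z)).toReal) := by
    intro z
    rw [← thN_eq hM ht z, ENNReal.ofReal_toReal]
    exact ((Asy_thN_le M t z).trans_lt (th_lt_top ht z)).ne
  have hmN : Measurable (thN M t) := by
    have h2 : thN M t = fun z => ENNReal.ofReal (∑ d ∈ M.divisors,
        (ArithmeticFunction.moebius d : ℝ) * (th (t * M * d) (sc (M / d) z)).toReal) :=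
      funext hthN
    rw [h2]
    refine Measurable.ennreal_ofReal ?_
    refine Finset.measurable_sum _ fun d _ => ?_
    exact (((measurable_th _).comp (measurable_sc _)).ennreal_toReal).const_mul _
  have hmF : Measurable fun z => w z * (ENNReal.ofReal (G z) * thN M t z) :=
    hw.mul (hG.measurable.ennreal_ofReal.mul hmN)
  have h2 : (∫⁻ z, w z * (ENNReal.ofReal (G z) * thN M t z)).toReal =
      ∑ d ∈ M.divisors, (ArithmeticFunction.moebius d : ℝ) *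
        (Jint w G (M / d) (t * M * d)).toReal := by
    rw [← integral_toReal hmF.aemeasurable (ae_lt_top hmF hfin.ne)]
    have h3 : ∀ z : ℍ, (w z * (ENNReal.ofReal (G z) * thN M t z)).toReal =
        ∑ d ∈ M.divisors, (ArithmeticFunction.moebius d : ℝ) *
          (w z * (ENNReal.ofReal (G z) * th (t * M * d) (sc (M / d) z))).toReal := by
      intro z
      rw [ENNReal.toReal_mul, ENNReal.toReal_mul, thN_eq hM ht z, Finset.mul_sum, Finset.mul_sum]
      refine Finset.sum_congr rfl fun d _ => ?_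
      rw [ENNReal.toReal_mul, ENNReal.toReal_mul]
      ring
    simp_rw [h3]
    rw [integral_finset_sum]
    · refine Finset.sum_congr rfl fun d hd' => ?_
      rw [integral_const_mul]
      congr 1
      rw [integral_toReal (Asy_meas hw hG _ _).aemeasurable
        (ae_lt_top (Asy_meas hw hG _ _) (hJ d hd').ne)]
      rfl
    · intro d hd'
      exact (integrable_toReal_of_lintegral_ne_top (Asy_meas hw hG _ _).aemeasurable
        (hJ d hd').ne).const_mul _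
  rw [← h2, h1]
  have hne : ((if M = 1 then (1 : ℝ≥0∞) else 0) * ∫⁻ z, w z * ENNReal.ofReal (G z)) ≠ ∞ := by
    split_ifs
    · rw [one_mul]
      exact hV.ne
    · rw [zero_mul]
      exact ENNReal.zero_ne_top
  have hu : uth M G t ≠ ∞ := by
    rw [h1] at hfin
    exact (ENNReal.add_lt_top.1 hfin).2.ne
  rw [ENNReal.toReal_add hne hu, ENNReal.toReal_mul]
  split_ifs <;> simp [add_comm]

theorem uth_asymp {M : ℕ} [NeZero M] {G : ℍ → ℝ} (hG : Continuous G) (h0 : ∀ z, 0 ≤ G z)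
    (hb : ∃ B : ℝ, ∀ z, G z ≤ B) (hinv : ∀ γ ∈ Gamma0 M, ∀ z : ℍ, G (γ • z) = G z) :
    ∃ c V' : ℝ, ∀ A : ℝ, 1 / 2 < A → A < 1 →
      (fun t : ℝ => (uth M G t).toReal - c / t + V') =O[𝓝[>] 0] fun t : ℝ => t ^ (A - 1) := by
  obtain ⟨B, hB⟩ := hb
  obtain ⟨w, hw, hw1, C₀, hC₀, hwC⟩ := exists_weightB M
  have hM : 0 < M := Nat.pos_of_ne_zero (NeZero.ne M)
  have hM' : (0 : ℝ) < M := by exact_mod_cast hM
  have hV := Asy_V_lt_top (w := w) hB hC₀ hwC
  obtain ⟨V, hVdef⟩ : ∃ V : ℝ≥0∞, V = ∫⁻ z, w z * ENNReal.ofReal (G z) := ⟨_, rfl⟩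
  rw [← hVdef] at hV
  have hd : ∀ d ∈ M.divisors, 0 < d ∧ 0 < M / d := by
    intro d hd
    have h2 := Nat.dvd_of_mem_divisors hd
    exact ⟨Nat.pos_of_dvd_of_pos h2 hM, Nat.div_pos (Nat.le_of_dvd hM h2)
      (Nat.pos_of_dvd_of_pos h2 hM)⟩
  refine ⟨∑ d ∈ M.divisors, (ArithmeticFunction.moebius d : ℝ) * (V.toReal / (M * d)),
    (if M = 1 then 1 else 0) * V.toReal, fun A hA hA1 => ?_⟩
  have hex : ∀ d : ℕ, ∃ C : ℝ, 0 < C ∧ (d ∈ M.divisors → ∀ u : ℝ, ((M / d : ℕ) : ℝ) ≤ u →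
      V ≤ Jint w G (M / d) u ∧ Jint w G (M / d) u ≤ V + ENNReal.ofReal (C * u ^ (-A))) := by
    intro d
    by_cases hd' : d ∈ M.divisors
    · obtain ⟨C, hC, h⟩ := J_bound (M := M) hG h0 hB hw hC₀ hwC (hd d hd').2 hA hA1
      refine ⟨C, hC, fun _ u hu => ?_⟩
      rw [hVdef]
      exact h u hu
    · exact ⟨1, one_pos, fun h => absurd h hd'⟩
  choose C hC hJ using hex
  refine IsBigO.of_bound (∑ d ∈ M.divisors, |(ArithmeticFunction.moebius d : ℝ)| *
    (C d * ((M : ℝ) * d) ^ (A - 1))) ?_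
  have hev : ∀ᶠ t : ℝ in 𝓝[>] 0, 0 < t ∧ t < 1 / (M : ℝ) ^ 3 := by
    have h1 : Set.Ioo (0 : ℝ) (1 / (M : ℝ) ^ 3) ∈ 𝓝[>] (0 : ℝ) :=
      Ioo_mem_nhdsGT (by positivity)
    exact h1
  filter_upwards [hev] with t ht
  obtain ⟨ht0, ht1⟩ := ht
  have hE := Asy_eq hG h0 hB hinv hw hw1 hC₀ hwC ht0
  rw [← hVdef] at hE
  have hterm : ∀ d ∈ M.divisors,
      |(Jint w G (M / d) (t * M * d)).toReal - V.toReal / (M * d) / t| ≤
        C d * ((M : ℝ) * d) ^ (A - 1) * t ^ (A - 1) := by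
    intro d hd'
    obtain ⟨h2, h3⟩ := hd d hd'
    have h4 : (0 : ℝ) < d := by exact_mod_cast h2
    have hu0 : 0 < t * M * d := by positivity
    have hdM : (d : ℝ) ≤ M := by
      exact_mod_cast Nat.le_of_dvd hM (Nat.dvd_of_mem_divisors hd')
    have hge : ((M / d : ℕ) : ℝ) ≤ (t * M * d)⁻¹ := by
      have h5 : ((M / d : ℕ) : ℝ) ≤ M := by exact_mod_cast Nat.div_le_self M d
      refine h5.trans ?_
      rw [le_inv_comm₀ hM' hu0]
      have h6 : t * (M : ℝ) ^ 3 < 1 := by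
        rwa [lt_div_iff₀ (by positivity)] at ht1
      rw [inv_eq_one_div, le_div_iff₀ hM']
      nlinarith [mul_le_mul_of_nonneg_left hdM (by positivity : (0 : ℝ) ≤ t * M * M)]
    obtain ⟨h7, h8⟩ := hJ d hd' _ hge
    have hpw : ((t * M * d)⁻¹) ^ (-A) = (t * M * d) ^ A := by
      rw [Real.inv_rpow hu0.le, Real.rpow_neg hu0.le, inv_inv]
    rw [hpw] at h8
    have hJf : Jint w G (M / d) (t * M * d)⁻¹ ≠ ∞ :=
      (h8.trans_lt (ENNReal.add_lt_top.2 ⟨hV, ENNReal.ofReal_lt_top⟩)).ne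
    have h9 : V.toReal ≤ (Jint w G (M / d) (t * M * d)⁻¹).toReal :=
      ENNReal.toReal_mono hJf h7
    have hnn : 0 ≤ C d * (t * M * d) ^ A := by
      have := hC d
      positivity
    have h10 : (Jint w G (M / d) (t * M * d)⁻¹).toReal ≤ V.toReal + C d * (t * M * d) ^ A := by
      have h11 := ENNReal.toReal_mono (ENNReal.add_lt_top.2 ⟨hV, ENNReal.ofReal_lt_top⟩).ne h8
      rwa [ENNReal.toReal_add hV.ne ENNReal.ofReal_ne_top, ENNReal.toReal_ofReal hnn] at h11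
    rw [J_inv w G (M / d) hu0, ENNReal.toReal_mul, ENNReal.toReal_ofReal (by positivity)]
    have h12 : (t * M * d)⁻¹ * (Jint w G (M / d) (t * M * d)⁻¹).toReal - V.toReal / (M * d) / t =
        (t * M * d)⁻¹ * ((Jint w G (M / d) (t * M * d)⁻¹).toReal - V.toReal) := by
      field_simp
    rw [h12, abs_of_nonneg (mul_nonneg (by positivity) (by linarith))]
    calc (t * M * d)⁻¹ * ((Jint w G (M / d) (t * M * d)⁻¹).toReal - V.toReal)
        ≤ (t * M * d)⁻¹ * (C d * (t * M * d) ^ A) := by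
          gcongr
          linarith
      _ = C d * (t * M * d) ^ (A - 1) := by
          rw [Real.rpow_sub hu0, Real.rpow_one]
          field_simp
      _ = C d * ((M : ℝ) * d) ^ (A - 1) * t ^ (A - 1) := by
          rw [show t * M * d = (M * d) * t by ring, Real.mul_rpow (by positivity) ht0.le]
          ring
  have hsum : (uth M G t).toReal - (∑ d ∈ M.divisors, (ArithmeticFunction.moebius d : ℝ) *
      (V.toReal / (M * d))) / t + (if M = 1 then 1 else 0) * V.toReal =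
      ∑ d ∈ M.divisors, (ArithmeticFunction.moebius d : ℝ) *
        ((Jint w G (M / d) (t * M * d)).toReal - V.toReal / (M * d) / t) := by
    simp_rw [mul_sub, Finset.sum_sub_distrib]
    rw [← hE, Finset.sum_div]
    have h13 : ∀ d : ℕ, (ArithmeticFunction.moebius d : ℝ) * (V.toReal / (M * d)) / t =
        (ArithmeticFunction.moebius d : ℝ) * (V.toReal / (M * d) / t) := fun d => by ring
    simp_rw [h13]
    ring
  rw [hsum, Real.norm_eq_abs, Real.norm_eq_abs, abs_of_nonneg (Real.rpow_nonneg ht0.le _),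
    Finset.sum_mul]
  refine (Finset.abs_sum_le_sum_abs _ _).trans (Finset.sum_le_sum fun d hd' => ?_)
  rw [abs_mul, mul_assoc |(ArithmeticFunction.moebius d : ℝ)|]
  exact mul_le_mul_of_nonneg_left (hterm d hd') (abs_nonneg _)

end Pool.Agent.MaassRS74
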