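import Pool.Agent.W_7742r_h74.Defs
import Pool.Agent.W_7742m_h74.OdeB

/-!
# The Bessel function `K_0`

`K0 y = ∫_0^∞ exp(-y cosh t) dt`, `y > 0` (`cosh t ≥ 1 + t ^ 2 / 2`, so everything converges).

* `K0_pos`, `K0_continuousOn`: clear (dominated convergence).
* `K0_add_le`: `exp(-(y + h) cosh t) ≤ exp(-h) exp(-y cosh t)`.
* `w0_sol`: `K0'' + K0' / y = K0`: `K0'' - K0 = ∫ sinh^2 t exp(-y cosh t) dt`
  `= ∫ (sinh t) (sinh t exp(-y cosh t)) dt = (1 / y) ∫ cosh t exp(-y cosh t) dt = -K0' / y`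
  (integration by parts, `(exp(-y cosh t))' = -y sinh t exp(-y cosh t)`).  Then
  `w0 y = √y K0 (2 π y)` satisfies `w0'' = (4 π ^ 2 - 1 / (4 y ^ 2)) w0`.
* `w0_tendsto`: `K0 y ≤ exp(-(y - 1)) K0 1` for `y ≥ 1`.
-/

set_option autoImplicit false

noncomputable section

namespace Pool.Agent.MaassRS74

open Filter Topology Pool.Agent.Maass74

/-- The integrals `∫ cosh t ^ k exp(-y cosh t) dt`. -/
def BesA_J (k : ℕ) (y : ℝ) : ℝ :=
  ∫ t in Set.Ioi (0 : ℝ), Real.cosh t ^ k * Real.exp (-(y * Real.cosh t))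

theorem BesA_le_cosh (t : ℝ) : t ≤ Real.cosh t := by
  rcases le_total t 0 with h | h
  · exact h.trans (Real.cosh_pos t).le
  · have h1 : t ≤ Real.sinh t := Real.self_le_sinh_iff.2 h
    exact h1.trans (Real.sinh_lt_cosh t).le

theorem BesA_bound (k : ℕ) {a x : ℝ} (ha : 0 < a) (hx : 0 ≤ x) :
    x ^ k * Real.exp (-(a * x)) ≤ (k.factorial : ℝ) / (a / 2) ^ k * Real.exp (-(a / 2 * x)) := by
  have h1 := Real.pow_div_factorial_le_exp (a / 2 * x) (by positivity) k
  have h2 : (0 : ℝ) < k.factorial := by exact_mod_cast Nat.factorial_pos k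
  have h3 : x ^ k ≤ (k.factorial : ℝ) / (a / 2) ^ k * Real.exp (a / 2 * x) := by
    rw [div_le_iff₀ h2, mul_pow] at h1
    rw [div_mul_eq_mul_div, le_div_iff₀ (by positivity)]
    nlinarith [h1]
  have h4 : Real.exp (-(a * x)) = Real.exp (-(a / 2 * x)) * Real.exp (-(a / 2 * x)) := by
    rw [← Real.exp_add]; congr 1; ring
  have h5 : Real.exp (a / 2 * x) * Real.exp (-(a / 2 * x)) = 1 := by
    rw [← Real.exp_add]; simp
  rw [h4]
  calc x ^ k * (Real.exp (-(a / 2 * x)) * Real.exp (-(a / 2 * x)))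
      ≤ ((k.factorial : ℝ) / (a / 2) ^ k * Real.exp (a / 2 * x)) *
        (Real.exp (-(a / 2 * x)) * Real.exp (-(a / 2 * x))) :=
        mul_le_mul_of_nonneg_right h3 (by positivity)
    _ = (k.factorial : ℝ) / (a / 2) ^ k * (Real.exp (a / 2 * x) * Real.exp (-(a / 2 * x))) *
        Real.exp (-(a / 2 * x)) := by ring
    _ = _ := by rw [h5, mul_one]

theorem BesA_bound' (k : ℕ) {y t : ℝ} (hy : 0 < y) :
    Real.cosh t ^ k * Real.exp (-(y * Real.cosh t)) ≤
      (k.factorial : ℝ) / (y / 2) ^ k * Real.exp (-(y / 2) * t) := by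
  refine (BesA_bound k hy (Real.cosh_pos t).le).trans ?_
  have h1 : Real.exp (-(y / 2 * Real.cosh t)) ≤ Real.exp (-(y / 2) * t) := by
    apply Real.exp_le_exp.2
    have := mul_le_mul_of_nonneg_left (BesA_le_cosh t) (by positivity : (0 : ℝ) ≤ y / 2)
    linarith
  exact mul_le_mul_of_nonneg_left h1 (by positivity)

theorem BesA_int (k : ℕ) {y : ℝ} (hy : 0 < y) :
    MeasureTheory.IntegrableOn (fun t => Real.cosh t ^ k * Real.exp (-(y * Real.cosh t)))
      (Set.Ioi 0) := by
  have h1 : MeasureTheory.IntegrableOn (fun t : ℝ => (k.factorial : ℝ) / (y / 2) ^ k *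
      Real.exp (-(y / 2) * t)) (Set.Ioi 0) :=
    (exp_neg_integrableOn_Ioi 0 (by positivity : 0 < y / 2)).const_mul _
  refine MeasureTheory.Integrable.mono' h1 (by fun_prop) ?_
  refine Filter.Eventually.of_forall fun t => ?_
  rw [Real.norm_of_nonneg (by have := Real.cosh_pos t; positivity)]
  exact BesA_bound' k hy

theorem BesA_K0 (y : ℝ) : K0 y = BesA_J 0 y := by
  simp [K0, BesA_J]

theorem BesA_deriv (k : ℕ) {y : ℝ} (hy : 0 < y) :
    HasDerivAt (BesA_J k) (-BesA_J (k + 1) y) y := by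
  have key := hasDerivAt_integral_of_dominated_loc_of_deriv_le
    (μ := MeasureTheory.volume.restrict (Set.Ioi (0 : ℝ)))
    (F := fun (y t : ℝ) => Real.cosh t ^ k * Real.exp (-(y * Real.cosh t)))
    (F' := fun (y t : ℝ) => -(Real.cosh t ^ (k + 1) * Real.exp (-(y * Real.cosh t))))
    (x₀ := y) (s := Set.Ioi (y / 2))
    (bound := fun t => Real.cosh t ^ (k + 1) * Real.exp (-(y / 2 * Real.cosh t)))
    (Ioi_mem_nhds (by linarith)) (Filter.Eventually.of_forall fun x => by fun_prop)
    (BesA_int k hy) (by fun_prop)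
    (Filter.Eventually.of_forall fun t x hx => ?_)
    (BesA_int (k + 1) (by positivity : 0 < y / 2))
    (Filter.Eventually.of_forall fun t x hx => ?_)
  · have h := key.2
    have h2 : (-BesA_J (k + 1) y) =
        ∫ t in Set.Ioi (0 : ℝ), -(Real.cosh t ^ (k + 1) * Real.exp (-(y * Real.cosh t))) := by
      rw [MeasureTheory.integral_neg]; rfl
    rw [h2]
    exact h
  · have hc := Real.cosh_pos t
    rw [norm_neg, Real.norm_of_nonneg (by positivity)]
    apply mul_le_mul_of_nonneg_left _ (by positivity)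
    apply Real.exp_le_exp.2
    have : y / 2 * Real.cosh t ≤ x * Real.cosh t := mul_le_mul_of_nonneg_right (le_of_lt hx) hc.le
    linarith
  · have h1 : HasDerivAt (fun x : ℝ => -(x * Real.cosh t)) (-(Real.cosh t)) x := by
      have := ((hasDerivAt_id x).mul_const (Real.cosh t)).neg
      convert! this using 1
      ring
    have h2 := (h1.exp).const_mul (Real.cosh t ^ k)
    convert! h2 using 1
    ring

theorem BesA_rel {y : ℝ} (hy : 0 < y) : BesA_J 1 y = y * (BesA_J 2 y - BesA_J 0 y) := by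
  have hder : ∀ t ∈ Set.Ici (0 : ℝ), HasDerivAt (fun t : ℝ => Real.sinh t *
      Real.exp (-(y * Real.cosh t)))
      (Real.cosh t ^ 1 * Real.exp (-(y * Real.cosh t)) -
        (y * (Real.cosh t ^ 2 * Real.exp (-(y * Real.cosh t))) -
          y * (Real.cosh t ^ 0 * Real.exp (-(y * Real.cosh t))))) t := by
    intro t _
    have h1 : HasDerivAt (fun t : ℝ => -(y * Real.cosh t)) (-(y * Real.sinh t)) t :=
      ((Real.hasDerivAt_cosh t).const_mul y).neg
    have h2 := (Real.hasDerivAt_sinh t).mul h1.exp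
    convert! h2 using 1
    have h3 := Real.cosh_sq t
    rw [h3]
    ring
  have hint : MeasureTheory.IntegrableOn (fun t : ℝ =>
      (Real.cosh t ^ 1 * Real.exp (-(y * Real.cosh t)) -
        (y * (Real.cosh t ^ 2 * Real.exp (-(y * Real.cosh t))) -
          y * (Real.cosh t ^ 0 * Real.exp (-(y * Real.cosh t)))))) (Set.Ioi 0) :=
    (BesA_int 1 hy).sub (((BesA_int 2 hy).const_mul y).sub ((BesA_int 0 hy).const_mul y))
  have htend : Tendsto (fun t : ℝ => Real.sinh t * Real.exp (-(y * Real.cosh t))) atTop (𝓝 0) := by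
    have h1 : Tendsto (fun t : ℝ => ((1 : ℕ).factorial : ℝ) / (y / 2) ^ 1 *
        Real.exp (-(y / 2) * t)) atTop (𝓝 0) := by
      have h2 : Tendsto (fun t : ℝ => -(y / 2) * t) atTop atBot :=
        tendsto_id.const_mul_atTop_of_neg (by linarith)
      have h3 := (Real.tendsto_exp_atBot.comp h2).const_mul (((1 : ℕ).factorial : ℝ) / (y / 2) ^ 1)
      simpa using h3
    refine tendsto_of_tendsto_of_tendsto_of_le_of_le' tendsto_const_nhds h1 ?_ ?_
    · filter_upwards [eventually_ge_atTop 0] with t ht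
      have := Real.sinh_nonneg_iff.2 ht
      positivity
    · filter_upwards with t
      refine le_trans ?_ (BesA_bound' 1 hy)
      rw [pow_one]
      exact mul_le_mul_of_nonneg_right (Real.sinh_lt_cosh t).le (Real.exp_pos _).le
  have key := MeasureTheory.integral_Ioi_of_hasDerivAt_of_tendsto' hder hint htend
  have e2 := MeasureTheory.integral_sub ((BesA_int 2 hy).const_mul y) ((BesA_int 0 hy).const_mul y)
  have i2 : MeasureTheory.IntegrableOn (fun t : ℝ =>
      y * (Real.cosh t ^ 2 * Real.exp (-(y * Real.cosh t))) -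
        y * (Real.cosh t ^ 0 * Real.exp (-(y * Real.cosh t)))) (Set.Ioi 0) :=
    ((BesA_int 2 hy).const_mul y).sub ((BesA_int 0 hy).const_mul y)
  have e1 := MeasureTheory.integral_sub (BesA_int 1 hy) i2
  rw [e1, e2, MeasureTheory.integral_const_mul, MeasureTheory.integral_const_mul] at key
  simp only [Real.sinh_zero, zero_mul, sub_zero] at key
  have h4 : BesA_J 1 y - (y * BesA_J 2 y - y * BesA_J 0 y) = 0 := key
  linarith

theorem K0_pos {y : ℝ} (hy : 0 < y) : 0 < K0 y := by
  have h1 : K0 y = ∫ t in Set.Ioi (0 : ℝ), Real.exp (-(y * Real.cosh t)) := rfl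
  have hint : MeasureTheory.IntegrableOn (fun t => Real.exp (-(y * Real.cosh t)))
      (Set.Ioi 0) := by
    have := BesA_int 0 hy
    simpa using this
  rw [h1, MeasureTheory.setIntegral_pos_iff_support_of_nonneg_ae
    (Filter.Eventually.of_forall fun t => (Real.exp_pos _).le) hint]
  have h2 : Function.support (fun t => Real.exp (-(y * Real.cosh t))) = Set.univ := by
    ext t
    simp [Real.exp_ne_zero]
  rw [h2, Set.univ_inter, Real.volume_Ioi]
  exact ENNReal.zero_lt_top

theorem K0_continuousOn : ContinuousOn K0 (Set.Ioi 0) := by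
  have h1 : K0 = BesA_J 0 := funext BesA_K0
  rw [h1]
  intro y hy
  exact (BesA_deriv 0 hy).continuousAt.continuousWithinAt

theorem K0_add_le {y h : ℝ} (hy : 0 < y) (hh : 0 ≤ h) : K0 (y + h) ≤ Real.exp (-h) * K0 y := by
  rw [BesA_K0, BesA_K0, BesA_J, BesA_J, ← MeasureTheory.integral_const_mul]
  refine MeasureTheory.setIntegral_mono (BesA_int 0 (by linarith))
    ((BesA_int 0 hy).const_mul _) fun t => ?_
  simp only [pow_zero, one_mul]
  rw [← Real.exp_add]
  apply Real.exp_le_exp.2
  have h1 := mul_le_mul_of_nonneg_left (Real.one_le_cosh t) hh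
  linarith

theorem w0_sol : ∃ D : ℝ → ℂ, IsSol (4 * Real.pi ^ 2) (fun y => (w0 y : ℂ)) D := by
  have hpi : 0 < 2 * Real.pi := by positivity
  set c : ℝ := 2 * Real.pi with hc
  refine ⟨fun y => ((1 / (2 * Real.sqrt y) * BesA_J 0 (c * y) -
    Real.sqrt y * (c * BesA_J 1 (c * y)) : ℝ) : ℂ), fun y hy => ?_⟩
  have hcy : 0 < c * y := mul_pos hpi hy
  have hs : 0 < Real.sqrt y := Real.sqrt_pos.2 hy
  have hss : Real.sqrt y ^ 2 = y := Real.sq_sqrt hy.le
  have hJ : ∀ k : ℕ, HasDerivAt (fun y : ℝ => BesA_J k (c * y)) (-(c * BesA_J (k + 1) (c * y))) y := by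
    intro k
    have h1 : HasDerivAt (fun y : ℝ => c * y) c y := by
      simpa using (hasDerivAt_id y).const_mul c
    have h2 := (BesA_deriv k hcy).comp y h1
    convert! h2 using 1
    ring
  have hsq : HasDerivAt Real.sqrt (1 / (2 * Real.sqrt y)) y := Real.hasDerivAt_sqrt hy.ne'
  have hw : HasDerivAt w0 (1 / (2 * Real.sqrt y) * BesA_J 0 (c * y) -
      Real.sqrt y * (c * BesA_J 1 (c * y))) y := by
    have h1 := hsq.mul (hJ 0)
    have h2 : w0 = fun y => Real.sqrt y * BesA_J 0 (c * y) := by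
      funext y
      rw [w0, BesA_K0]
    rw [h2]
    convert! h1 using 1
    simp only [zero_add]
    ring
  have hrel := BesA_rel hcy
  have hinv : HasDerivAt (fun y : ℝ => 1 / (2 * Real.sqrt y)) (-(1 / (4 * Real.sqrt y ^ 3))) y := by
    have h1 := (hsq.const_mul 2).inv (by positivity : (2 : ℝ) * Real.sqrt y ≠ 0)
    convert! h1 using 1
    · funext y
      simp
    · field_simp
      ring
  have hD : HasDerivAt (fun y : ℝ => 1 / (2 * Real.sqrt y) * BesA_J 0 (c * y) -
      Real.sqrt y * (c * BesA_J 1 (c * y))) ((4 * Real.pi ^ 2 - 1 / (4 * y ^ 2)) * w0 y) y := by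
    have h1 := (hinv.mul (hJ 0)).sub (hsq.mul ((hJ 1).const_mul c))
    convert! h1 using 1
    rw [w0, ← hc, BesA_K0]
    simp only [zero_add, Nat.reduceAdd]
    rw [hrel]
    have h5 : (4 * Real.pi ^ 2) = c ^ 2 := by rw [hc]; ring
    rw [h5]
    have h6 : y ^ 2 = Real.sqrt y ^ 4 := by
      rw [← hss]; rw [Real.sqrt_sq hs.le]; ring
    have h7 : c * y = c * Real.sqrt y ^ 2 := by rw [hss]
    rw [h6]
    generalize BesA_J 2 (c * y) = J2
    generalize BesA_J 0 (c * y) = J0
    rw [h7]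
    generalize Real.sqrt y = s at hs
    field_simp
    ring
  refine ⟨hw.ofReal_comp, ?_⟩
  have h2 := hD.ofReal_comp
  convert! h2 using 1
  push_cast
  ring

theorem w0_tendsto : Tendsto (fun y => (w0 y : ℂ)) atTop (𝓝 0) := by
  have h1 : Tendsto w0 atTop (𝓝 0) := by
    have hK : ∀ y : ℝ, 1 ≤ y → K0 (2 * Real.pi * y) ≤ Real.exp (-y) * K0 1 := by
      intro y hy
      have hpi := Real.pi_gt_three
      have h2 := K0_add_le (y := 1) (h := 2 * Real.pi * y - 1) one_pos (by nlinarith)
      rw [show 1 + (2 * Real.pi * y - 1) = 2 * Real.pi * y by ring] at h2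
      refine h2.trans ?_
      apply mul_le_mul_of_nonneg_right _ (K0_pos one_pos).le
      apply Real.exp_le_exp.2
      nlinarith
    have h3 : Tendsto (fun y : ℝ => y ^ 1 * Real.exp (-y) * K0 1) atTop (𝓝 0) := by
      have := (Real.tendsto_pow_mul_exp_neg_atTop_nhds_zero 1).mul_const (K0 1)
      simpa using this
    refine tendsto_of_tendsto_of_tendsto_of_le_of_le' tendsto_const_nhds h3 ?_ ?_
    · filter_upwards [eventually_gt_atTop 0] with y hy
      rw [w0]
      have := K0_pos (y := 2 * Real.pi * y) (by positivity)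
      positivity
    · filter_upwards [eventually_ge_atTop 1] with y hy
      rw [w0, pow_one, mul_assoc y]
      have h4 : Real.sqrt y ≤ y := by
        rw [Real.sqrt_le_left (by linarith)]
        nlinarith
      have h5 := K0_pos (y := 2 * Real.pi * y) (by positivity)
      exact mul_le_mul h4 (hK y hy) h5.le (by linarith)
  have h2 := (Complex.continuous_ofReal.tendsto 0).comp h1
  rw [Complex.ofReal_zero] at h2
  exact h2

end Pool.Agent.MaassRS74
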