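import Pool.Agent.W_7742r_h74.Defs

/-!
# The Mellin transform of `K_0 ^ 2`

For `x > 0`, by Tonelli and `∫_0^∞ y ^ (x - 1) exp(-y A) dy = Γ(x) A ^ (-x)`,
`∫_0^∞ y ^ (x - 1) K0(y) ^ 2 dy = Γ(x) ∫_0^∞ ∫_0^∞ (cosh t + cosh u) ^ (-x) dt du
 = (Γ(x) / 4) ∫_ℝ ∫_ℝ (cosh t + cosh u) ^ (-x) dt du`.  Substituting `t = a + b`, `u = a - b`
(Jacobian `2`; `cosh t + cosh u = 2 cosh a cosh b`) this is
`(Γ(x) / 4) 2 ^ (1 - x) (∫_ℝ (cosh a) ^ (-x) da) ^ 2`.  With `v = 1 / (1 + e ^ (2 a))`: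
`(cosh a) ^ (-x) = 2 ^ x (v (1 - v)) ^ (x / 2)`, `da = -dv / (2 v (1 - v))`, so
`∫_ℝ (cosh a) ^ (-x) da = 2 ^ (x - 1) B(x / 2, x / 2) = 2 ^ (x - 1) Γ(x / 2) ^ 2 / Γ(x)`.
Total: `2 ^ (x - 3) Γ(x / 2) ^ 4 / Γ(x)`.
(The inner integral may also be done by first substituting in one variable.)
-/

set_option autoImplicit false

noncomputable section

namespace Pool.Agent.MaassRS74

open MeasureTheory ENNReal

theorem BesB_beta {a : ℝ} (ha : 0 < a) :
    ∫⁻ v in Set.Ioo (0 : ℝ) 1, ENNReal.ofReal (v ^ (a - 1) * (1 - v) ^ (a - 1)) =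
      ENNReal.ofReal (Real.Gamma a ^ 2 / Real.Gamma (2 * a)) := by
  have h := ProbabilityTheory.lintegral_betaPDF_eq_one ha ha
  rw [ProbabilityTheory.lintegral_betaPDF] at h
  have hb : 0 < ProbabilityTheory.beta a a := ProbabilityTheory.beta_pos ha ha
  have h2 : ∀ v : ℝ, ENNReal.ofReal (1 / ProbabilityTheory.beta a a * v ^ (a - 1) *
      (1 - v) ^ (a - 1)) = ENNReal.ofReal (1 / ProbabilityTheory.beta a a) *
        ENNReal.ofReal (v ^ (a - 1) * (1 - v) ^ (a - 1)) := by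
    intro v
    rw [← ENNReal.ofReal_mul (by positivity)]
    ring_nf
  simp_rw [h2] at h
  rw [lintegral_const_mul _ (by fun_prop)] at h
  have h3 : ENNReal.ofReal (ProbabilityTheory.beta a a) *
      ENNReal.ofReal (1 / ProbabilityTheory.beta a a) = 1 := by
    rw [← ENNReal.ofReal_mul hb.le, mul_one_div_cancel hb.ne', ENNReal.ofReal_one]
  calc ∫⁻ v in Set.Ioo (0 : ℝ) 1, ENNReal.ofReal (v ^ (a - 1) * (1 - v) ^ (a - 1))
      = ENNReal.ofReal (ProbabilityTheory.beta a a) *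
        (ENNReal.ofReal (1 / ProbabilityTheory.beta a a) *
          ∫⁻ v in Set.Ioo (0 : ℝ) 1, ENNReal.ofReal (v ^ (a - 1) * (1 - v) ^ (a - 1))) := by
        rw [← mul_assoc, h3, one_mul]
    _ = ENNReal.ofReal (ProbabilityTheory.beta a a) := by rw [h, mul_one]
    _ = _ := by
        rw [ProbabilityTheory.beta]
        congr 2
        · ring
        · congr 1
          ring

theorem BesB_cosh_sub (a : ℝ) : (1 / (1 + Real.exp (2 * a))) * (1 - 1 / (1 + Real.exp (2 * a))) =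
    1 / (4 * Real.cosh a ^ 2) := by
  have h1 : (0 : ℝ) < 1 + Real.exp (2 * a) := by positivity
  have h2 : 0 < Real.cosh a := Real.cosh_pos a
  have h3 : Real.exp (2 * a) = Real.exp a ^ 2 := by
    rw [← Real.exp_nat_mul]; norm_num
  rw [Real.cosh_eq, Real.exp_neg, h3]
  have h4 : 0 < Real.exp a := Real.exp_pos a
  field_simp
  ring

theorem lintegral_cosh {x : ℝ} (hx : 0 < x) :
    ∫⁻ a : ℝ, ENNReal.ofReal (Real.cosh a ^ (-x)) =
      ENNReal.ofReal (2 ^ (x - 1) * Real.Gamma (x / 2) ^ 2 / Real.Gamma x) := by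
  have hb := BesB_beta (a := x / 2) (by positivity)
  set f : ℝ → ℝ := fun a => 1 / (1 + Real.exp (2 * a)) with hf
  set f' : ℝ → ℝ := fun a => -(2 * Real.exp (2 * a)) / (1 + Real.exp (2 * a)) ^ 2 with hf'
  have hpos : ∀ a : ℝ, (0 : ℝ) < 1 + Real.exp (2 * a) := fun a => by positivity
  have hder : ∀ a ∈ (Set.univ : Set ℝ), HasDerivWithinAt f (f' a) Set.univ a := by
    intro a _
    have h1 : HasDerivAt (fun a : ℝ => 1 + Real.exp (2 * a)) (2 * Real.exp (2 * a)) a := by
      have h := ((hasDerivAt_id a).const_mul 2).exp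
      have h2 := h.const_add 1
      convert! h2 using 1
      simp only [id_eq]
      ring
    have h2 := h1.inv (hpos a).ne'
    have h3 : HasDerivAt f (f' a) a := by
      convert! h2 using 1
      funext y
      simp [hf]
    exact h3.hasDerivWithinAt
  have hinj : Set.InjOn f Set.univ := by
    intro a _ b _ hab
    simp only [hf] at hab
    have h1 : 1 + Real.exp (2 * a) = 1 + Real.exp (2 * b) := by
      have := congrArg (fun z => 1 / z) hab
      simpa using this
    have h2 : Real.exp (2 * a) = Real.exp (2 * b) := by linarith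
    have h3 := Real.exp_injective h2
    linarith
  have himg : f '' Set.univ = Set.Ioo 0 1 := by
    ext v
    constructor
    · rintro ⟨a, _, rfl⟩
      refine ⟨by simp only [hf]; exact div_pos one_pos (hpos a), ?_⟩
      simp only [hf]
      rw [div_lt_one (hpos a)]
      have := Real.exp_pos (2 * a)
      linarith
    · rintro ⟨h0, h1⟩
      refine ⟨Real.log (1 / v - 1) / 2, Set.mem_univ _, ?_⟩
      have h2 : 0 < 1 / v - 1 := by
        rw [sub_pos, lt_div_iff₀ h0]
        linarith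
      simp only [hf]
      rw [mul_div_cancel₀ _ (two_ne_zero), Real.exp_log h2]
      field_simp
      ring
  have key := lintegral_image_eq_lintegral_abs_deriv_mul MeasurableSet.univ hder hinj
    (fun v => ENNReal.ofReal (v ^ (x / 2 - 1) * (1 - v) ^ (x / 2 - 1)))
  rw [himg, hb, Measure.restrict_univ] at key
  have h5 : ∀ a : ℝ, ENNReal.ofReal |f' a| * ENNReal.ofReal (f a ^ (x / 2 - 1) *
      (1 - f a) ^ (x / 2 - 1)) =
      ENNReal.ofReal (2 ^ (1 - x)) * ENNReal.ofReal (Real.cosh a ^ (-x)) := by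
    intro a
    rw [← ENNReal.ofReal_mul (abs_nonneg _), ← ENNReal.ofReal_mul (by positivity)]
    congr 1
    have hc : 0 < Real.cosh a := Real.cosh_pos a
    have h0 : 0 < f a := div_pos one_pos (hpos a)
    have h1 : 0 < 1 - f a := by
      have : f a < 1 := by
        simp only [hf]
        rw [div_lt_one (hpos a)]
        have := Real.exp_pos (2 * a)
        linarith
      linarith
    have h2 : |f' a| = 2 * (f a * (1 - f a)) := by
      have : f' a = -(2 * (f a * (1 - f a))) := by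
        simp only [hf, hf']
        have := hpos a
        field_simp
        ring
      rw [this, abs_neg, abs_of_pos (by positivity)]
    have h3 : f a * (1 - f a) = 1 / (4 * Real.cosh a ^ 2) := BesB_cosh_sub a
    rw [h2, ← Real.mul_rpow h0.le h1.le, Real.rpow_sub_one (by positivity)]
    have h4 : 2 * (f a * (1 - f a)) * ((f a * (1 - f a)) ^ (x / 2) / (f a * (1 - f a))) =
        2 * (f a * (1 - f a)) ^ (x / 2) := by
      have : 0 < f a * (1 - f a) := by positivity
      field_simp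
    rw [h4, h3]
    have h6 : (4 * Real.cosh a ^ 2) = (2 * Real.cosh a) ^ (2 : ℝ) := by
      rw [Real.rpow_two]; ring
    rw [h6, one_div, ← Real.rpow_neg (by positivity), ← Real.rpow_mul (by positivity),
      Real.mul_rpow (by positivity) hc.le]
    have h7 : (-2 : ℝ) * (x / 2) = -x := by ring
    rw [h7, ← mul_assoc]
    congr 1
    rw [sub_eq_add_neg, Real.rpow_add two_pos, Real.rpow_one]
  simp_rw [h5] at key
  rw [lintegral_const_mul _ (by fun_prop)] at key
  have h8 : ENNReal.ofReal (2 ^ (x - 1)) * ENNReal.ofReal (2 ^ (1 - x)) = 1 := by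
    rw [← ENNReal.ofReal_mul (by positivity), ← Real.rpow_add two_pos]
    simp
  calc ∫⁻ a : ℝ, ENNReal.ofReal (Real.cosh a ^ (-x))
      = ENNReal.ofReal (2 ^ (x - 1)) * (ENNReal.ofReal (2 ^ (1 - x)) *
          ∫⁻ a : ℝ, ENNReal.ofReal (Real.cosh a ^ (-x))) := by
        rw [← mul_assoc, h8, one_mul]
    _ = _ := by
        rw [← key, ← ENNReal.ofReal_mul (by positivity)]
        congr 1
        rw [mul_div_cancel₀ x two_ne_zero]
        ring

theorem BesB_gamma {x A : ℝ} (hx : 0 < x) (hA : 0 < A) :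
    ∫⁻ y in Set.Ioi (0 : ℝ), ENNReal.ofReal (y ^ (x - 1) * Real.exp (-(y * A))) =
      ENNReal.ofReal (Real.Gamma x * A ^ (-x)) := by
  have h := Real.integral_rpow_mul_exp_neg_mul_Ioi hx hA
  have hpos : 0 < Real.Gamma x * A ^ (-x) := mul_pos (Real.Gamma_pos_of_pos hx) (by positivity)
  have hE : ∫ y in Set.Ioi (0 : ℝ), y ^ (x - 1) * Real.exp (-(y * A)) =
      Real.Gamma x * A ^ (-x) := by
    have h2 : ∀ y : ℝ, y ^ (x - 1) * Real.exp (-(y * A)) = y ^ (x - 1) * Real.exp (-(A * y)) := by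
      intro y; rw [mul_comm y A]
    simp_rw [h2]
    rw [h, Real.rpow_neg hA.le, one_div, Real.inv_rpow hA.le]
    ring
  rw [← hE, ← ofReal_integral_eq_lintegral_ofReal]
  · by_contra hni
    rw [← IntegrableOn, ] at hni
    have := integral_undef hni
    rw [this] at hE
    linarith
  · refine (ae_restrict_iff' measurableSet_Ioi).2 (Filter.Eventually.of_forall fun y hy => ?_)
    have : (0 : ℝ) < y := hy
    positivity

theorem BesB_intK {y : ℝ} (hy : 0 < y) :
    IntegrableOn (fun t : ℝ => Real.exp (-(y * Real.cosh t))) (Set.Ioi 0) := by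
  have h1 : IntegrableOn (fun t : ℝ => Real.exp (-y * t)) (Set.Ioi 0) :=
    exp_neg_integrableOn_Ioi 0 hy
  refine Integrable.mono' h1 (by fun_prop) ?_
  refine (ae_restrict_iff' measurableSet_Ioi).2 (Filter.Eventually.of_forall fun t ht => ?_)
  rw [Real.norm_eq_abs, abs_of_pos (Real.exp_pos _)]
  apply Real.exp_le_exp.2
  have h2 : t ≤ Real.cosh t := by
    have h3 := Real.add_one_le_exp t
    have h4 : t ≤ Real.sinh t := Real.self_le_sinh_iff.2 (le_of_lt ht)
    linarith [Real.sinh_lt_cosh t]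
  nlinarith

theorem BesB_K0_ofReal {y : ℝ} (hy : 0 < y) :
    ENNReal.ofReal (K0 y) = ∫⁻ t in Set.Ioi (0 : ℝ), ENNReal.ofReal (Real.exp (-(y * Real.cosh t))) := by
  rw [K0, ofReal_integral_eq_lintegral_ofReal (BesB_intK hy)]
  exact Filter.Eventually.of_forall fun t => (Real.exp_pos _).le

theorem BesB_K0_nonneg (y : ℝ) : 0 ≤ K0 y := by
  rw [K0]
  exact integral_nonneg fun t => (Real.exp_pos _).le

theorem BesB_even (F : ℝ → ℝ≥0∞) (hF : ∀ t, F (-t) = F t) :
    ∫⁻ t : ℝ, F t = 2 * ∫⁻ t in Set.Ioi (0 : ℝ), F t := by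
  have h1 : ∫⁻ t in Set.Iic (0 : ℝ), F t = ∫⁻ t in Set.Ioi (0 : ℝ), F t := by
    have h2 : ∫⁻ t in Set.Iio (0 : ℝ), F t = ∫⁻ t in Set.Ioi (0 : ℝ), F t := by
      have h3 := (Measure.measurePreserving_neg (volume : Measure ℝ)).setLIntegral_comp_preimage_emb
        (MeasurableEquiv.neg ℝ).measurableEmbedding F (Set.Iio (0 : ℝ))
      rw [← h3]
      have h4 : (fun t : ℝ => -t) ⁻¹' Set.Iio (0 : ℝ) = Set.Ioi 0 := by
        ext t; simp
      have h5 : (Neg.neg : ℝ → ℝ) ⁻¹' Set.Iio (0 : ℝ) = Set.Ioi 0 := h4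
      rw [h5]
      exact lintegral_congr fun t => hF t
    rw [← h2]
    exact setLIntegral_congr Iio_ae_eq_Iic.symm
  rw [← lintegral_add_compl F measurableSet_Iic (A := Set.Iic (0 : ℝ)), Set.compl_Iic, h1, two_mul]

theorem BesB_sub (F : ℝ → ℝ → ℝ≥0∞) (hF : Measurable (Function.uncurry F)) :
    ∫⁻ t : ℝ, ∫⁻ u : ℝ, F t u = 2 * ∫⁻ a : ℝ, ∫⁻ b : ℝ, F (a + b) (a - b) := by
  have e1 : ∫⁻ t : ℝ, ∫⁻ u : ℝ, F t u = ∫⁻ u : ℝ, ∫⁻ t : ℝ, F t u :=
    lintegral_lintegral_swap hF.aemeasurable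
  have e2 : ∀ u : ℝ, ∫⁻ t : ℝ, F t u = 2 * ∫⁻ b : ℝ, F (2 * b + u) u := by
    intro u
    have h1 : ∫⁻ t : ℝ, F t u = ∫⁻ t : ℝ, F (t + u) u :=
      (lintegral_add_right_eq_self (fun t => F t u) u).symm
    rw [h1]
    have hm : Measurable fun t : ℝ => F (t + u) u :=
      hF.comp (by fun_prop : Measurable fun t : ℝ => (t + u, u))
    have h2 := lintegral_map (μ := (volume : Measure ℝ)) (g := fun b : ℝ => 2 * b) hm (by fun_prop)
    rw [Real.map_volume_mul_left two_ne_zero, lintegral_smul_measure] at h2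
    have h3 : (2 : ℝ≥0∞) * ENNReal.ofReal |(2 : ℝ)⁻¹| = 1 := by
      rw [abs_of_pos (by norm_num : (0 : ℝ) < 2⁻¹)]
      rw [show (2 : ℝ≥0∞) = ENNReal.ofReal 2 by simp, ← ENNReal.ofReal_mul (by norm_num)]
      norm_num
    rw [← h2, smul_eq_mul, ← mul_assoc, h3, one_mul]
  rw [e1]
  simp_rw [e2]
  rw [lintegral_const_mul]
  · congr 1
    have hm : Measurable (Function.uncurry fun u b : ℝ => F (2 * b + u) u) :=
      hF.comp (by fun_prop : Measurable fun p : ℝ × ℝ => (2 * p.2 + p.1, p.1))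
    rw [lintegral_lintegral_swap hm.aemeasurable]
    have hm2 : Measurable (Function.uncurry fun a b : ℝ => F (a + b) (a - b)) :=
      hF.comp (by fun_prop : Measurable fun p : ℝ × ℝ => (p.1 + p.2, p.1 - p.2))
    rw [lintegral_lintegral_swap hm2.aemeasurable]
    refine lintegral_congr fun b => ?_
    rw [← lintegral_add_right_eq_self (fun u => F (2 * b + u) u) (-b)]
    refine lintegral_congr fun a => ?_
    have e3 : 2 * b + (a + -b) = a + b := by ring
    have e4 : a + -b = a - b := by ring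
    rw [e3, e4]
  · have hm : Measurable (Function.uncurry fun u b : ℝ => F (2 * b + u) u) :=
      hF.comp (by fun_prop : Measurable fun p : ℝ × ℝ => (2 * p.2 + p.1, p.1))
    exact hm.lintegral_prod_right'

theorem mellin_K0_sq {x : ℝ} (hx : 0 < x) :
    ∫⁻ y in Set.Ioi (0 : ℝ), ENNReal.ofReal (y ^ (x - 1) * K0 y ^ 2) =
      ENNReal.ofReal (2 ^ (x - 3) * Real.Gamma (x / 2) ^ 4 / Real.Gamma x) := by
  have s1 : ∫⁻ y in Set.Ioi (0 : ℝ), ENNReal.ofReal (y ^ (x - 1) * K0 y ^ 2) =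
      ∫⁻ y in Set.Ioi (0 : ℝ), ∫⁻ t in Set.Ioi (0 : ℝ), ∫⁻ u in Set.Ioi (0 : ℝ),
        ENNReal.ofReal (y ^ (x - 1) * Real.exp (-(y * (Real.cosh t + Real.cosh u)))) := by
    refine setLIntegral_congr_fun measurableSet_Ioi fun y hy => ?_
    have hy0 : (0 : ℝ) < y := hy
    have hK := BesB_K0_nonneg y
    show ENNReal.ofReal (y ^ (x - 1) * K0 y ^ 2) = _
    have h1 : ENNReal.ofReal (y ^ (x - 1) * K0 y ^ 2) =
        ENNReal.ofReal (y ^ (x - 1)) * (ENNReal.ofReal (K0 y) * ENNReal.ofReal (K0 y)) := by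
      rw [← ENNReal.ofReal_mul hK, ← ENNReal.ofReal_mul (by positivity), sq]
    rw [h1]
    nth_rewrite 1 [BesB_K0_ofReal hy0]
    rw [← lintegral_mul_const _ (by fun_prop), ← lintegral_const_mul _ (by fun_prop)]
    refine lintegral_congr fun t => ?_
    rw [BesB_K0_ofReal hy0, ← lintegral_const_mul _ (by fun_prop),
      ← lintegral_const_mul _ (by fun_prop)]
    refine lintegral_congr fun u => ?_
    rw [← ENNReal.ofReal_mul (Real.exp_pos _).le, ← ENNReal.ofReal_mul (by positivity),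
      ← Real.exp_add]
    congr 3
    ring
  rw [s1]
  have s2 : ∫⁻ y in Set.Ioi (0 : ℝ), ∫⁻ t in Set.Ioi (0 : ℝ), ∫⁻ u in Set.Ioi (0 : ℝ),
        ENNReal.ofReal (y ^ (x - 1) * Real.exp (-(y * (Real.cosh t + Real.cosh u)))) =
      ∫⁻ t in Set.Ioi (0 : ℝ), ∫⁻ u in Set.Ioi (0 : ℝ),
        ENNReal.ofReal (Real.Gamma x * (Real.cosh t + Real.cosh u) ^ (-x)) := by
    have hm : Measurable (Function.uncurry fun y t : ℝ => ∫⁻ u in Set.Ioi (0 : ℝ),
        ENNReal.ofReal (y ^ (x - 1) * Real.exp (-(y * (Real.cosh t + Real.cosh u))))) := by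
      have : Measurable fun p : (ℝ × ℝ) × ℝ => ENNReal.ofReal (p.1.1 ^ (x - 1) *
          Real.exp (-(p.1.1 * (Real.cosh p.1.2 + Real.cosh p.2)))) := by fun_prop
      exact this.lintegral_prod_right'
    rw [lintegral_lintegral_swap hm.aemeasurable]
    refine lintegral_congr fun t => ?_
    have hm2 : Measurable (Function.uncurry fun y u : ℝ =>
        ENNReal.ofReal (y ^ (x - 1) * Real.exp (-(y * (Real.cosh t + Real.cosh u))))) := by
      unfold Function.uncurry
      fun_prop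
    rw [lintegral_lintegral_swap hm2.aemeasurable]
    refine lintegral_congr fun u => ?_
    exact BesB_gamma hx (by positivity)
  rw [s2]
  set F : ℝ → ℝ → ℝ≥0∞ := fun t u =>
    ENNReal.ofReal (Real.Gamma x * (Real.cosh t + Real.cosh u) ^ (-x)) with hF
  have hFm : Measurable (Function.uncurry F) := by
    simp only [hF]
    unfold Function.uncurry
    fun_prop
  have s3 : ∫⁻ t : ℝ, ∫⁻ u : ℝ, F t u =
      4 * ∫⁻ t in Set.Ioi (0 : ℝ), ∫⁻ u in Set.Ioi (0 : ℝ), F t u := by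
    have h1 : ∀ t : ℝ, ∫⁻ u : ℝ, F t u = 2 * ∫⁻ u in Set.Ioi (0 : ℝ), F t u := fun t =>
      BesB_even _ fun u => by simp only [hF, Real.cosh_neg]
    simp_rw [h1]
    rw [BesB_even _ fun t => by simp only [hF, Real.cosh_neg]]
    have hm : Measurable fun t : ℝ => ∫⁻ u in Set.Ioi (0 : ℝ), F t u :=
      hFm.lintegral_prod_right'
    rw [lintegral_const_mul _ hm, ← mul_assoc]
    norm_num
  have s4 : ∫⁻ t : ℝ, ∫⁻ u : ℝ, F t u =
      ENNReal.ofReal (2 ^ (x - 1) * Real.Gamma (x / 2) ^ 4 / Real.Gamma x) := by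
    rw [BesB_sub F hFm]
    have h1 : ∀ a b : ℝ, F (a + b) (a - b) = ENNReal.ofReal (Real.Gamma x * 2 ^ (-x)) *
        (ENNReal.ofReal (Real.cosh a ^ (-x)) * ENNReal.ofReal (Real.cosh b ^ (-x))) := by
      intro a b
      have hG := Real.Gamma_pos_of_pos hx
      have ha := Real.cosh_pos a
      have hb := Real.cosh_pos b
      simp only [hF]
      rw [← ENNReal.ofReal_mul (by positivity), ← ENNReal.ofReal_mul (by positivity)]
      congr 1
      have h2 : Real.cosh (a + b) + Real.cosh (a - b) = 2 * (Real.cosh a * Real.cosh b) := by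
        rw [Real.cosh_add, Real.cosh_sub]; ring
      rw [h2, Real.mul_rpow two_pos.le (by positivity), Real.mul_rpow ha.le hb.le]
      ring
    simp_rw [h1]
    have h3 : ∀ a : ℝ, ∫⁻ b : ℝ, ENNReal.ofReal (Real.Gamma x * 2 ^ (-x)) *
        (ENNReal.ofReal (Real.cosh a ^ (-x)) * ENNReal.ofReal (Real.cosh b ^ (-x))) =
        ENNReal.ofReal (Real.Gamma x * 2 ^ (-x)) * (ENNReal.ofReal (Real.cosh a ^ (-x)) *
          ∫⁻ b : ℝ, ENNReal.ofReal (Real.cosh b ^ (-x))) := by
      intro a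
      rw [lintegral_const_mul _ (by fun_prop), lintegral_const_mul _ (by fun_prop)]
    simp_rw [h3]
    rw [lintegral_const_mul _ (by fun_prop), lintegral_mul_const _ (by fun_prop),
      lintegral_cosh hx]
    have hG := Real.Gamma_pos_of_pos hx
    have hG2 := Real.Gamma_pos_of_pos (by positivity : 0 < x / 2)
    rw [show (2 : ℝ≥0∞) = ENNReal.ofReal 2 by simp, ← ENNReal.ofReal_mul (by positivity),
      ← ENNReal.ofReal_mul (by positivity), ← ENNReal.ofReal_mul (by positivity)]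
    congr 1
    have h4 : (2 : ℝ) ^ (-x) * 2 ^ (x - 1) * 2 = 1 := by
      have : (2 : ℝ) = 2 ^ (1 : ℝ) := by simp
      nth_rewrite 3 [this]
      rw [← Real.rpow_add two_pos, ← Real.rpow_add two_pos]
      ring_nf
      simp
    field_simp
    linear_combination h4
  have s5 : (4 : ℝ≥0∞) * ∫⁻ t in Set.Ioi (0 : ℝ), ∫⁻ u in Set.Ioi (0 : ℝ), F t u =
      4 * ENNReal.ofReal (2 ^ (x - 3) * Real.Gamma (x / 2) ^ 4 / Real.Gamma x) := by
    rw [← s3, s4, show (4 : ℝ≥0∞) = ENNReal.ofReal 4 by simp, ← ENNReal.ofReal_mul (by norm_num)]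
    congr 1
    have h5 : (2 : ℝ) ^ (x - 1) = 4 * 2 ^ (x - 3) := by
      have : (4 : ℝ) = 2 ^ (2 : ℝ) := by norm_num
      rw [this, ← Real.rpow_add two_pos]
      ring_nf
    rw [h5]
    ring
  exact (ENNReal.mul_right_inj (by norm_num) (by norm_num)).1 s5

end Pool.Agent.MaassRS74
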