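import Pool.Agent.W_7742r_h74.BesA
import Pool.Agent.W_7742m_h74.Coef

/-!
# The Fourier expansion with the Bessel function

As `Pool.Agent.Maass74.exists_expansion` (file `Pool/Agent/W_7742m_h74/Coef.lean`), with
`W = w0`: for `n ≠ 0` the function `G n y = √|n| * fc F n (y / |n|)` solves the same equation as
`w0` (`w0_sol`) and tends to zero, so `G n = c n * w0` by `sol_unique` (`w0` is positive by
`K0_pos`).
-/

set_option autoImplicit false

noncomputable section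

namespace Pool.Agent.MaassRS74

open Filter Topology Pool.Agent.Maass74

theorem exists_expansion_K0 {F : ℝ → ℝ → ℂ} (hF : IsWave F)
    (h : ∃ x y : ℝ, 0 < y ∧ F x y ≠ 0) : ∃ c : ℤ → ℂ, IsExpansion F (fun y => (w0 y : ℂ)) c := by
  classical
  -- the coefficient zero
  have hz0 : ∀ y : ℝ, 0 < y → fc F 0 y = 0 := by
    obtain ⟨D, hD⟩ := fc_sol hF 0
    have h1 : (4 * Real.pi ^ 2 * ((0 : ℤ) : ℝ) ^ 2) = 0 := by simp
    rw [h1] at hD
    exact sol_zero hD (fc_tendsto hF 0)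
  -- the scaled coefficients
  have hsol : ∀ n : ℤ, n ≠ 0 → ∃ D : ℝ → ℂ,
      IsSol (4 * Real.pi ^ 2) (fun y => fc F n (y / |(n : ℝ)|)) D := by
    intro n hn
    obtain ⟨D, hD⟩ := fc_sol hF n
    have hr : 0 < |(n : ℝ)| := abs_pos.2 (by exact_mod_cast hn)
    have h1 : (4 * Real.pi ^ 2 * (n : ℝ) ^ 2) = 4 * Real.pi ^ 2 * |(n : ℝ)| ^ 2 := by
      rw [sq_abs]
    rw [h1] at hD
    exact ⟨_, sol_scale hr hD⟩
  have htend : ∀ n : ℤ, n ≠ 0 → Tendsto (fun y => fc F n (y / |(n : ℝ)|)) atTop (𝓝 0) := by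
    intro n hn
    have hr : 0 < |(n : ℝ)| := abs_pos.2 (by exact_mod_cast hn)
    exact (fc_tendsto hF n).comp (tendsto_id.atTop_div_const hr)
  obtain ⟨D₀, hD₀⟩ := w0_sol
  have hWpos : ∀ y : ℝ, 0 < y → (w0 y : ℂ) ≠ 0 := by
    intro y hy
    rw [Complex.ofReal_ne_zero]
    unfold w0
    have h1 := K0_pos (show 0 < 2 * Real.pi * y by positivity)
    have h2 := Real.sqrt_pos.2 hy
    positivity
  have hW : ∃ y : ℝ, 0 < y ∧ (fun y => (w0 y : ℂ)) y ≠ 0 := ⟨1, one_pos, hWpos 1 one_pos⟩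
  obtain ⟨x₁, y₁, hy₁, hxy⟩ := h
  obtain ⟨n₀, hn₀⟩ := exists_fc_ne_zero hF hy₁ hxy
  have hn0 : n₀ ≠ 0 := by
    rintro rfl
    exact hn₀ (hz0 y₁ hy₁)
  have hr₀ : 0 < |(n₀ : ℝ)| := abs_pos.2 (by exact_mod_cast hn0)
  have hc : ∀ n : ℤ, ∃ c : ℂ, n ≠ 0 → ∀ y : ℝ, 0 < y →
      fc F n (y / |(n : ℝ)|) = c * (w0 y : ℂ) := by
    intro n
    by_cases hn : n = 0
    · exact ⟨0, fun h => absurd hn h⟩
    · obtain ⟨D, hD⟩ := hsol n hn
      obtain ⟨c, hc⟩ := sol_unique hD hD₀ (htend n hn) w0_tendsto hW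
      exact ⟨c, fun _ => hc⟩
  choose c hc using hc
  refine ⟨fun n => if n = 0 then 0 else (Real.sqrt |(n : ℝ)| : ℂ) * c n, ?_, ?_, ?_, ?_, ?_⟩
  · simp
  · refine ⟨n₀, ?_⟩
    simp only [if_neg hn0]
    refine mul_ne_zero (Complex.ofReal_ne_zero.2 (Real.sqrt_pos.2 hr₀).ne') ?_
    intro h0
    apply hn₀
    have h1 := hc n₀ hn0 (|(n₀ : ℝ)| * y₁) (by positivity)
    rw [mul_div_cancel_left₀ _ hr₀.ne', h0, zero_mul] at h1
    exact h1
  · intro y hy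
    exact (hD₀ y hy).1.continuousAt.continuousWithinAt
  · exact ⟨1 / 2, by norm_num, by norm_num, hWpos (1 / 2) (by norm_num)⟩
  · intro n y hy
    by_cases hn : n = 0
    · subst hn
      rw [hz0 y hy]
      simp
    · have hr : 0 < |(n : ℝ)| := abs_pos.2 (by exact_mod_cast hn)
      have h1 := hc n hn (|(n : ℝ)| * y) (by positivity)
      rw [mul_div_cancel_left₀ _ hr.ne'] at h1
      simp only [if_neg hn]
      have h2 : (Real.sqrt |(n : ℝ)| : ℂ) ≠ 0 := Complex.ofReal_ne_zero.2 (Real.sqrt_pos.2 hr).ne'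
      rw [h1, mul_assoc, mul_div_cancel_left₀ _ h2]

end Pool.Agent.MaassRS74
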