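import Pool.Agent.W_7742m_h74.Defs

/-!
# The Rankin-Selberg method for Maass forms of eigenvalue 1/4: definitions

Paper proof (helper74).  `G = |f| ^ 2` is bounded and `Γ₀(M)` invariant.  Let
`qf z (m, n) = |m z + n| ^ 2 / Im z`, `Θ(t, z) = ∑_{m, n} exp(-π t qf z (m, n))`, so that
`Θ(t, z) = t⁻¹ Θ(t⁻¹, z)` and `Θ` is `SL(2, ℤ)` invariant, and
`Θ_M(t, z) = ∑_{M ∣ m, (n, M) = 1} exp(-π t qf z (m, n)) = ∑_{d ∣ M} μ(d) Θ(t M d, (M / d) z)`.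
Unfolding gives `∫ w G Θ_M(t, ·) = [M = 1] V + I(t)`,
`I(t) = ∑_{(k, M) = 1} ∫_0^∞ R(y) exp(-π t k ^ 2 / y) dy / y ^ 2`, `R(y) = ∫_0^1 G(x + i y) dx`.
The functional equation gives `I(t) = c / t - V' + O(t ^ (A - 1))`, `t → 0`, for all `A < 1`, and
the Mellin transform of `I` is
`π ^ (-s) Γ(s) ζ_M(2 s) ∫ R(y) y ^ (s - 2) dy = 8⁻¹ π ^ (-2 s) Γ(s / 2) ^ 4 ζ_M(2 s) ∑ r(n) n ^ (-s)`.
-/

set_option autoImplicit false

noncomputable section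

namespace Pool.Agent.MaassRS74

open UpperHalfPlane MeasureTheory ENNReal CongruenceSubgroup
open scoped MatrixGroups

/-- The Bessel function `K_0`. -/
def K0 (y : ℝ) : ℝ := ∫ t in Set.Ioi (0 : ℝ), Real.exp (-(y * Real.cosh t))

/-- The Whittaker function `√y K_0(2 π y)`. -/
def w0 (y : ℝ) : ℝ := Real.sqrt y * K0 (2 * Real.pi * y)

/-- The point `e z`. -/
def sc (e : ℕ) (z : ℍ) : ℍ := ofComplex (e * z)

/-- The quadratic form `|m z + n| ^ 2 / Im z`. -/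
def qf (z : ℍ) (v : ℤ × ℤ) : ℝ := ‖(v.1 : ℂ) * z + v.2‖ ^ 2 / z.im

/-- The theta function. -/
def th (t : ℝ) (z : ℍ) : ℝ≥0∞ :=
  ∑' v : ℤ × ℤ, ENNReal.ofReal (Real.exp (-(Real.pi * t * qf z v)))

open Classical in
/-- The theta function of level `M`. -/
def thN (M : ℕ) (t : ℝ) (z : ℍ) : ℝ≥0∞ :=
  ∑' v : ℤ × ℤ, if (M : ℤ) ∣ v.1 ∧ IsCoprime v.2 (M : ℤ) then
    ENNReal.ofReal (Real.exp (-(Real.pi * t * qf z v))) else 0

/-- The bottom rows of the elements of `Γ₀(M)`. -/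
def Row (M : ℕ) : Type := {v : ℤ × ℤ // IsCoprime v.1 v.2 ∧ (M : ℤ) ∣ v.1}

/-- The strip `0 ≤ Re z < 1`. -/
def strip : Set ℍ := {z | 0 ≤ z.re ∧ z.re < 1}

/-- The constant term. -/
def cterm (G : ℍ → ℝ) (y : ℝ) : ℝ := ∫ x in (0 : ℝ)..1, G (ofComplex (x + y * Complex.I))

open Classical in
/-- The unfolded theta integral. -/
def uth (M : ℕ) (G : ℍ → ℝ) (t : ℝ) : ℝ≥0∞ :=
  ∑' k : ℕ, if 0 < k ∧ k.Coprime M then
    ∫⁻ y in Set.Ioi (0 : ℝ), ENNReal.ofReal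
      (cterm G y * Real.exp (-(Real.pi * t * k ^ 2 / y)) / y ^ 2) else 0

/-- The input of the Rankin-Selberg method. -/
structure IsRS (M : ℕ) (G : ℍ → ℝ) (r : ℕ → ℝ) : Prop where
  continuous : Continuous G
  nonneg : ∀ z, 0 ≤ G z
  bdd : ∃ C : ℝ, ∀ z, G z ≤ C
  inv : ∀ γ ∈ Gamma0 M, ∀ z : ℍ, G (γ • z) = G z
  r_nonneg : ∀ n, 0 ≤ r n
  r_zero : r 0 = 0
  expansion : ∀ y : ℝ, 0 < y →
    HasSum (fun n : ℕ => r n * (y * K0 (2 * Real.pi * n * y) ^ 2)) (cterm G y)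

open Classical in
/-- The zeta function `∑ k ^ (-2 x)` over the `k` prime to `M`. -/
def zetaM (M : ℕ) (x : ℝ) : ℝ := ∑' k : ℕ, if k.Coprime M then (k : ℝ) ^ (-(2 * x)) else 0

end Pool.Agent.MaassRS74
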