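import Pool.Agent.W_7742r_h74.Defs

/-!
# Depletion

`depl N f = ∑_{e ∣ N} (μ(e) / e) ∑_{j < e} f(z + j / e)`.  Let `γ = (a, b; c, d) ∈ Γ₀(N ^ 3)` and
`e ∣ N`.  For `0 ≤ j < e` let `j'` be determined modulo `e` by `j' a ≡ j d` (`a` is prime to `c`,
hence to `e`).  Then
`(1, j/e; 0, 1) γ = γ' (1, j'/e; 0, 1)`,
`γ' = (a + j c / e, b + j d / e - j' a / e - j j' c / e ^ 2; c, d - j' c / e)`
is in `Γ₀(N)`, and its lower right entry is `≡ d` modulo `N` as `N ∣ c / e`.  The map `j ↦ j'` is a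
bijection modulo `e`, and `f(z + 1) = f(z)`.  So
`∑_j f(γ z + j / e) = ∑_j f(γ' (z + j' / e)) = χ(d) ∑_j f(z + j / e)`.
-/

set_option autoImplicit false

noncomputable section

namespace Pool.Agent.MaassRS74

open UpperHalfPlane CongruenceSubgroup
open scoped MatrixGroups

/-- Removing the Fourier coefficients whose index is not prime to `N`. -/
def depl (N : ℕ) (f : ℍ → ℂ) (z : ℍ) : ℂ :=
  ∑ e ∈ N.divisors, ((ArithmeticFunction.moebius e : ℂ) / e) *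
    ∑ j ∈ Finset.range e, f (ofComplex (z + j / e))

/-- One translate. -/
theorem HB_pt {N e : ℕ} (he : e ∣ N) (hN : 0 < N) {χ : DirichletCharacter ℂ N} {f : ℍ → ℂ}
    (hf : ∀ γ ∈ Gamma0 N, ∀ z : ℍ, f (γ • z) = χ ((γ 1 1 : ℤ) : ZMod N) * f z)
    (γ : SL(2, ℤ)) (hγ : γ ∈ Gamma0 (N ^ 3)) (z : ℍ) (j j' : ℕ)
    (hj : (e : ℤ) ∣ j * γ 1 1 - j' * γ 0 0) :
    f (ofComplex ((γ • z : ℍ) + (j : ℂ) / e)) = χ ((γ 1 1 : ℤ) : ZMod N) * f (ofComplex (z + (j' : ℂ) / e)) := by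
  obtain ⟨m, rfl⟩ := he
  have he0 : e ≠ 0 := by
    rintro rfl
    simp at hN
  have heC : (e : ℂ) ≠ 0 := by exact_mod_cast he0
  rw [Gamma0_mem, CharP.intCast_eq_zero_iff (ZMod ((e * m) ^ 3)) ((e * m) ^ 3)] at hγ
  obtain ⟨c₁, hc₁⟩ := hγ
  obtain ⟨q, hq⟩ := hj
  have hdet := Matrix.det_fin_two γ.1
  rw [γ.2] at hdet
  have hc : γ 1 0 = (e : ℤ) ^ 3 * m ^ 3 * c₁ := by
    rw [hc₁]
    push_cast
    ring
  -- the new matrix
  set A : ℤ := γ 0 0 + j * (e ^ 2 * m ^ 3 * c₁) with hA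
  set B : ℤ := γ 0 1 + q - j * j' * (e * m ^ 3 * c₁) with hB
  set D : ℤ := γ 1 1 - j' * (e ^ 2 * m ^ 3 * c₁) with hD
  have hdet' : A * D - B * γ 1 0 = 1 := by
    have h1 : γ.1 0 0 = γ 0 0 := rfl
    have h2 : γ.1 0 1 = γ 0 1 := rfl
    have h3 : γ.1 1 0 = γ 1 0 := rfl
    have h4 : γ.1 1 1 = γ 1 1 := rfl
    rw [h1, h2, h3, h4] at hdet
    rw [hA, hB, hD]
    rw [hc] at hdet ⊢
    linear_combination -hdet + (e : ℤ) ^ 2 * m ^ 3 * c₁ * hq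
  set γ' : SL(2, ℤ) := ⟨!![A, B; γ 1 0, D], by
    rw [Matrix.det_fin_two_of]
    exact hdet'⟩ with hγ'
  have g00 : γ' 0 0 = A := rfl
  have g01 : γ' 0 1 = B := rfl
  have g10 : γ' 1 0 = γ 1 0 := rfl
  have g11 : γ' 1 1 = D := rfl
  have hmem : γ' ∈ Gamma0 (e * m) := by
    rw [Gamma0_mem, CharP.intCast_eq_zero_iff (ZMod (e * m)) (e * m), g10, hc]
    refine ⟨e ^ 2 * m ^ 2 * c₁, ?_⟩
    push_cast
    ring
  have him : 0 < ((z : ℂ) + (j' : ℂ) / e).im := by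
    have h1 : ((j' : ℂ) / e).im = 0 := by
      rw [← Complex.ofReal_natCast, ← Complex.ofReal_natCast, ← Complex.ofReal_div, Complex.ofReal_im]
    rw [Complex.add_im, h1, add_zero]
    exact z.im_pos
  have hw : (ofComplex ((z : ℂ) + (j' : ℂ) / e) : ℂ) = (z : ℂ) + (j' : ℂ) / e := by
    rw [ofComplex_apply_of_im_pos him]
  have him2 : 0 < (((γ • z : ℍ) : ℂ) + (j : ℂ) / e).im := by
    have h1 : ((j : ℂ) / e).im = 0 := by
      rw [← Complex.ofReal_natCast, ← Complex.ofReal_natCast, ← Complex.ofReal_div, Complex.ofReal_im]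
    rw [Complex.add_im, h1, add_zero]
    exact (γ • z).im_pos
  have hw2 : (ofComplex (((γ • z : ℍ) : ℂ) + (j : ℂ) / e) : ℂ) = ((γ • z : ℍ) : ℂ) + (j : ℂ) / e := by
    rw [ofComplex_apply_of_im_pos him2]
  have hden : (γ 1 0 : ℂ) * z + (γ 1 1 : ℂ) ≠ 0 := by
    have h1 := UpperHalfPlane.denom_ne_zero (γ : GL (Fin 2) ℝ) z
    rw [ModularGroup.denom_apply] at h1
    exact h1
  have hact : ofComplex (((γ • z : ℍ) : ℂ) + (j : ℂ) / e) = γ' • ofComplex ((z : ℂ) + (j' : ℂ) / e) := by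
    apply UpperHalfPlane.ext
    rw [hw2, coe_specialLinearGroup_apply, coe_specialLinearGroup_apply, hw, g00, g01, g10, g11]
    simp only [algebraMap_int_eq, Int.coe_castRingHom, Complex.ofReal_intCast]
    have hcC : (γ 1 0 : ℂ) = (e : ℂ) ^ 3 * m ^ 3 * c₁ := by
      rw [hc]
      push_cast
      ring
    have hqC : (j : ℂ) * (γ 1 1 : ℂ) - j' * (γ 0 0 : ℂ) = e * q := by exact_mod_cast hq
    have hden2 : (γ 1 0 : ℂ) * (z + (j' : ℂ) / e) + (D : ℂ) = (γ 1 0 : ℂ) * z + (γ 1 1 : ℂ) := by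
      rw [hD, hcC]
      push_cast
      field_simp
      ring
    have hnum2 : (A : ℂ) * (z + (j' : ℂ) / e) + (B : ℂ) = (γ 0 0 : ℂ) * z + (γ 0 1 : ℂ) +
        (j : ℂ) / e * ((γ 1 0 : ℂ) * z + (γ 1 1 : ℂ)) := by
      have h5 : (q : ℂ) = ((j : ℂ) * (γ 1 1 : ℂ) - j' * (γ 0 0 : ℂ)) / e := by
        rw [hqC, mul_div_cancel_left₀ _ heC]
      rw [hA, hB, hcC]
      push_cast
      rw [h5]
      field_simp
      ring
    rw [hden2, hnum2, add_div ((γ 0 0 : ℂ) * z + (γ 0 1 : ℂ)) _ _, mul_div_cancel_right₀ _ hden]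
  rw [hact, hf γ' hmem]
  congr 2
  rw [g11, hD]
  push_cast
  have h6 : ((e : ℕ) : ZMod (e * m)) * ((m : ℕ) : ZMod (e * m)) = 0 := by
    rw [← Nat.cast_mul, ZMod.natCast_self]
  linear_combination (-(j' : ZMod (e * m)) * e * m ^ 2 * c₁) * h6

theorem depl_automorphic {N : ℕ} (hN : 0 < N) {χ : DirichletCharacter ℂ N} {f : ℍ → ℂ}
    (hf : ∀ γ ∈ Gamma0 N, ∀ z : ℍ, f (γ • z) = χ ((γ 1 1 : ℤ) : ZMod N) * f z) :
    ∀ γ ∈ Gamma0 (N ^ 3), ∀ z : ℍ, depl N f (γ • z) = χ ((γ 1 1 : ℤ) : ZMod N) * depl N f z := by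
  intro γ hγ z
  unfold depl
  rw [Finset.mul_sum]
  refine Finset.sum_congr rfl fun e he => ?_
  have heN : e ∣ N := Nat.dvd_of_mem_divisors he
  have he0 : 0 < e := Nat.pos_of_dvd_of_pos heN hN
  have heZ : (0 : ℤ) < e := by exact_mod_cast he0
  have hdet := Matrix.det_fin_two γ.1
  rw [γ.2] at hdet
  have hce : (e : ℤ) ∣ γ 1 0 := by
    have h1 := hγ
    rw [Gamma0_mem, CharP.intCast_eq_zero_iff (ZMod (N ^ 3)) (N ^ 3)] at h1
    refine dvd_trans ?_ h1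
    have h2 : e ∣ N ^ 3 := heN.trans (dvd_pow_self N (by norm_num))
    exact_mod_cast h2
  have had : (e : ℤ) ∣ γ 0 0 * γ 1 1 - 1 := by
    obtain ⟨k, hk⟩ := hce
    refine ⟨γ 0 1 * k, ?_⟩
    have h1 : γ.1 1 0 = e * k := hk
    rw [h1] at hdet
    linear_combination -hdet
  have hmod : ∀ j : ℕ, ∀ s : ℤ, ((((j : ℤ) * s) % e).toNat : ℤ) = ((j : ℤ) * s) % e := fun j s =>
    Int.toNat_of_nonneg (Int.emod_nonneg _ heZ.ne')
  have hlt : ∀ j : ℕ, ∀ s : ℤ, (((j : ℤ) * s) % e).toNat < e := by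
    intro j s
    have h1 := Int.emod_lt_of_pos ((j : ℤ) * s) heZ
    rw [← hmod] at h1
    exact_mod_cast h1
  have hinv : ∀ j : ℕ, j < e → ∀ s s' : ℤ, (e : ℤ) ∣ s * s' - 1 →
      ((((((j : ℤ) * s) % e).toNat : ℤ) * s') % e).toNat = j := by
    intro j hj s s' hs
    have h1 : ((((j : ℤ) * s) % e).toNat : ℤ) * s' ≡ (j : ℤ) [ZMOD e] := by
      rw [hmod]
      have h2 : (j : ℤ) * s % e * s' ≡ (j : ℤ) * s * s' [ZMOD e] := (Int.mod_modEq _ _).mul_right _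
      refine h2.trans ?_
      rw [Int.modEq_comm, Int.modEq_iff_dvd]
      obtain ⟨k, hk⟩ := hs
      exact ⟨j * k, by linear_combination (j : ℤ) * hk⟩
    have h3 : ((((j : ℤ) * s) % e).toNat : ℤ) * s' % e = j := by
      rw [h1]
      exact Int.emod_eq_of_lt (by positivity) (by exact_mod_cast hj)
    rw [h3, Int.toNat_natCast]
  have hsum : ∑ j ∈ Finset.range e, f (ofComplex ((γ • z : ℍ) + (j : ℂ) / e)) =
      ∑ j ∈ Finset.range e, χ ((γ 1 1 : ℤ) : ZMod N) * f (ofComplex (z + (j : ℂ) / e)) := by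
    refine Finset.sum_nbij' (fun j => (((j : ℤ) * γ 1 1 ^ 2) % e).toNat)
      (fun j => (((j : ℤ) * γ 0 0 ^ 2) % e).toNat) ?_ ?_ ?_ ?_ ?_
    · intro j _
      exact Finset.mem_range.2 (hlt j _)
    · intro j _
      exact Finset.mem_range.2 (hlt j _)
    · intro j hj
      refine hinv j (Finset.mem_range.1 hj) _ _ ?_
      obtain ⟨k, hk⟩ := had
      exact ⟨k * (γ 0 0 * γ 1 1 + 1), by linear_combination (γ 0 0 * γ 1 1 + 1) * hk⟩
    · intro j hj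
      refine hinv j (Finset.mem_range.1 hj) _ _ ?_
      obtain ⟨k, hk⟩ := had
      exact ⟨k * (γ 0 0 * γ 1 1 + 1), by linear_combination (γ 0 0 * γ 1 1 + 1) * hk⟩
    · intro j _
      refine HB_pt heN hN hf γ hγ z j _ ?_
      rw [hmod]
      have h2 : (e : ℤ) ∣ (j : ℤ) * γ 1 1 ^ 2 - (j : ℤ) * γ 1 1 ^ 2 % e := Int.dvd_self_sub_emod
      obtain ⟨k, hk⟩ := h2
      obtain ⟨l, hl⟩ := had
      exact ⟨k * γ 0 0 - j * γ 1 1 * l, by linear_combination γ 0 0 * hk - (j : ℤ) * γ 1 1 * hl⟩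
  rw [hsum, ← Finset.mul_sum]
  ring

end Pool.Agent.MaassRS74
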