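import Pool.Agent.W_7742r_h74.HopA
import Pool.Agent.W_7742r_h74.HopB
import Pool.Agent.W_7742m_h74.Heck

/-!
# Fourier coefficients of `upf` and `depl`

* `fc_upf`: `coord (upf m f) x y = ∑_b coord f ((x + b) / m) (y / m)` for `y > 0`, and
  `Pool.Agent.Maass74.fc_div`.
* `fc_depl`: `∫_0^1 e(-n x) g(x + j / e + i y) dx = e(n j / e) fc (coord g) n y` by periodicity,
  `(1 / e) ∑_{j < e} e(n j / e) = [e ∣ n]` and `∑_{e ∣ N} μ(e) [e ∣ n] = [(n, N) = 1]`.
* `continuous_upf`, `continuous_depl`: finite sums of compositions of continuous functions.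
-/

set_option autoImplicit false

noncomputable section

namespace Pool.Agent.MaassRS74

open UpperHalfPlane Pool.Agent.Maass74

theorem HopC_cont {h : ℍ → ℂ} (hc : Continuous h) (hp : ∀ z, 0 < (h z).im) :
    Continuous fun z => ofComplex (h z) := by
  refine UpperHalfPlane.isEmbedding_coe.continuous_iff.2 ?_
  have : ((fun z : ℍ => (z : ℂ)) ∘ fun z => ofComplex (h z)) = h := by
    funext z
    show ((ofComplex (h z) : ℍ) : ℂ) = h z
    rw [ofComplex_apply_of_im_pos (hp z)]
  rw [this]
  exact hc

theorem HopC_im {x y : ℝ} (hy : 0 < y) : 0 < ((x : ℂ) + y * Complex.I).im := by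
  simpa using hy

theorem HopC_coe {x y : ℝ} (hy : 0 < y) :
    ((ofComplex ((x : ℂ) + y * Complex.I) : ℍ) : ℂ) = (x : ℂ) + y * Complex.I := by
  rw [ofComplex_apply_of_im_pos (HopC_im hy)]

theorem HopC_coord_upf (f : ℍ → ℂ) (m : ℕ) (x : ℝ) {y : ℝ} (hy : 0 < y) :
    coord (upf m f) x y = ∑ b ∈ Finset.range m, coord f ((x + b) / m) (y / m) := by
  unfold coord upf
  rw [HopC_coe hy]
  refine Finset.sum_congr rfl fun b _ => ?_
  congr 2
  push_cast
  ring

theorem HopC_coord_depl (g : ℍ → ℂ) (N : ℕ) (x : ℝ) {y : ℝ} (hy : 0 < y) :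
    coord (depl N g) x y = ∑ e ∈ N.divisors, ((ArithmeticFunction.moebius e : ℂ) / e) *
      ∑ j ∈ Finset.range e, coord g (x + j / e) y := by
  unfold coord depl
  rw [HopC_coe hy]
  refine Finset.sum_congr rfl fun e _ => ?_
  congr 1
  refine Finset.sum_congr rfl fun j _ => ?_
  congr 2
  push_cast
  ring

/-- `∑_{j < e} e(n j / e)`. -/
theorem HopC_geom {e : ℕ} (he : 0 < e) (n : ℤ) :
    ∑ j ∈ Finset.range e, Complex.exp (2 * Real.pi * Complex.I * n * (j / e)) =
      if (e : ℤ) ∣ n then (e : ℂ) else 0 := by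
  have he0 : (e : ℂ) ≠ 0 := Nat.cast_ne_zero.2 he.ne'
  split_ifs with h
  · obtain ⟨k, hk⟩ := h
    have h1 : ∀ j ∈ Finset.range e,
        Complex.exp (2 * Real.pi * Complex.I * n * (j / e)) = 1 := by
      intro j _
      rw [Complex.exp_eq_one_iff]
      refine ⟨k * j, ?_⟩
      rw [hk]
      push_cast
      field_simp
    rw [Finset.sum_congr rfl h1]
    simp
  · set z : ℂ := Complex.exp (2 * Real.pi * Complex.I * n / e) with hz
    have h1 : ∀ j ∈ Finset.range e,
        Complex.exp (2 * Real.pi * Complex.I * n * (j / e)) = z ^ j := by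
      intro j _
      rw [hz, ← Complex.exp_nat_mul]
      congr 1
      ring
    rw [Finset.sum_congr rfl h1]
    have hz1 : z ≠ 1 := by
      intro h2
      rw [hz, Complex.exp_eq_one_iff] at h2
      obtain ⟨k, hk⟩ := h2
      apply h
      refine ⟨k, ?_⟩
      have hpi : (2 * Real.pi * Complex.I : ℂ) ≠ 0 := Complex.two_pi_I_ne_zero
      have h3 : (2 * Real.pi * Complex.I : ℂ) * n = (2 * Real.pi * Complex.I) * (e * k) := by
        rw [div_eq_iff he0] at hk
        rw [hk]
        ring
      have h4 := mul_left_cancel₀ hpi h3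
      exact_mod_cast h4
    have hze : z ^ e = 1 := by
      rw [hz, ← Complex.exp_nat_mul, Complex.exp_eq_one_iff]
      refine ⟨n, ?_⟩
      field_simp
    have h5 := mul_neg_geom_sum z e
    rw [hze, sub_self] at h5
    rcases mul_eq_zero.1 h5 with h6 | h6
    · exact absurd (sub_eq_zero.1 h6).symm hz1
    · exact h6

theorem HopC_moebius {N : ℕ} (hN : 0 < N) (n : ℤ) :
    ∑ e ∈ N.divisors, (if (e : ℤ) ∣ n then (ArithmeticFunction.moebius e : ℂ) else 0) =
      if IsCoprime n (N : ℤ) then 1 else 0 := by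
  have h1 : N.divisors.filter (fun e : ℕ => (e : ℤ) ∣ n) = (Nat.gcd n.natAbs N).divisors := by
    ext e
    rw [Finset.mem_filter, Nat.mem_divisors, Nat.mem_divisors, Nat.dvd_gcd_iff, Int.natCast_dvd]
    constructor
    · rintro ⟨⟨h2, h3⟩, h4⟩
      exact ⟨⟨h4, h2⟩, (Nat.gcd_pos_of_pos_right _ hN).ne'⟩
    · rintro ⟨⟨h2, h3⟩, h4⟩
      exact ⟨⟨h3, hN.ne'⟩, h2⟩
  rw [← Finset.sum_filter, h1]
  have h2 : ∑ e ∈ (Nat.gcd n.natAbs N).divisors, ArithmeticFunction.moebius e =
      if Nat.gcd n.natAbs N = 1 then 1 else 0 := by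
    rw [← ArithmeticFunction.coe_mul_zeta_apply, ArithmeticFunction.moebius_mul_coe_zeta,
      ArithmeticFunction.one_apply]
  have h3 : IsCoprime n (N : ℤ) ↔ Nat.gcd n.natAbs N = 1 := by
    rw [Int.isCoprime_iff_gcd_eq_one, Int.gcd]
    simp
  have h4 : ∑ e ∈ (Nat.gcd n.natAbs N).divisors, ((ArithmeticFunction.moebius e : ℤ) : ℂ) =
      ((∑ e ∈ (Nat.gcd n.natAbs N).divisors, ArithmeticFunction.moebius e : ℤ) : ℂ) := by
    push_cast
    rfl
  rw [h4, h2]
  by_cases h5 : Nat.gcd n.natAbs N = 1
  · rw [if_pos h5, if_pos (h3.2 h5)]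
    simp
  · rw [if_neg h5, if_neg (fun h6 => h5 (h3.1 h6))]
    simp

theorem continuous_upf {f : ℍ → ℂ} (hf : Continuous f) (m : ℕ) : Continuous (upf m f) := by
  rcases Nat.eq_zero_or_pos m with rfl | hm
  · have : upf 0 f = fun _ => 0 := by
      funext z
      unfold upf
      simp
    rw [this]
    exact continuous_const
  · have : upf m f = fun z : ℍ => ∑ b ∈ Finset.range m, f (ofComplex ((z + b) / m)) := rfl
    rw [this]
    refine continuous_finsetSum _ fun b _ => hf.comp (HopC_cont ?_ ?_)
    · exact (UpperHalfPlane.continuous_coe.add continuous_const).div_const _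
    · intro z
      have h1 : ((((z : ℍ) : ℂ) + b) / m).im = z.im / m := by
        rw [Complex.div_natCast_im]
        simp
      rw [h1]
      exact div_pos z.im_pos (Nat.cast_pos.2 hm)

theorem continuous_depl {f : ℍ → ℂ} (hf : Continuous f) (N : ℕ) : Continuous (depl N f) := by
  have : depl N f = fun z : ℍ => ∑ e ∈ N.divisors, ((ArithmeticFunction.moebius e : ℂ) / e) *
      ∑ j ∈ Finset.range e, f (ofComplex (z + j / e)) := rfl
  rw [this]
  refine continuous_finsetSum _ fun e _ => continuous_const.mul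
    (continuous_finsetSum _ fun j _ => hf.comp (HopC_cont ?_ ?_))
  · exact UpperHalfPlane.continuous_coe.add continuous_const
  · intro z
    have h1 : (((z : ℍ) : ℂ) + (j : ℂ) / (e : ℂ)).im = z.im := by
      rw [Complex.add_im, Complex.div_natCast_im]
      simp
    rw [h1]
    exact z.im_pos

theorem fc_upf {f : ℍ → ℂ} (hf : IsWave (coord f)) {m : ℕ} (hm : 0 < m) (n : ℤ) {y : ℝ}
    (hy : 0 < y) : fc (coord (upf m f)) n y = m * fc (coord f) (n * m) (y / m) := by
  have h := fc_div hf hm n hy
  rw [← h]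
  unfold fc
  refine intervalIntegral.integral_congr fun x _ => ?_
  show _ * coord (upf m f) x y = _
  rw [HopC_coord_upf f m x hy]

open Classical in
theorem fc_depl {g : ℍ → ℂ} (hg : Continuous g)
    (hp : ∀ x y : ℝ, 0 < y → coord g (x + 1) y = coord g x y) {N : ℕ} (hN : 0 < N) (n : ℤ)
    {y : ℝ} (hy : 0 < y) :
    fc (coord (depl N g)) n y = if IsCoprime n (N : ℤ) then fc (coord g) n y else 0 := by
  have hgc : Continuous fun x : ℝ => coord g x y := by
    unfold coord
    refine hg.comp ?_
    refine UpperHalfPlane.isEmbedding_coe.continuous_iff.2 ?_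
    have : ((fun z : ℍ => (z : ℂ)) ∘ fun x : ℝ => ofComplex ((x : ℂ) + y * Complex.I)) =
        fun x : ℝ => (x : ℂ) + y * Complex.I := by
      funext x
      exact HopC_coe hy
    rw [this]
    exact Complex.continuous_ofReal.add continuous_const
  have hexp : Continuous fun x : ℝ => Complex.exp (-(2 * Real.pi * Complex.I * n * x)) := by
    fun_prop
  -- one translate
  have hone : ∀ s : ℝ, ∫ x in (0 : ℝ)..1,
      Complex.exp (-(2 * Real.pi * Complex.I * n * x)) * coord g (x + s) y =
      Complex.exp (2 * Real.pi * Complex.I * n * s) * fc (coord g) n y := by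
    intro s
    set φ : ℝ → ℂ := fun x => Complex.exp (-(2 * Real.pi * Complex.I * n * x)) * coord g x y
      with hφ
    have hper : Function.Periodic φ 1 := by
      intro x
      rw [hφ]
      simp only
      rw [hp x y hy]
      congr 1
      rw [Complex.exp_eq_exp_iff_exists_int]
      refine ⟨-n, ?_⟩
      push_cast
      ring
    have h1 : ∀ x : ℝ, Complex.exp (-(2 * Real.pi * Complex.I * n * x)) * coord g (x + s) y =
        Complex.exp (2 * Real.pi * Complex.I * n * s) * φ (x + s) := by
      intro x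
      rw [hφ]
      simp only
      rw [← mul_assoc, ← Complex.exp_add]
      congr 2
      push_cast
      ring
    simp_rw [h1]
    rw [intervalIntegral.integral_const_mul, intervalIntegral.integral_comp_add_right]
    have h2 := hper.intervalIntegral_add_eq s 0
    rw [zero_add] at h2
    rw [zero_add, add_comm 1 s, h2]
    rfl
  have hint : ∀ s : ℝ, IntervalIntegrable (fun x : ℝ =>
      Complex.exp (-(2 * Real.pi * Complex.I * n * x)) * coord g (x + s) y)
      MeasureTheory.volume 0 1 := fun s =>
    (hexp.mul (hgc.comp (continuous_id.add continuous_const))).intervalIntegrable _ _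
  have h1 : fc (coord (depl N g)) n y = ∫ x in (0 : ℝ)..1,
      ∑ e ∈ N.divisors, ∑ j ∈ Finset.range e, ((ArithmeticFunction.moebius e : ℂ) / e) *
        (Complex.exp (-(2 * Real.pi * Complex.I * n * x)) * coord g (x + ((j / e : ℝ))) y) := by
    unfold fc
    refine intervalIntegral.integral_congr fun x _ => ?_
    show _ * coord (depl N g) x y = _
    rw [HopC_coord_depl g N x hy, Finset.mul_sum]
    refine Finset.sum_congr rfl fun e _ => ?_
    rw [Finset.mul_sum, Finset.mul_sum]
    refine Finset.sum_congr rfl fun j _ => ?_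
    ring
  rw [h1, intervalIntegral.integral_finsetSum]
  swap
  · intro e _
    refine Continuous.intervalIntegrable ?_ _ _
    refine continuous_finsetSum _ fun j _ => continuous_const.mul ?_
    exact hexp.mul (hgc.comp (continuous_id.add continuous_const))
  have h2 : ∀ e ∈ N.divisors, ∫ x in (0 : ℝ)..1,
      ∑ j ∈ Finset.range e, ((ArithmeticFunction.moebius e : ℂ) / e) *
        (Complex.exp (-(2 * Real.pi * Complex.I * n * x)) * coord g (x + ((j / e : ℝ))) y) =
      (if (e : ℤ) ∣ n then (ArithmeticFunction.moebius e : ℂ) else 0) * fc (coord g) n y := by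
    intro e he
    have he0 : 0 < e := Nat.pos_of_mem_divisors he
    have heC : (e : ℂ) ≠ 0 := Nat.cast_ne_zero.2 he0.ne'
    rw [intervalIntegral.integral_finsetSum]
    swap
    · intro j _
      exact (hint _).const_mul _
    have h3 : ∀ j ∈ Finset.range e, ∫ x in (0 : ℝ)..1, ((ArithmeticFunction.moebius e : ℂ) / e) *
        (Complex.exp (-(2 * Real.pi * Complex.I * n * x)) * coord g (x + ((j / e : ℝ))) y) =
        ((ArithmeticFunction.moebius e : ℂ) / e) * fc (coord g) n y *
          Complex.exp (2 * Real.pi * Complex.I * n * (j / e)) := by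
      intro j _
      rw [intervalIntegral.integral_const_mul, hone]
      push_cast
      ring
    rw [Finset.sum_congr rfl h3, ← Finset.mul_sum, HopC_geom he0]
    split_ifs
    · field_simp
    · ring
  rw [Finset.sum_congr rfl h2, ← Finset.sum_mul, HopC_moebius hN]
  split_ifs
  · ring
  · ring

end Pool.Agent.MaassRS74
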