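import Pool.Agent.W_7742r_h74.CoefK
import Pool.Agent.W_7742r_h74.HopC
import Pool.Agent.W_7742m_h74.Frm

/-!
# From Maass forms to Rankin-Selberg data

Let `f` be the form and `c` its coefficients (`exists_expansion_K0` for `coord f`, `isWave_coord`,
`Pool.Agent.Maass74.hecke_coord`-type rewriting as in `Pool/Agent/W_7742m_h74/Main.lean` and
`coeff_hecke`): `c (n p) + χ(p) [p ∣ n] c (n / p) = a p c n` for primes `p ∤ N`.  So
`c (n p ^ j) = lam (a p) (χ p) j * c n` for `p ∤ n` (induction on `j`), and writing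
`n₀ = ± m n'` with `c n₀ ≠ 0`, `m > 0` composed of primes dividing `N` and `n'` prime to `N`, we
get `c (± m) ≠ 0`.

Let `f₂ = depl N (upf m f)`, `G = ‖f₂‖ ^ 2` and
`r n = m (‖c (n m)‖ ^ 2 + ‖c (-n m)‖ ^ 2)` if `n ≥ 1` is prime to `N`, `r n = 0` otherwise.

* `G` is continuous, bounded (`f` is bounded) and invariant under `Γ₀(N ^ 3)`
  (`upf_automorphic`, `depl_automorphic`, `‖χ d‖ = 1`).
* `fc (coord f₂) n y = [(n, N) = 1] m fc (coord f) (n m) (y / m)
   = [(n, N) = 1] m c (n m) w0(|n| y) / √(|n| m)`, the square of the absolute value is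
  `[(n, N) = 1] m ‖c (n m)‖ ^ 2 y K0(2 π |n| y) ^ 2`, and Parseval (`hasSum_sq_fourierCoeffOn`, see
  `Pool/Agent/W_7742m_h74/FouB.lean`) gives `expansion`.
-/

set_option autoImplicit false

noncomputable section

namespace Pool.Agent.MaassRS74

open UpperHalfPlane CongruenceSubgroup Pool.Agent.Maass74
open scoped MatrixGroups

/-- The Hecke eigenvalues at `p ^ j`: `lam 0 = 1`, `lam 1 = a`,
`lam (j + 2) = a * lam (j + 1) - w * lam j`. -/
def lam (a w : ℂ) : ℕ → ℂ
  | 0 => 1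
  | 1 => a
  | (j + 2) => a * lam a w (j + 1) - w * lam a w j

/-- The power sums: `psum 0 = 2`, `psum 1 = a`, `psum (j + 2) = a * psum (j + 1) - w * psum j`. -/
def psum (a w : ℂ) : ℕ → ℂ
  | 0 => 2
  | 1 => a
  | (j + 2) => a * psum a w (j + 1) - w * psum a w j

theorem ExRS_hecke_coord {N : ℕ} {χ : DirichletCharacter ℂ N} {f : ℍ → ℂ} {p : ℕ} (hp : 0 < p)
    {a : ℂ} (h : ∀ z, hecke χ p f z = a * f z) (x y : ℝ) (hy : 0 < y) :
    χ p * coord f (p * x) (p * y) + ∑ b ∈ Finset.range p, coord f ((x + b) / p) (y / p) =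
      (Real.sqrt p : ℂ) * a * coord f x y := by
  have hz : 0 < ((x : ℂ) + y * Complex.I).im := by simpa using hy
  have h1 := h ⟨(x : ℂ) + y * Complex.I, hz⟩
  have hsq : (Real.sqrt p : ℂ) ≠ 0 := by
    have : Real.sqrt (p : ℝ) ≠ 0 := Real.sqrt_ne_zero'.2 (by exact_mod_cast hp)
    exact_mod_cast this
  unfold hecke at h1
  rw [div_eq_iff hsq] at h1
  have h2 : f ⟨(x : ℂ) + y * Complex.I, hz⟩ = coord f x y := by
    unfold coord
    rw [ofComplex_apply_of_im_pos hz]
  rw [h2] at h1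
  have h3 : coord f (p * x) (p * y) =
      f (ofComplex (p * ((⟨(x : ℂ) + y * Complex.I, hz⟩ : ℍ) : ℂ))) := by
    unfold coord
    congr 2
    push_cast
    ring
  have h4 : ∀ b : ℕ, coord f ((x + b) / p) (y / p) =
      f (ofComplex (((⟨(x : ℂ) + y * Complex.I, hz⟩ : ℍ) + b) / p)) := by
    intro b
    unfold coord
    congr 2
    push_cast
    ring
  rw [h3, Finset.sum_congr rfl fun b _ => h4 b, h1]
  ring

theorem ExRS_norm_char {N : ℕ} (χ : DirichletCharacter ℂ N) {γ : SL(2, ℤ)} (hγ : γ ∈ Gamma0 N) :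
    ‖χ ((γ 1 1 : ℤ) : ZMod N)‖ = 1 := by
  have hu : IsUnit ((γ 1 1 : ℤ) : ZMod N) := by
    have hc : ((γ 1 0 : ℤ) : ZMod N) = 0 := Gamma0_mem.1 hγ
    have hdet : γ 0 0 * γ 1 1 - γ 0 1 * γ 1 0 = 1 := by
      have h := γ.det_coe
      rw [Matrix.det_fin_two] at h
      exact h
    have h : ((γ 0 0 : ℤ) : ZMod N) * ((γ 1 1 : ℤ) : ZMod N) = 1 := by
      have h1 := congrArg (Int.cast : ℤ → ZMod N) hdet
      rw [Int.cast_sub, Int.cast_mul, Int.cast_mul, hc, mul_zero, sub_zero, Int.cast_one] at h1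
      exact h1
    exact IsUnit.of_mul_eq_one _ (by rw [mul_comm]; exact h)
  obtain ⟨u, hu⟩ := hu
  rw [← hu, DirichletCharacter.unit_norm_eq_one]

theorem ExRS_gamma {N : ℕ} {γ : SL(2, ℤ)} (hγ : γ ∈ Gamma0 (N ^ 3)) : γ ∈ Gamma0 N := by
  rw [Gamma0_mem, ZMod.intCast_zmod_eq_zero_iff_dvd] at hγ ⊢
  refine dvd_trans ?_ hγ
  push_cast
  exact dvd_pow_self _ (by norm_num)

theorem ExRS_periodic {N : ℕ} {χ : DirichletCharacter ℂ N} {g : ℍ → ℂ}
    (hg : ∀ γ ∈ Gamma0 N, ∀ z : ℍ, g (γ • z) = χ ((γ 1 1 : ℤ) : ZMod N) * g z) (x y : ℝ)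
    (hy : 0 < y) : coord g (x + 1) y = coord g x y := by
  obtain ⟨z, hz⟩ : ∃ z : ℍ, (z : ℂ) = x + y * Complex.I := by
    refine ⟨⟨x + y * Complex.I, ?_⟩, rfl⟩
    simpa using hy
  have h1 : ModularGroup.T ∈ Gamma0 N := by
    rw [Gamma0_mem]
    simp [ModularGroup.T]
  have h2 := hg _ h1 z
  have h3 : (ModularGroup.T 1 1 : ℤ) = 1 := by
    simp [ModularGroup.T]
  rw [h3, Int.cast_one, map_one, one_mul] at h2
  have h4 : ((ModularGroup.T • z : ℍ) : ℂ) = ((x + 1 : ℝ) : ℂ) + y * Complex.I := by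
    have h5 := ModularGroup.coe_T_zpow_smul_eq (z := z) (n := 1)
    rw [zpow_one] at h5
    rw [h5, hz]
    push_cast
    ring
  unfold coord
  rw [← h4, ← hz, ofComplex_apply, ofComplex_apply]
  exact h2

theorem ExRS_pow {c : ℤ → ℂ} {p : ℕ} (hp : p.Prime) {w a : ℂ}
    (hc : ∀ n : ℤ, c (n * p) + w * (if (p : ℤ) ∣ n then c (n / p) else 0) = a * c n)
    {n : ℤ} (hn : ¬ (p : ℤ) ∣ n) : ∀ j : ℕ, c (n * (p : ℤ) ^ j) = lam a w j * c n ∧
      c (n * (p : ℤ) ^ (j + 1)) = lam a w (j + 1) * c n := by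
  have hp0 : (p : ℤ) ≠ 0 := by exact_mod_cast hp.ne_zero
  intro j
  induction j with
  | zero =>
    constructor
    · simp [lam]
    · have h1 := hc n
      rw [if_neg hn, mul_zero, add_zero] at h1
      simpa [lam] using h1
  | succ j ih =>
    refine ⟨ih.2, ?_⟩
    have h1 := hc (n * (p : ℤ) ^ (j + 1))
    have h2 : (p : ℤ) ∣ n * (p : ℤ) ^ (j + 1) := by
      rw [pow_succ]
      exact Dvd.intro_left (n * (p : ℤ) ^ j) (by ring)
    have h3 : n * (p : ℤ) ^ (j + 1) / p = n * (p : ℤ) ^ j := by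
      rw [pow_succ, ← mul_assoc]
      exact Int.mul_ediv_cancel _ hp0
    rw [if_pos h2, h3, ih.1, ih.2] at h1
    have h4 : n * (p : ℤ) ^ (j + 1 + 1) = n * (p : ℤ) ^ (j + 1) * p := by ring
    rw [h4]
    show _ = (a * lam a w (j + 1) - w * lam a w j) * c n
    linear_combination h1

theorem ExRS_upf_bdd {f : ℍ → ℂ} {C : ℝ} (hC : ∀ z, ‖f z‖ ≤ C) (m : ℕ) (z : ℍ) :
    ‖upf m f z‖ ≤ m * C := by
  unfold upf
  refine (norm_sum_le _ _).trans ?_
  refine (Finset.sum_le_sum fun b _ => hC _).trans ?_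
  rw [Finset.sum_const, Finset.card_range, nsmul_eq_mul]

theorem ExRS_depl_bdd {f : ℍ → ℂ} {C : ℝ} (hC : ∀ z, ‖f z‖ ≤ C) (N : ℕ) (z : ℍ) :
    ‖depl N f z‖ ≤ ∑ e ∈ N.divisors, ‖((ArithmeticFunction.moebius e : ℂ) / e)‖ * (e * C) := by
  unfold depl
  refine (norm_sum_le _ _).trans ?_
  refine Finset.sum_le_sum fun e _ => ?_
  rw [norm_mul]
  refine mul_le_mul_of_nonneg_left ?_ (norm_nonneg _)
  refine (norm_sum_le _ _).trans ?_
  refine (Finset.sum_le_sum fun b _ => hC _).trans ?_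
  rw [Finset.sum_const, Finset.card_range, nsmul_eq_mul]

theorem ExRS_parseval {g : ℍ → ℂ} (hg : Continuous g) {C : ℝ} (hC : ∀ z, ‖g z‖ ≤ C) {y : ℝ}
    (hy : 0 < y) :
    HasSum (fun n : ℤ => ‖fc (coord g) n y‖ ^ 2) (∫ x in (0 : ℝ)..1, ‖coord g x y‖ ^ 2) := by
  have hc : Continuous fun x : ℝ => coord g x y := by
    have h1 : (fun x : ℝ => coord g x y) = fun x : ℝ => g ⟨(x : ℂ) + y * Complex.I, by
        simpa using hy⟩ := by
      funext x
      unfold coord
      rw [ofComplex_apply_of_im_pos (by simpa using hy)]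
    rw [h1]
    refine hg.comp ?_
    rw [UpperHalfPlane.isOpenEmbedding_coe.isInducing.continuous_iff]
    exact (Complex.continuous_ofReal.add continuous_const)
  have hL2 : MeasureTheory.MemLp (fun x => coord g x y) 2
      (MeasureTheory.volume.restrict (Set.Ioc (0 : ℝ) 1)) :=
    MeasureTheory.MemLp.of_bound hc.aestronglyMeasurable C
      (Filter.Eventually.of_forall fun x => hC _)
  have h := hasSum_sq_fourierCoeffOn (zero_lt_one (α := ℝ)) hL2
  rw [sub_zero, inv_one, one_smul] at h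
  have h2 : (fun n : ℤ => ‖fourierCoeffOn (zero_lt_one (α := ℝ)) (fun x => coord g x y) n‖ ^ 2) =
      fun n : ℤ => ‖fc (coord g) n y‖ ^ 2 := by
    funext n
    rw [FouB_eq]
  rwa [h2] at h

theorem ExRS_term {c : ℤ → ℂ} {m : ℕ} (hm : 0 < m) {y : ℝ} (hy : 0 < y) {n : ℤ} {k : ℕ}
    (hk : 0 < k) (hn : |(n : ℝ)| = k) :
    ‖(m : ℂ) * (c (n * m) * (w0 (|((n * m : ℤ) : ℝ)| * (y / m)) : ℂ) /
      (Real.sqrt |((n * m : ℤ) : ℝ)| : ℂ))‖ ^ 2 =
      m * ‖c (n * m)‖ ^ 2 * (y * K0 (2 * Real.pi * k * y) ^ 2) := by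
  have hm' : (0 : ℝ) < m := by exact_mod_cast hm
  have hk' : (0 : ℝ) < k := by exact_mod_cast hk
  have h1 : |((n * m : ℤ) : ℝ)| = k * m := by
    push_cast
    rw [abs_mul, hn, abs_of_pos hm']
  have h2 : (k : ℝ) * m * (y / m) = k * y := by
    field_simp
  rw [h1, h2]
  unfold w0
  have h3 : (k : ℝ) * m ≠ 0 := by positivity
  rw [norm_mul, norm_div, norm_mul, Complex.norm_natCast, Complex.norm_real, Complex.norm_real,
    Real.norm_eq_abs, Real.norm_eq_abs, mul_pow, div_pow, mul_pow, sq_abs, sq_abs, mul_pow,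
    Real.sq_sqrt (by positivity), Real.sq_sqrt (by positivity)]
  have h4 : 2 * Real.pi * ((k : ℝ) * y) = 2 * Real.pi * k * y := by ring
  rw [h4]
  field_simp

theorem exists_rs {N : ℕ} [NeZero N] {χ : DirichletCharacter ℂ N} {a : ℕ → ℂ}
    (h : IsMaassEigensystem N χ a) : ∃ (G : ℍ → ℝ) (r : ℕ → ℝ), IsRS (N ^ 3) G r ∧ 0 < r 1 ∧
      (∀ n : ℕ, ¬ n.Coprime N → r n = 0) ∧
      ∀ p : ℕ, p.Prime → ¬ p ∣ N → ∀ j n : ℕ, ¬ p ∣ n →
        r (p ^ j * n) = ‖lam (a p) (χ p) j‖ ^ 2 * r n := by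
  classical
  obtain ⟨f, hf, ⟨z, hz⟩, hT⟩ := h
  have hN : 0 < N := Nat.pos_of_ne_zero (NeZero.ne N)
  have hW := isWave_coord hf
  have hne : ∃ x y : ℝ, 0 < y ∧ coord f x y ≠ 0 := by
    refine ⟨z.re, z.im, z.im_pos, ?_⟩
    rw [Frm_coord_eq]
    exact hz
  obtain ⟨c, hE⟩ := exists_expansion_K0 hW hne
  have hR : ∀ p : ℕ, p.Prime → ¬ p ∣ N → ∀ n : ℤ,
      c (n * p) + χ p * (if (p : ℤ) ∣ n then c (n / p) else 0) = a p * c n := fun p hp hpN n =>
    coeff_hecke hW hE hp.pos (ExRS_hecke_coord hp.pos (hT p hp hpN)) n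
  -- the minimal index
  have hex : ∃ k : ℕ, 0 < k ∧ (c k ≠ 0 ∨ c (-k) ≠ 0) := by
    obtain ⟨n₀, hn₀⟩ := hE.ne_zero
    have h0 : n₀ ≠ 0 := by
      rintro rfl
      exact hn₀ hE.zero
    refine ⟨n₀.natAbs, Int.natAbs_pos.2 h0, ?_⟩
    rcases Int.natAbs_eq n₀ with h1 | h1
    · left
      rw [← h1]
      exact hn₀
    · right
      rw [← h1]
      exact hn₀
  obtain ⟨m, ⟨hm, hcm⟩, hmin⟩ : ∃ m : ℕ, (0 < m ∧ (c m ≠ 0 ∨ c (-m) ≠ 0)) ∧
      ∀ k : ℕ, k < m → ¬ (0 < k ∧ (c k ≠ 0 ∨ c (-k) ≠ 0)) :=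
    ⟨Nat.find hex, Nat.find_spec hex, fun k hk => Nat.find_min hex hk⟩
  have hmN : ∀ p : ℕ, p.Prime → p ∣ m → p ∣ N := by
    intro p hp hpm
    by_contra hpN
    obtain ⟨k, hk⟩ := hpm
    have hk0 : 0 < k := by
      rcases Nat.eq_zero_or_pos k with h | h
      · rw [h, mul_zero] at hk
        omega
      · exact h
    have hlt : ∀ i : ℕ, 0 < i → i ≤ k → c i = 0 ∧ c (-i) = 0 := by
      intro i hi hik
      have h1 : i < m := by
        rw [hk]
        have := hp.two_le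
        nlinarith
      have h2 := hmin i h1
      push Not at h2
      exact h2 hi
    have hs : ∀ s : ℤ, (s = 1 ∨ s = -1) → c (s * m) = 0 := by
      intro s hs
      have hzero : ∀ i : ℕ, 0 < i → i ≤ k → c (s * i) = 0 := by
        intro i hi hik
        rcases hs with rfl | rfl
        · rw [one_mul]
          exact (hlt i hi hik).1
        · rw [neg_one_mul]
          exact (hlt i hi hik).2
      have h1 := hR p hp hpN (s * k)
      rw [hzero k hk0 le_rfl, mul_zero] at h1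
      have h2 : (if (p : ℤ) ∣ s * k then c (s * k / p) else 0) = 0 := by
        split_ifs with hd
        · have hd' : p ∣ k := by
            rcases hs with rfl | rfl
            · rw [one_mul] at hd
              exact_mod_cast hd
            · rw [neg_one_mul, dvd_neg] at hd
              exact_mod_cast hd
          obtain ⟨i, hi⟩ := hd'
          have hi0 : 0 < i := by
            rcases Nat.eq_zero_or_pos i with h | h
            · rw [h, mul_zero] at hi
              omega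
            · exact h
          have h3 : s * (k : ℤ) / p = s * i := by
            rw [hi]
            push_cast
            rw [show s * ((p : ℤ) * i) = s * i * p by ring]
            exact Int.mul_ediv_cancel _ (by exact_mod_cast hp.ne_zero)
          rw [h3]
          refine hzero i hi0 ?_
          rw [hi]
          exact Nat.le_mul_of_pos_left _ hp.pos
        · rfl
      rw [h2, mul_zero, add_zero] at h1
      have h3 : s * (m : ℤ) = s * k * p := by
        rw [hk]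
        push_cast
        ring
      rw [h3]
      exact h1
    rcases hcm with h1 | h1
    · exact h1 (by have := hs 1 (Or.inl rfl); rwa [one_mul] at this)
    · exact h1 (by have := hs (-1) (Or.inr rfl); rwa [neg_one_mul] at this)
  -- the functions
  obtain ⟨C, hC⟩ := bounded hf
  have hcf := continuous_form hf
  have hcu := continuous_upf hcf m
  have hcd := continuous_depl hcu N
  have hu := upf_automorphic hf.automorphic hm hmN
  have hd := depl_automorphic hN hu
  have hub := ExRS_upf_bdd hC m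
  have hdb := ExRS_depl_bdd hub N
  set f₂ : ℍ → ℂ := depl N (upf m f) with hf₂
  set B : ℝ := ∑ e ∈ N.divisors, ‖((ArithmeticFunction.moebius e : ℂ) / e)‖ * (e * (m * C)) with hB
  set r : ℕ → ℝ := fun n => if 0 < n ∧ n.Coprime N then
    m * (‖c (n * m)‖ ^ 2 + ‖c (-n * m)‖ ^ 2) else 0 with hr
  have hm' : (0 : ℝ) < m := by exact_mod_cast hm
  refine ⟨fun z => ‖f₂ z‖ ^ 2, r, ⟨?_, ?_, ?_, ?_, ?_, ?_, ?_⟩, ?_, ?_, ?_⟩
  · exact hcd.norm.pow 2
  · intro z
    positivity
  · exact ⟨B ^ 2, fun z => pow_le_pow_left₀ (norm_nonneg _) (hdb z) 2⟩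
  · intro γ hγ z
    show ‖f₂ (γ • z)‖ ^ 2 = ‖f₂ z‖ ^ 2
    rw [hd γ hγ z, norm_mul, ExRS_norm_char χ (ExRS_gamma hγ), one_mul]
  · intro n
    show 0 ≤ r n
    rw [hr]
    simp only
    split_ifs
    · positivity
    · exact le_rfl
  · rw [hr]
    simp
  · intro y hy
    have hp := ExRS_parseval hcd hdb hy
    have hfc : ∀ n : ℤ, fc (coord f₂) n y = if IsCoprime n (N : ℤ) then
        (m : ℂ) * (c (n * m) * (w0 (|((n * m : ℤ) : ℝ)| * (y / m)) : ℂ) /
          (Real.sqrt |((n * m : ℤ) : ℝ)| : ℂ)) else 0 := by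
      intro n
      rw [hf₂, fc_depl hcu (ExRS_periodic hu) hN n hy]
      split_ifs
      · rw [fc_upf hW hm n hy, hE.eq (n * m) (y / m) (by positivity)]
      · rfl
    have h0 : fc (coord f₂) 0 y = 0 := by
      rw [hfc 0]
      split_ifs
      · rw [zero_mul, hE.zero]
        simp
      · rfl
    have h1 := hp.nat_add_neg
    rw [h0, norm_zero] at h1
    have h2 : (∫ x in (0 : ℝ)..1, ‖coord f₂ x y‖ ^ 2) + (0 : ℝ) ^ 2 =
        cterm (fun z => ‖f₂ z‖ ^ 2) y := by
      rw [zero_pow two_ne_zero, add_zero]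
      rfl
    rw [h2] at h1
    convert h1 using 1
    funext n
    rcases Nat.eq_zero_or_pos n with rfl | hn
    · have h3 : r 0 = 0 := by
        rw [hr]
        simp
      rw [h3]
      simp [h0]
    · have hab : |((n : ℤ) : ℝ)| = n := by
        rw [Int.cast_natCast]
        exact Nat.abs_cast n
      have hab' : |((-(n : ℤ) : ℤ) : ℝ)| = n := by
        rw [Int.cast_neg, abs_neg, Int.cast_natCast]
        exact Nat.abs_cast n
      rw [hfc n, hfc (-n)]
      have hco : IsCoprime (n : ℤ) (N : ℤ) ↔ n.Coprime N := Nat.isCoprime_iff_coprime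
      have hco' : IsCoprime (-(n : ℤ)) (N : ℤ) ↔ n.Coprime N := by
        rw [IsCoprime.neg_left_iff, hco]
      by_cases hnN : n.Coprime N
      · rw [if_pos (hco.2 hnN), if_pos (hco'.2 hnN), ExRS_term hm hy hn hab,
          ExRS_term hm hy hn hab', hr]
        simp only [if_pos (And.intro hn hnN)]
        ring
      · rw [if_neg (fun h => hnN (hco.1 h)), if_neg (fun h => hnN (hco'.1 h)), hr]
        simp only [if_neg (fun h : 0 < n ∧ n.Coprime N => hnN h.2)]
        simp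
  · show 0 < r 1
    have h1 : r 1 = m * (‖c m‖ ^ 2 + ‖c (-m)‖ ^ 2) := by
      rw [hr]
      simp
    rw [h1]
    refine mul_pos hm' ?_
    rcases hcm with h2 | h2
    · have := norm_pos_iff.2 h2
      positivity
    · have := norm_pos_iff.2 h2
      positivity
  · intro n hn
    rw [hr]
    simp only [if_neg (fun h : 0 < n ∧ n.Coprime N => hn h.2)]
  · intro p hp hpN j n hpn
    have hn0 : 0 < n := by
      rcases Nat.eq_zero_or_pos n with h | h
      · rw [h] at hpn
        exact absurd (dvd_zero p) hpn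
      · exact h
    have hpm : ¬ p ∣ m := fun h => hpN (hmN p hp h)
    have hcop : (p ^ j * n).Coprime N ↔ n.Coprime N := by
      rw [Nat.coprime_mul_iff_left]
      constructor
      · exact fun h => h.2
      · intro h
        exact ⟨Nat.Coprime.pow_left j ((Nat.Prime.coprime_iff_not_dvd hp).2 hpN), h⟩
    have hpos : 0 < p ^ j * n := Nat.mul_pos (pow_pos hp.pos j) hn0
    by_cases hnN : n.Coprime N
    · have hnm : ¬ (p : ℤ) ∣ (n : ℤ) * m := by
        intro h
        have h' : p ∣ n * m := by exact_mod_cast h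
        rcases (Nat.Prime.dvd_mul hp).1 h' with h1 | h1
        · exact hpn h1
        · exact hpm h1
      have hnm' : ¬ (p : ℤ) ∣ -(n : ℤ) * m := by
        intro h
        rw [neg_mul, dvd_neg] at h
        exact hnm h
      have e1 := (ExRS_pow hp (hR p hp hpN) hnm j).1
      have e2 := (ExRS_pow hp (hR p hp hpN) hnm' j).1
      have e3 : ((p ^ j * n : ℕ) : ℤ) * m = (n : ℤ) * m * (p : ℤ) ^ j := by
        push_cast
        ring
      have e4 : -((p ^ j * n : ℕ) : ℤ) * m = -(n : ℤ) * m * (p : ℤ) ^ j := by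
        push_cast
        ring
      rw [hr]
      simp only [if_pos (And.intro hpos (hcop.2 hnN)), if_pos (And.intro hn0 hnN)]
      rw [e3, e4, e1, e2, norm_mul, norm_mul]
      ring
    · rw [hr]
      simp only [if_neg (fun h : 0 < p ^ j * n ∧ (p ^ j * n).Coprime N => hnN (hcop.1 h.2)),
        if_neg (fun h : 0 < n ∧ n.Coprime N => hnN h.2), mul_zero]

end Pool.Agent.MaassRS74
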