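import Pool.Agent.W_7742r_h74.Defs

/-!
# The operators `U_m`

`m` has only prime divisors of `N`.  For `γ = (a, b; c, d) ∈ Γ₀(N)` and `0 ≤ j < m`:
`(1, j; 0, m) γ = γ' (1, j'; 0, m)` with
`γ' = (a + j c, (b + j d - j' (a + j c)) / m; m c, d - j' c)`, where `j'` is determined modulo `m`
by `j' (a + j c) ≡ b + j d` (`a + j c` is prime to `m`: a prime divisor of `m` divides `N`, hence
`c`, hence not `a`).  `γ' ∈ Γ₀(N)` and `d - j' c ≡ d` modulo `N`.  The map `j ↦ j'` is a bijection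
of the residues modulo `m` (it is the action of `γ` on the cosets).  So
`upf m f (γ z) = ∑_j f((γ z + j) / m) = ∑_j f(γ' ((z + j') / m)) = χ(d) upf m f z`.
-/

set_option autoImplicit false

noncomputable section

namespace Pool.Agent.MaassRS74

open UpperHalfPlane CongruenceSubgroup
open scoped MatrixGroups

/-- `∑ f((z + b) / m)`, the sum over `b` modulo `m`. -/
def upf (m : ℕ) (f : ℍ → ℂ) (z : ℍ) : ℂ := ∑ b ∈ Finset.range m, f (ofComplex ((z + b) / m))

theorem HopA_coprime {N m : ℕ} (hmN : ∀ p : ℕ, p.Prime → p ∣ m → p ∣ N) {a b c d : ℤ}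
    (hdet : a * d - b * c = 1) (hc : (N : ℤ) ∣ c) (_hm : 0 < m) : IsCoprime a (m : ℤ) := by
  rw [Int.isCoprime_iff_gcd_eq_one]
  by_contra h
  obtain ⟨p, hp, hpd⟩ := Nat.exists_prime_and_dvd h
  have h1 : (p : ℤ) ∣ a := (Int.natCast_dvd_natCast.2 hpd).trans (Int.gcd_dvd_left _ _)
  have h2 : (p : ℤ) ∣ (m : ℤ) := (Int.natCast_dvd_natCast.2 hpd).trans (Int.gcd_dvd_right _ _)
  have h3 : (p : ℤ) ∣ c :=
    (Int.natCast_dvd_natCast.2 (hmN p hp (Int.natCast_dvd_natCast.1 h2))).trans hc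
  have h4 : (p : ℤ) ∣ 1 := by
    rw [← hdet]
    exact dvd_sub (h1.mul_right _) (h3.mul_left _)
  have h5 := Int.natCast_dvd_natCast.1 (by simpa using h4 : (p : ℤ) ∣ ((1 : ℕ) : ℤ))
  exact hp.one_lt.ne' (Nat.dvd_one.1 h5)

theorem HopA_pt (m : ℕ) (hm : 0 < m) (z : ℍ) (j : ℕ) :
    0 < (((z : ℂ) + j) / m).im := by
  have h1 : (((z : ℂ) + j) / m).im = z.im / m := by
    rw [Complex.div_natCast_im]
    simp
  rw [h1]
  exact div_pos z.im_pos (by exact_mod_cast hm)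

theorem HopA_denom (a b c d : ℤ) (hdet : a * d - b * c = 1) (z : ℍ) :
    (c : ℂ) * z + d ≠ 0 := by
  intro h
  have h1 := congrArg Complex.im h
  have h2 := congrArg Complex.re h
  simp only [Complex.add_im, Complex.mul_im, Complex.intCast_re, Complex.intCast_im,
    zero_mul, add_zero, Complex.zero_im, UpperHalfPlane.coe_im] at h1
  simp only [Complex.add_re, Complex.mul_re, Complex.intCast_re, Complex.intCast_im,
    zero_mul, sub_zero, Complex.zero_re, UpperHalfPlane.coe_re] at h2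
  have h3 : (c : ℝ) = 0 := by
    rcases mul_eq_zero.1 h1 with h | h
    · exact h
    · exact absurd h z.im_pos.ne'
  rw [h3, zero_mul, zero_add] at h2
  have h4 : c = 0 := by exact_mod_cast h3
  have h5 : d = 0 := by exact_mod_cast h2
  rw [h4, h5] at hdet
  simp at hdet

/-- one summand -/
theorem HopA_one {N : ℕ} {χ : DirichletCharacter ℂ N} {f : ℍ → ℂ}
    (hf : ∀ γ ∈ Gamma0 N, ∀ z : ℍ, f (γ • z) = χ ((γ 1 1 : ℤ) : ZMod N) * f z) {m : ℕ}
    (hm : 0 < m) (γ : SL(2, ℤ)) (hγ : γ ∈ Gamma0 N) (z : ℍ) (j j' : ℕ)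
    (hj : (m : ℤ) ∣ (γ 0 1 + j * γ 1 1) - j' * (γ 0 0 + j * γ 1 0)) :
    f (ofComplex (((γ • z : ℍ) + j) / m)) =
      χ ((γ 1 1 : ℤ) : ZMod N) * f (ofComplex ((z + j') / m)) := by
  obtain ⟨q, hq⟩ := hj
  have hdet : γ 0 0 * γ 1 1 - γ 0 1 * γ 1 0 = 1 := by
    have := γ.det_coe
    rwa [Matrix.det_fin_two] at this
  set a := γ 0 0 with ha
  set b := γ 0 1 with hb
  set c := γ 1 0 with hc
  set d := γ 1 1 with hd
  have hdet' : (!![a + j * c, q; m * c, d - j' * c] : Matrix (Fin 2) (Fin 2) ℤ).det = 1 := by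
    rw [Matrix.det_fin_two_of]
    linear_combination hdet + c * hq
  let γ' : SL(2, ℤ) := ⟨!![a + j * c, q; m * c, d - j' * c], hdet'⟩
  have hc0 : ((c : ℤ) : ZMod N) = 0 := by
    rw [Gamma0_mem] at hγ
    exact hγ
  have hγ' : γ' ∈ Gamma0 N := by
    rw [Gamma0_mem]
    show (((m * c : ℤ)) : ZMod N) = 0
    rw [Int.cast_mul, hc0, mul_zero]
  have h11 : ((γ' 1 1 : ℤ) : ZMod N) = ((d : ℤ) : ZMod N) := by
    show (((d - j' * c : ℤ)) : ZMod N) = _
    rw [Int.cast_sub, Int.cast_mul, hc0, mul_zero, sub_zero]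
  have hw := HopA_pt m hm z j'
  have hw' := HopA_pt m hm (γ • z) j
  have hkey : ofComplex (((γ • z : ℍ) + j) / m) = γ' • ofComplex ((z + j') / m) := by
    apply UpperHalfPlane.ext
    rw [ofComplex_apply_of_im_pos hw, ofComplex_apply_of_im_pos hw']
    rw [coe_specialLinearGroup_apply γ']
    show ((γ • z : ℍ) + j : ℂ) / m = _
    rw [coe_specialLinearGroup_apply γ]
    have e00 : γ' 0 0 = a + j * c := rfl
    have e01 : γ' 0 1 = q := rfl
    have e10 : γ' 1 0 = m * c := rfl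
    have e11 : γ' 1 1 = d - j' * c := rfl
    rw [e00, e01, e10, e11, ← ha, ← hb, ← hc, ← hd]
    have hm0 : (m : ℂ) ≠ 0 := by exact_mod_cast hm.ne'
    have hden := HopA_denom a b c d hdet z
    have hq' : ((b : ℂ) + j * d) - j' * (a + j * c) = m * q := by exact_mod_cast hq
    simp only [eq_intCast, Complex.ofReal_intCast]
    push_cast
    have hden' : (m : ℂ) * c * (((z : ℂ) + j') / m) + (d - j' * c) = c * z + d := by
      field_simp
      ring
    show _ = ((a + j * c : ℂ) * (((z : ℂ) + j') / m) + q) / ((m : ℂ) * c * (((z : ℂ) + j') / m) + (d - j' * c))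
    rw [hden']
    rw [div_add' _ _ _ hden, div_div, div_eq_div_iff (mul_ne_zero hden hm0) hden]
    have h3 : ((a + j * c : ℂ) * (((z : ℂ) + j') / m) + q) * m = (a + j * c) * z + (b + j * d) := by
      field_simp
      linear_combination -hq'
    linear_combination (-(c * z + d : ℂ)) * h3
  rw [hkey, hf γ' hγ', h11]

theorem upf_automorphic {N : ℕ} {χ : DirichletCharacter ℂ N} {f : ℍ → ℂ}
    (hf : ∀ γ ∈ Gamma0 N, ∀ z : ℍ, f (γ • z) = χ ((γ 1 1 : ℤ) : ZMod N) * f z) {m : ℕ}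
    (hm : 0 < m) (hmN : ∀ p : ℕ, p.Prime → p ∣ m → p ∣ N) :
    ∀ γ ∈ Gamma0 N, ∀ z : ℍ, upf m f (γ • z) = χ ((γ 1 1 : ℤ) : ZMod N) * upf m f z := by
  intro γ hγ z
  have hdet : γ 0 0 * γ 1 1 - γ 0 1 * γ 1 0 = 1 := by
    have := γ.det_coe
    rwa [Matrix.det_fin_two] at this
  have hc : (N : ℤ) ∣ γ 1 0 := by
    rw [Gamma0_mem] at hγ
    exact (ZMod.intCast_zmod_eq_zero_iff_dvd _ _).1 hγ
  have hm' : (0 : ℤ) < m := by exact_mod_cast hm
  have hex : ∀ j : ℕ, ∃ j' ∈ Finset.range m,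
      (m : ℤ) ∣ (γ 0 1 + j * γ 1 1) - j' * (γ 0 0 + j * γ 1 0) := by
    intro j
    have hcop : IsCoprime (γ 0 0 + j * γ 1 0) (m : ℤ) := by
      refine HopA_coprime (a := γ 0 0 + j * γ 1 0) (b := γ 0 1 + j * γ 1 1) (c := γ 1 0)
        (d := γ 1 1) hmN ?_ hc hm
      linear_combination hdet
    obtain ⟨u, v, huv⟩ := hcop
    set A := γ 0 0 + j * γ 1 0
    set B := γ 0 1 + j * γ 1 1
    have h0 : 0 ≤ (B * u) % m := Int.emod_nonneg _ hm'.ne'
    have h1 : (B * u) % m < m := Int.emod_lt_of_pos _ hm'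
    refine ⟨((B * u) % m).toNat, ?_, ?_⟩
    · rw [Finset.mem_range]
      omega
    · rw [Int.toNat_of_nonneg h0]
      have h2 : B * u = m * ((B * u) / m) + (B * u) % m := (Int.mul_ediv_add_emod _ _).symm
      refine ⟨B * v + (B * u) / m * A, ?_⟩
      linear_combination (-B) * huv + A * h2
  choose σ hσ1 hσ2 using hex
  have hinj : Set.InjOn σ (Finset.range m : Set ℕ) := by
    intro j1 hj1 j2 hj2 h12
    have e1 := hσ2 j1
    have e2 := hσ2 j2
    rw [← h12] at e2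
    have h3 := dvd_sub e1 e2
    have hcop : IsCoprime (γ 1 1 - σ j1 * γ 1 0) (m : ℤ) := by
      refine HopA_coprime (a := γ 1 1 - σ j1 * γ 1 0) (b := γ 0 1 - σ j1 * γ 0 0) (c := γ 1 0)
        (d := γ 0 0) hmN ?_ hc hm
      linear_combination hdet
    have h4 : (m : ℤ) ∣ ((j1 : ℤ) - j2) * (γ 1 1 - σ j1 * γ 1 0) := by
      have e3 : ((j1 : ℤ) - j2) * (γ 1 1 - σ j1 * γ 1 0) =
          ((γ 0 1 + j1 * γ 1 1) - σ j1 * (γ 0 0 + j1 * γ 1 0)) -
          ((γ 0 1 + j2 * γ 1 1) - σ j1 * (γ 0 0 + j2 * γ 1 0)) := by ring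
      rw [e3]
      exact h3
    have h5 : (m : ℤ) ∣ (j1 : ℤ) - j2 := hcop.symm.dvd_of_dvd_mul_right h4
    have hj1' : j1 < m := Finset.mem_range.1 (Finset.mem_coe.1 hj1)
    have hj2' : j2 < m := Finset.mem_range.1 (Finset.mem_coe.1 hj2)
    have h6 : (j1 : ℤ) - j2 = 0 := by
      apply Int.eq_zero_of_abs_lt_dvd h5
      rw [abs_lt]
      omega
    omega
  have hsurj : Set.SurjOn σ (Finset.range m : Set ℕ) (Finset.range m : Set ℕ) :=
    Finset.surjOn_of_injOn_of_card_le σ (fun j _ => hσ1 j) hinj le_rfl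
  unfold upf
  rw [Finset.mul_sum]
  refine Finset.sum_nbij σ (fun j _ => hσ1 j) hinj hsurj ?_
  intro j _
  exact HopA_one hf hm γ hγ z j (σ j) (hσ2 j)

end Pool.Agent.MaassRS74
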