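import Pool.Agent.W_7742r_h74.ExRS

/-!
# The local identity

Let `α`, `β` be the roots of `T ^ 2 - a T + w`, `|α| ≥ |β|`, `|α β| = 1`.  The hypothesis
`w conj a = a` says that `conj α`, `conj β` are the roots of `T ^ 2 - (a / w) T + 1 / w`, that is
`{conj α, conj β} = {1 / α, 1 / β}` (not needed below).

* `lam j = ∑_{i ≤ j} α ^ i β ^ (j - i)`, `psum k = α ^ k + β ^ k` (same recursion).
* `|α| ^ 2 X < 1`: clear if `|α| = 1`.  Otherwise `|α| > 1 > |β|` and
  `|lam j| = |α ^ (j + 1) - β ^ (j + 1)| / |α - β| ≥ (|α| ^ (j + 1) - 1) / (|α| + 1)`, and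
  `|lam j| ^ 2 X' ^ j` is bounded, so `|α| ^ 2 X' ≤ 1`.
* For the four numbers `γ = α conj α, α conj β, β conj α, β conj β` we have `|γ| X < 1`,
  `‖psum k‖ ^ 2 = ∑ γ ^ k` and `∑_{k ≥ 1} γ ^ k X ^ k / k = -log(1 - γ X)`
  (`Complex.hasSum_taylorSeries_neg_log`), so `exp (∑ ‖psum k‖ ^ 2 X ^ k / k) = ∏ (1 - γ X)⁻¹`.
* `(∑_j ‖lam j‖ ^ 2 X ^ j) ∏ (1 - γ X) = 1 - X ^ 2`: the sequence `u j = ‖lam j‖ ^ 2 = lam j conj (lam j)`
  satisfies the linear recursion of order four with characteristic polynomial `∏ (T - γ)`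
  (a `ring` identity in `lam j, lam (j + 1)` and their conjugates), and the first four
  coefficients of the product are `1, 0, -|w| ^ 2, 0`, where `|w| = 1`.
-/

set_option autoImplicit false

noncomputable section

namespace Pool.Agent.MaassRS74

open ComplexConjugate

theorem LO_roots (a w : ℂ) : ∃ α β : ℂ, α + β = a ∧ α * β = w ∧ ‖β‖ ≤ ‖α‖ := by
  obtain ⟨s, hs⟩ := IsAlgClosed.exists_pow_nat_eq (a ^ 2 - 4 * w) (n := 2) (by norm_num)
  have h1 : (a + s) / 2 + (a - s) / 2 = a := by ring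
  have h2 : (a + s) / 2 * ((a - s) / 2) = w := by
    linear_combination (-1 / 4 : ℂ) * hs
  rcases le_total ‖(a - s) / 2‖ ‖(a + s) / 2‖ with h | h
  · exact ⟨_, _, h1, h2, h⟩
  · exact ⟨_, _, by rw [add_comm]; exact h1, by rw [mul_comm]; exact h2, h⟩

theorem LO_psum (α β : ℂ) : ∀ k : ℕ, psum (α + β) (α * β) k = α ^ k + β ^ k
  | 0 => by simp [psum]; norm_num
  | 1 => by simp [psum]
  | (k + 2) => by
    rw [psum, LO_psum α β (k + 1), LO_psum α β k]
    ring

theorem LO_lam (α β : ℂ) : ∀ k : ℕ, lam (α + β) (α * β) k * (α - β) = α ^ (k + 1) - β ^ (k + 1)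
  | 0 => by simp [lam]
  | 1 => by
    simp only [lam]
    ring
  | (k + 2) => by
    rw [lam]
    linear_combination (α + β) * LO_lam α β (k + 1) - α * β * LO_lam α β k

/-- The larger root is small. -/
theorem LO_small {α β : ℂ} (hle : ‖β‖ ≤ ‖α‖) (hαβ : ‖α * β‖ = 1) {X X' : ℝ} (hX : 0 < X) (hXX : X < X') (hX1 : X < 1)
    (hS : Summable fun j : ℕ => ‖lam (α + β) (α * β) j‖ ^ 2 * X' ^ j) : ‖α‖ ^ 2 * X < 1 := by
  have hX' : 0 < X' := hX.trans hXX
  rw [norm_mul] at hαβ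
  have hα0 : 0 ≤ ‖α‖ := norm_nonneg α
  have hβ0 : 0 ≤ ‖β‖ := norm_nonneg β
  have hα1 : 1 ≤ ‖α‖ := by
    by_contra hc
    push Not at hc
    nlinarith
  rcases hα1.eq_or_lt with h1 | h1
  · rw [← h1]
    linarith
  · by_contra hcon
    push Not at hcon
    have hge : 1 ≤ ‖α‖ ^ 2 * X' := by
      have : ‖α‖ ^ 2 * X ≤ ‖α‖ ^ 2 * X' := mul_le_mul_of_nonneg_left hXX.le (by positivity)
      linarith
    have hβ1 : ‖β‖ ≤ 1 := by
      by_contra hc
      push Not at hc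
      nlinarith
    have hlow : ∀ j : ℕ, (‖α‖ - 1) ^ 2 / (‖α‖ + 1) ^ 2 ≤ ‖lam (α + β) (α * β) j‖ ^ 2 * X' ^ j := by
      intro j
      have e1 := congrArg norm (LO_lam α β j)
      rw [norm_mul] at e1
      have e2 : ‖α‖ ^ (j + 1) - 1 ≤ ‖α ^ (j + 1) - β ^ (j + 1)‖ := by
        have e3 := norm_sub_norm_le (α ^ (j + 1)) (β ^ (j + 1))
        rw [norm_pow, norm_pow] at e3
        have e4 : ‖β‖ ^ (j + 1) ≤ 1 := pow_le_one₀ hβ0 hβ1
        linarith
      have e5 : ‖α - β‖ ≤ ‖α‖ + 1 := (norm_sub_le _ _).trans (by linarith)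
      have e6 : ‖α‖ ^ j * (‖α‖ - 1) ≤ ‖α‖ ^ (j + 1) - 1 := by
        have : 1 ≤ ‖α‖ ^ j := one_le_pow₀ hα1
        rw [pow_succ]
        nlinarith
      have e7 : ‖α‖ ^ j * (‖α‖ - 1) ≤ ‖lam (α + β) (α * β) j‖ * (‖α‖ + 1) := by
        calc ‖α‖ ^ j * (‖α‖ - 1) ≤ ‖α ^ (j + 1) - β ^ (j + 1)‖ := e6.trans e2
          _ = ‖lam (α + β) (α * β) j‖ * ‖α - β‖ := e1.symm
          _ ≤ _ := mul_le_mul_of_nonneg_left e5 (norm_nonneg _)
      have e8 : 0 ≤ ‖α‖ ^ j * (‖α‖ - 1) := mul_nonneg (by positivity) (by linarith)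
      have e9 := pow_le_pow_left₀ e8 e7 2
      rw [div_le_iff₀ (by positivity)]
      calc (‖α‖ - 1) ^ 2 ≤ (‖α‖ - 1) ^ 2 * (‖α‖ ^ 2 * X') ^ j :=
            le_mul_of_one_le_right (by positivity) (one_le_pow₀ hge)
        _ = (‖α‖ ^ j * (‖α‖ - 1)) ^ 2 * X' ^ j := by ring
        _ ≤ (‖lam (α + β) (α * β) j‖ * (‖α‖ + 1)) ^ 2 * X' ^ j :=
            mul_le_mul_of_nonneg_right e9 (by positivity)
        _ = _ := by ring
    have hlim := hS.tendsto_atTop_zero
    have hpos : 0 < (‖α‖ - 1) ^ 2 / (‖α‖ + 1) ^ 2 := by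
      have : 0 < ‖α‖ - 1 := by linarith
      positivity
    have := ge_of_tendsto' hlim hlow
    linarith

/-- The recursion of order four. -/
theorem LO_rec (a w : ℂ) (j : ℕ) : lam a w (j + 4) * conj (lam a w (j + 4)) =
    a * conj a * (lam a w (j + 3) * conj (lam a w (j + 3))) -
    (conj w * a ^ 2 + w * conj a ^ 2 - 2 * (w * conj w)) * (lam a w (j + 2) * conj (lam a w (j + 2))) +
    w * conj w * (a * conj a) * (lam a w (j + 1) * conj (lam a w (j + 1))) -
    (w * conj w) ^ 2 * (lam a w j * conj (lam a w j)) := by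
  have h2 : lam a w (j + 2) = a * lam a w (j + 1) - w * lam a w j := by rw [lam]
  have h3 : lam a w (j + 3) = a * lam a w (j + 2) - w * lam a w (j + 1) := by rw [lam]
  have h4 : lam a w (j + 4) = a * lam a w (j + 3) - w * lam a w (j + 2) := by rw [lam]
  rw [h4, h3, h2]
  simp only [map_sub, map_mul]
  ring

/-- The generating function. -/
theorem LO_gen {a w : ℂ} (hw : ‖w‖ = 1) {X X' : ℝ} (hX : 0 < X)
    (hXX : X < X') (hS : Summable fun j : ℕ => ‖lam a w j‖ ^ 2 * X' ^ j) :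
    ((∑' j : ℕ, ‖lam a w j‖ ^ 2 * X ^ j : ℝ) : ℂ) * (1 - a * conj a * X +
      (conj w * a ^ 2 + w * conj a ^ 2 - 2 * (w * conj w)) * X ^ 2 - w * conj w * (a * conj a) * X ^ 3 +
      (w * conj w) ^ 2 * X ^ 4) = 1 - (X : ℂ) ^ 2 := by
  have hS' : Summable fun j : ℕ => ‖lam a w j‖ ^ 2 * X ^ j := by
    refine Summable.of_nonneg_of_le (fun j => by positivity) (fun j => ?_) hS
    exact mul_le_mul_of_nonneg_left (pow_le_pow_left₀ hX.le hXX.le j) (by positivity)
  set u : ℕ → ℂ := fun j => lam a w j * conj (lam a w j) * (X : ℂ) ^ j with hu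
  have hu' : ∀ j, ((‖lam a w j‖ ^ 2 * X ^ j : ℝ) : ℂ) = u j := by
    intro j
    rw [hu]
    show _ = lam a w j * conj (lam a w j) * (X : ℂ) ^ j
    rw [Complex.mul_conj']
    push_cast
    ring
  have hsu : Summable u := by
    have h1 : Summable (fun j : ℕ => ((‖lam a w j‖ ^ 2 * X ^ j : ℝ) : ℂ)) := Complex.ofRealCLM.summable hS'
    exact h1.congr hu'
  have hT : ((∑' j : ℕ, ‖lam a w j‖ ^ 2 * X ^ j : ℝ) : ℂ) = ∑' j, u j := by
    rw [Complex.ofReal_tsum]
    exact tsum_congr hu'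
  rw [hT]
  set T := ∑' j, u j with hTdef
  have hs : ∀ k : ℕ, Summable fun j => u (j + k) := fun k => (summable_nat_add_iff k).2 hsu
  have t1 : ∑' j, u (j + 1) = T - u 0 := by
    have := hsu.sum_add_tsum_nat_add 1
    rw [Finset.sum_range_one] at this
    linear_combination this
  have t2 : ∑' j, u (j + 2) = T - u 0 - u 1 := by
    have := hsu.sum_add_tsum_nat_add 2
    rw [Finset.sum_range_succ, Finset.sum_range_one] at this
    linear_combination this
  have t3 : ∑' j, u (j + 3) = T - u 0 - u 1 - u 2 := by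
    have := hsu.sum_add_tsum_nat_add 3
    rw [Finset.sum_range_succ, Finset.sum_range_succ, Finset.sum_range_one] at this
    linear_combination this
  have t4 : ∑' j, u (j + 4) = T - u 0 - u 1 - u 2 - u 3 := by
    have := hsu.sum_add_tsum_nat_add 4
    rw [Finset.sum_range_succ, Finset.sum_range_succ, Finset.sum_range_succ, Finset.sum_range_one] at this
    linear_combination this
  have hrec : ∀ j, u (j + 4) = a * conj a * X * u (j + 3) -
      (conj w * a ^ 2 + w * conj a ^ 2 - 2 * (w * conj w)) * X ^ 2 * u (j + 2) +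
      w * conj w * (a * conj a) * X ^ 3 * u (j + 1) - (w * conj w) ^ 2 * X ^ 4 * u j := by
    intro j
    rw [hu]
    show lam a w (j + 4) * conj (lam a w (j + 4)) * (X : ℂ) ^ (j + 4) =
      a * conj a * X * (lam a w (j + 3) * conj (lam a w (j + 3)) * (X : ℂ) ^ (j + 3)) -
      (conj w * a ^ 2 + w * conj a ^ 2 - 2 * (w * conj w)) * X ^ 2 *
        (lam a w (j + 2) * conj (lam a w (j + 2)) * (X : ℂ) ^ (j + 2)) +
      w * conj w * (a * conj a) * X ^ 3 * (lam a w (j + 1) * conj (lam a w (j + 1)) * (X : ℂ) ^ (j + 1)) -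
      (w * conj w) ^ 2 * X ^ 4 * (lam a w j * conj (lam a w j) * (X : ℂ) ^ j)
    rw [LO_rec]
    ring
  have t4' : ∑' j, u (j + 4) = a * conj a * X * (∑' j, u (j + 3)) -
      (conj w * a ^ 2 + w * conj a ^ 2 - 2 * (w * conj w)) * X ^ 2 * (∑' j, u (j + 2)) +
      w * conj w * (a * conj a) * X ^ 3 * (∑' j, u (j + 1)) - (w * conj w) ^ 2 * X ^ 4 * T := by
    have k3 := (hs 3).mul_left (a * conj a * X)
    have k2 := (hs 2).mul_left ((conj w * a ^ 2 + w * conj a ^ 2 - 2 * (w * conj w)) * X ^ 2)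
    have k1 := (hs 1).mul_left (w * conj w * (a * conj a) * X ^ 3)
    have k0 := hsu.mul_left ((w * conj w) ^ 2 * X ^ 4)
    rw [tsum_congr hrec, Summable.tsum_sub ((k3.sub k2).add k1) k0, Summable.tsum_add (k3.sub k2) k1,
      Summable.tsum_sub k3 k2, tsum_mul_left, tsum_mul_left, tsum_mul_left, tsum_mul_left]
  rw [t4, t3, t2, t1] at t4'
  have hww : w * conj w = 1 := by
    rw [Complex.mul_conj', hw]
    norm_num
  have u0 : u 0 = 1 := by
    simp [hu, lam]
  have u1 : u 1 = a * conj a * X := by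
    simp [hu, lam]
  have u2 : u 2 = (a ^ 2 - w) * (conj a ^ 2 - conj w) * X ^ 2 := by
    simp only [hu, lam, map_sub, map_mul, map_one]
    ring
  have u3 : u 3 = a * (a ^ 2 - 2 * w) * (conj a * (conj a ^ 2 - 2 * conj w)) * X ^ 3 := by
    simp only [hu, lam, map_sub, map_mul, map_one]
    ring
  rw [u0, u1, u2, u3] at t4'
  linear_combination t4' - (X : ℂ) ^ 2 * hww

theorem LO_log {z : ℂ} (hz : ‖z‖ < 1) :
    HasSum (fun k : ℕ => z ^ (k + 1) / ((k : ℂ) + 1)) (-Complex.log (1 - z)) := by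
  have h := (hasSum_nat_add_iff' 1).2 (Complex.hasSum_taylorSeries_neg_log hz)
  rw [Finset.sum_range_one] at h
  simp only [Nat.cast_zero, div_zero, sub_zero, Nat.cast_add, Nat.cast_one] at h
  exact h

theorem local_identity {a w : ℂ} (hw : ‖w‖ = 1) (hu : w * conj a = a) {X X' : ℝ} (hX : 0 < X)
    (hXX : X < X') (hX1 : X < 1) (hS : Summable fun j : ℕ => ‖lam a w j‖ ^ 2 * X' ^ j) :
    Summable (fun k : ℕ => ‖psum a w (k + 1)‖ ^ 2 * X ^ (k + 1) / (k + 1)) ∧
    ∑' j : ℕ, ‖lam a w j‖ ^ 2 * X ^ j =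
      (1 - X ^ 2) * Real.exp (∑' k : ℕ, ‖psum a w (k + 1)‖ ^ 2 * X ^ (k + 1) / (k + 1)) := by
  obtain ⟨α, β, hab, hab', hle⟩ := LO_roots a w
  subst hab
  subst hab'
  have hα := LO_small hle hw hX hXX hX1 hS
  have hn : ‖α‖ * ‖β‖ = 1 := by rw [← norm_mul]; exact hw
  have hβ : ‖β‖ ^ 2 * X < 1 := by
    refine lt_of_le_of_lt ?_ hα
    exact mul_le_mul_of_nonneg_right (pow_le_pow_left₀ (norm_nonneg β) hle 2) hX.le
  have hXn : ‖(X : ℂ)‖ = X := by rw [Complex.norm_real, Real.norm_of_nonneg hX.le]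
  have n1 : ‖α * conj α * X‖ < 1 := by
    rw [norm_mul, norm_mul, RCLike.norm_conj, hXn, ← sq]
    exact hα
  have n2 : ‖α * conj β * X‖ < 1 := by
    rw [norm_mul, norm_mul, RCLike.norm_conj, hXn, hn, one_mul]
    exact hX1
  have n3 : ‖β * conj α * X‖ < 1 := by
    rw [norm_mul, norm_mul, RCLike.norm_conj, hXn, mul_comm ‖β‖, hn, one_mul]
    exact hX1
  have n4 : ‖β * conj β * X‖ < 1 := by
    rw [norm_mul, norm_mul, RCLike.norm_conj, hXn, ← sq]
    exact hβ
  have hH := (((LO_log n1).add (LO_log n2)).add (LO_log n3)).add (LO_log n4)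
  have hpt : ∀ k : ℕ, ((‖psum (α + β) (α * β) (k + 1)‖ ^ 2 * X ^ (k + 1) / (k + 1) : ℝ) : ℂ) =
      (α * conj α * X) ^ (k + 1) / ((k : ℂ) + 1) + (α * conj β * X) ^ (k + 1) / ((k : ℂ) + 1) +
      (β * conj α * X) ^ (k + 1) / ((k : ℂ) + 1) + (β * conj β * X) ^ (k + 1) / ((k : ℂ) + 1) := by
    intro k
    rw [LO_psum]
    push_cast
    rw [← Complex.mul_conj', map_add, map_pow, map_pow]
    ring
  rw [← funext hpt] at hH
  have hre := Complex.hasSum_re hH
  simp only [Complex.ofReal_re] at hre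
  refine ⟨hre.summable, ?_⟩
  set S := ∑' k : ℕ, ‖psum (α + β) (α * β) (k + 1)‖ ^ 2 * X ^ (k + 1) / (k + 1) with hSdef
  have hSC : (S : ℂ) = -Complex.log (1 - α * conj α * X) + -Complex.log (1 - α * conj β * X) +
      -Complex.log (1 - β * conj α * X) + -Complex.log (1 - β * conj β * X) := by
    rw [hSdef, Complex.ofReal_tsum]
    exact hH.tsum_eq
  have ne : ∀ z : ℂ, ‖z‖ < 1 → 1 - z ≠ 0 := by
    intro z hz h0
    have : z = 1 := by linear_combination -h0
    rw [this, norm_one] at hz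
    exact lt_irrefl _ hz
  have m1 := ne _ n1
  have m2 := ne _ n2
  have m3 := ne _ n3
  have m4 := ne _ n4
  have hexp : Complex.exp S = ((1 - α * conj α * X) * (1 - α * conj β * X) * (1 - β * conj α * X) *
      (1 - β * conj β * X))⁻¹ := by
    rw [hSC, Complex.exp_add, Complex.exp_add, Complex.exp_add, Complex.exp_neg, Complex.exp_neg, Complex.exp_neg,
      Complex.exp_neg, Complex.exp_log m1, Complex.exp_log m2, Complex.exp_log m3, Complex.exp_log m4]
    rw [mul_inv, mul_inv, mul_inv]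
  have hgen := LO_gen hw hX hXX hS
  apply Complex.ofReal_injective
  rw [Complex.ofReal_mul, Complex.ofReal_exp, hexp]
  have hP : (1 - (α + β) * conj (α + β) * X +
      (conj (α * β) * (α + β) ^ 2 + α * β * conj (α + β) ^ 2 - 2 * (α * β * conj (α * β))) * X ^ 2 -
      α * β * conj (α * β) * ((α + β) * conj (α + β)) * X ^ 3 +
      (α * β * conj (α * β)) ^ 2 * X ^ 4 : ℂ) = (1 - α * conj α * X) * (1 - α * conj β * X) * (1 - β * conj α * X) *
      (1 - β * conj β * X) := by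
    simp only [map_add, map_mul]
    ring
  rw [hP] at hgen
  have hPne : (1 - α * conj α * X) * (1 - α * conj β * X) * (1 - β * conj α * X) * (1 - β * conj β * X) ≠ (0 : ℂ) :=
    mul_ne_zero (mul_ne_zero (mul_ne_zero m1 m2) m3) m4
  rw [← div_eq_mul_inv, eq_div_iff hPne, hgen]
  push_cast
  ring

end Pool.Agent.MaassRS74
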