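import Pool.Agent.W_7742r_h74.StripB
import Pool.Agent.W_7742r_h74.BesA
import Pool.Agent.W_7742r_h74.BesB

/-!
# The constant term: decay and Mellin transform

Let `R = cterm G = ∑ r(n) y K0(2 π n y) ^ 2`.

* `cterm_decay`: for `y ≥ 1`, `K0(2 π n y) ≤ exp(-2 π n (y - 1)) K0(2 π n)` (`K0_add_le`), so
  `R(y) ≤ y exp(-4 π (y - 1)) R(1)` (`r 0 = 0`).
* `cterm_mellin`: for `x > 1`, termwise (`lintegral_tsum`), `n ≥ 1`:
  `∫_0^∞ y K0(2 π n y) ^ 2 y ^ (x - 2) dy = (2 π n) ^ (-x) ∫ y ^ (x - 1) K0(y) ^ 2 dy`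
  (`mellin_K0_sq`).
* `cterm_mellin_lt_top`: `R ≤ B` on `(0, 1]` and `x > 1`, and `cterm_decay` for `y ≥ 1`.
* `summable_r`: from the last two.
-/

set_option autoImplicit false

noncomputable section

namespace Pool.Agent.MaassRS74

open MeasureTheory ENNReal UpperHalfPlane

theorem cterm_decay {M : ℕ} {G : ℍ → ℝ} {r : ℕ → ℝ} (h : IsRS M G r) {y : ℝ} (hy : 1 ≤ y) :
    cterm G y ≤ y * Real.exp (-(4 * Real.pi * (y - 1))) * cterm G 1 := by
  have hy0 : 0 < y := by linarith
  have h1 := h.expansion y hy0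
  have h2 := (h.expansion 1 one_pos).mul_left (y * Real.exp (-(4 * Real.pi * (y - 1))))
  refine hasSum_le (fun n => ?_) h1 h2
  rcases Nat.eq_zero_or_pos n with rfl | hn
  · simp [h.r_zero]
  have hn1 : (1 : ℝ) ≤ n := by exact_mod_cast hn
  have hpi := Real.pi_pos
  have hc : 0 < 2 * Real.pi * n := by positivity
  have h3 : K0 (2 * Real.pi * n * y) ≤
      Real.exp (-(2 * Real.pi * (y - 1))) * K0 (2 * Real.pi * n) := by
    have h4 := K0_add_le (y := 2 * Real.pi * n) (h := 2 * Real.pi * n * (y - 1)) hc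
      (mul_nonneg hc.le (by linarith))
    have h5 : 2 * Real.pi * n + 2 * Real.pi * n * (y - 1) = 2 * Real.pi * n * y := by ring
    rw [h5] at h4
    refine h4.trans (mul_le_mul_of_nonneg_right (Real.exp_le_exp.2 ?_) (K0_pos hc).le)
    have : 0 ≤ 2 * Real.pi * (y - 1) * (n - 1) :=
      mul_nonneg (mul_nonneg (by positivity) (by linarith)) (by linarith)
    nlinarith
  have h6 : K0 (2 * Real.pi * n * y) ^ 2 ≤
      Real.exp (-(4 * Real.pi * (y - 1))) * K0 (2 * Real.pi * n) ^ 2 := by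
    have h7 : Real.exp (-(4 * Real.pi * (y - 1))) = Real.exp (-(2 * Real.pi * (y - 1))) ^ 2 := by
      rw [sq, ← Real.exp_add]
      congr 1
      ring
    rw [h7, ← mul_pow]
    exact pow_le_pow_left₀ (K0_pos (mul_pos hc hy0)).le h3 2
  have hr := h.r_nonneg n
  calc r n * (y * K0 (2 * Real.pi * n * y) ^ 2)
      ≤ r n * (y * (Real.exp (-(4 * Real.pi * (y - 1))) * K0 (2 * Real.pi * n) ^ 2)) := by
        gcongr
    _ = y * Real.exp (-(4 * Real.pi * (y - 1))) *
          (r n * (1 * K0 (2 * Real.pi * n * 1) ^ 2)) := by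
        rw [mul_one, one_mul]
        ring

/-- scaling of a nonnegative integral over the half line -/
theorem lintegral_scale (f : ℝ → ℝ≥0∞) {c : ℝ} (hc : 0 < c) :
    ∫⁻ y in Set.Ioi (0 : ℝ), f (c * y) = ENNReal.ofReal c⁻¹ * ∫⁻ y in Set.Ioi (0 : ℝ), f y := by
  have h1 := Real.map_volume_mul_left hc.ne'
  have h2 : MeasurableEmbedding (fun y : ℝ => c * y) :=
    (Homeomorph.mulLeft₀ c hc.ne').measurableEmbedding
  have h3 := h2.lintegral_map (μ := volume) (fun y => (Set.Ioi (0 : ℝ)).indicator f y)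
  rw [← lintegral_indicator measurableSet_Ioi, ← lintegral_indicator measurableSet_Ioi]
  have h4 : (fun y => (Set.Ioi (0 : ℝ)).indicator (fun y => f (c * y)) y) =
      fun y => (Set.Ioi (0 : ℝ)).indicator f (c * y) := by
    funext y
    by_cases hy : 0 < y
    · have : 0 < c * y := mul_pos hc hy
      simp [Set.indicator, hy, this]
    · have : ¬ 0 < c * y := fun h => hy (pos_of_mul_pos_right h hc.le)
      simp [Set.indicator, hy, this]
  rw [h4, ← h3]
  have h5 : Measure.map (fun y : ℝ => c * y) volume = ENNReal.ofReal |c⁻¹| • volume := h1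
  rw [h5, lintegral_smul_measure, abs_of_pos (inv_pos.2 hc), smul_eq_mul]

theorem measurable_ind_K0 :
    AEMeasurable K0 (volume.restrict (Set.Ioi (0 : ℝ))) :=
  K0_continuousOn.aemeasurable measurableSet_Ioi

theorem cterm_mellin {M : ℕ} {G : ℍ → ℝ} {r : ℕ → ℝ} (h : IsRS M G r) {x : ℝ} (hx : 1 < x) :
    ∫⁻ y in Set.Ioi (0 : ℝ), ENNReal.ofReal (cterm G y * y ^ (x - 2)) =
      ENNReal.ofReal ((2 * Real.pi) ^ (-x) * (2 ^ (x - 3) * Real.Gamma (x / 2) ^ 4 / Real.Gamma x)) *
        ∑' n : ℕ, ENNReal.ofReal (r n * (n : ℝ) ^ (-x)) := by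
  have hpi := Real.pi_pos
  -- the integrand as a sum
  have h1 : ∀ y ∈ Set.Ioi (0 : ℝ), ENNReal.ofReal (cterm G y * y ^ (x - 2)) =
      ∑' n : ℕ, ENNReal.ofReal (r n * (y * K0 (2 * Real.pi * n * y) ^ 2) * y ^ (x - 2)) := by
    intro y hy
    have hy0 : 0 < y := hy
    have h2 := (h.expansion y hy0).mul_right (y ^ (x - 2))
    rw [← h2.tsum_eq, ENNReal.ofReal_tsum_of_nonneg _ h2.summable]
    intro n
    have := h.r_nonneg n
    positivity
  rw [setLIntegral_congr_fun measurableSet_Ioi h1]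
  rw [lintegral_tsum]
  · rw [← ENNReal.tsum_mul_left]
    refine tsum_congr fun n => ?_
    rcases Nat.eq_zero_or_pos n with rfl | hn
    · simp [h.r_zero]
    have hn0 : (0 : ℝ) < n := by exact_mod_cast hn
    have hc : 0 < 2 * Real.pi * n := by positivity
    have hr := h.r_nonneg n
    have h3 : ∀ y ∈ Set.Ioi (0 : ℝ),
        ENNReal.ofReal (r n * (y * K0 (2 * Real.pi * n * y) ^ 2) * y ^ (x - 2)) =
        ENNReal.ofReal (r n * (2 * Real.pi * n) ^ (-(x - 1))) *
          (fun u : ℝ => ENNReal.ofReal (u ^ (x - 1) * K0 u ^ 2)) (2 * Real.pi * n * y) := by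
      intro y hy
      have hy0 : 0 < y := hy
      simp only
      rw [← ENNReal.ofReal_mul (by positivity)]
      congr 1
      rw [Real.mul_rpow hc.le hy0.le, Real.rpow_neg hc.le]
      have e1 : y ^ (x - 1) = y * y ^ (x - 2) := by
        rw [show x - 1 = 1 + (x - 2) by ring, Real.rpow_add hy0, Real.rpow_one]
      rw [e1]
      have e2 : (2 * Real.pi * n) ^ (x - 1) ≠ 0 := (Real.rpow_pos_of_pos hc _).ne'
      field_simp
    rw [setLIntegral_congr_fun measurableSet_Ioi h3, lintegral_const_mul' _ _ ENNReal.ofReal_ne_top,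
      lintegral_scale (fun u : ℝ => ENNReal.ofReal (u ^ (x - 1) * K0 u ^ 2)) hc,
      mellin_K0_sq (by linarith : 0 < x), ← ENNReal.ofReal_mul (by positivity),
      ← ENNReal.ofReal_mul (by positivity), ← ENNReal.ofReal_mul ?_]
    · congr 1
      have e3 : (2 * Real.pi * (n : ℝ)) ^ (-(x - 1)) * (2 * Real.pi * n)⁻¹ =
          (2 * Real.pi) ^ (-x) * (n : ℝ) ^ (-x) := by
        rw [← Real.rpow_neg_one (2 * Real.pi * n), ← Real.rpow_add hc,
          ← Real.mul_rpow (by positivity) hn0.le]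
        congr 1
        ring
      calc r n * (2 * Real.pi * ↑n) ^ (-(x - 1)) * ((2 * Real.pi * ↑n)⁻¹ *
              (2 ^ (x - 3) * Real.Gamma (x / 2) ^ 4 / Real.Gamma x))
          = r n * ((2 * Real.pi * (n : ℝ)) ^ (-(x - 1)) * (2 * Real.pi * n)⁻¹) *
              (2 ^ (x - 3) * Real.Gamma (x / 2) ^ 4 / Real.Gamma x) := by ring
        _ = _ := by
            rw [e3]
            ring
    · have := Real.Gamma_pos_of_pos (by linarith : 0 < x)
      have := Real.Gamma_pos_of_pos (by linarith : 0 < x / 2)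
      positivity
  · intro n
    rcases Nat.eq_zero_or_pos n with rfl | hn
    · simp [h.r_zero]
    have hn0 : (0 : ℝ) < n := by exact_mod_cast hn
    have hc : 0 < 2 * Real.pi * n := by positivity
    refine (ContinuousOn.aemeasurable ?_ measurableSet_Ioi).ennreal_ofReal
    refine ContinuousOn.mul (ContinuousOn.mul continuousOn_const (ContinuousOn.mul continuousOn_id
      (ContinuousOn.pow ?_ 2))) ?_
    · refine K0_continuousOn.comp (by fun_prop) fun y hy => ?_
      exact mul_pos hc hy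
    · exact ContinuousOn.rpow_const continuousOn_id fun y hy => Or.inl (ne_of_gt hy)

theorem cterm_mellin_lt_top {M : ℕ} {G : ℍ → ℝ} {r : ℕ → ℝ} (h : IsRS M G r) {x : ℝ}
    (hx : 1 < x) :
    ∫⁻ y in Set.Ioi (0 : ℝ), ENNReal.ofReal (cterm G y * y ^ (x - 2)) < ∞ := by
  obtain ⟨C, hC⟩ := h.bdd
  have hpi := Real.pi_pos
  have h0 : ∀ y, 0 ≤ cterm G y := cterm_nonneg h.nonneg
  have hu : Set.Ioi (0 : ℝ) ⊆ Set.Ioc 0 1 ∪ Set.Ioi 1 := by
    intro y hy
    rcases le_or_gt y 1 with h1 | h1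
    · exact Or.inl ⟨hy, h1⟩
    · exact Or.inr h1
  refine (lintegral_mono_set hu).trans_lt ((lintegral_union_le _ _ _).trans_lt
    (ENNReal.add_lt_top.2 ⟨?_, ?_⟩))
  · have h1 : IntegrableOn (fun y : ℝ => C * y ^ (x - 2)) (Set.Ioc 0 1) := by
      have : IntervalIntegrable (fun y : ℝ => y ^ (x - 2)) volume 0 1 :=
        intervalIntegral.intervalIntegrable_rpow' (by linarith)
      rw [intervalIntegrable_iff_integrableOn_Ioc_of_le zero_le_one] at this
      exact this.const_mul C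
    refine lt_of_le_of_lt ?_ h1.lintegral_lt_top
    refine setLIntegral_mono' measurableSet_Ioc fun y hy => ENNReal.ofReal_le_ofReal ?_
    exact mul_le_mul_of_nonneg_right (cterm_le h.continuous hC y) (Real.rpow_nonneg hy.1.le _)
  · have h1 : IntegrableOn (fun y : ℝ => Real.exp (4 * Real.pi) * cterm G 1 *
        (Real.exp (-y) * y ^ (x - 1))) (Set.Ioi 1) := by
      refine Integrable.const_mul ?_ _
      exact (Real.GammaIntegral_convergent (by linarith : 0 < x)).mono_set
        (Set.Ioi_subset_Ioi zero_le_one)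
    refine lt_of_le_of_lt ?_ h1.lintegral_lt_top
    refine setLIntegral_mono' measurableSet_Ioi fun y hy => ENNReal.ofReal_le_ofReal ?_
    have hy1 : 1 < y := hy
    have hy0 : 0 < y := by linarith
    have h2 := cterm_decay h hy1.le
    have h3 : Real.exp (-(4 * Real.pi * (y - 1))) ≤ Real.exp (4 * Real.pi) * Real.exp (-y) := by
      rw [← Real.exp_add]
      refine Real.exp_le_exp.2 ?_
      have : 1 ≤ Real.pi := by linarith [Real.pi_gt_three]
      nlinarith
    have e1 : y ^ (x - 1) = y * y ^ (x - 2) := by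
      rw [show x - 1 = 1 + (x - 2) by ring, Real.rpow_add hy0, Real.rpow_one]
    have h4 := h0 1
    calc cterm G y * y ^ (x - 2)
        ≤ (y * Real.exp (-(4 * Real.pi * (y - 1))) * cterm G 1) * y ^ (x - 2) :=
          mul_le_mul_of_nonneg_right h2 (Real.rpow_nonneg hy0.le _)
      _ ≤ (y * (Real.exp (4 * Real.pi) * Real.exp (-y)) * cterm G 1) * y ^ (x - 2) := by
          gcongr
      _ = _ := by
          rw [e1]
          ring

theorem summable_r {M : ℕ} {G : ℍ → ℝ} {r : ℕ → ℝ} (h : IsRS M G r) {x : ℝ} (hx : 1 < x) :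
    Summable fun n : ℕ => r n * (n : ℝ) ^ (-x) := by
  have h1 := cterm_mellin_lt_top h hx
  rw [cterm_mellin h hx] at h1
  have hpos : 0 < (2 * Real.pi) ^ (-x) * (2 ^ (x - 3) * Real.Gamma (x / 2) ^ 4 / Real.Gamma x) := by
    have := Real.Gamma_pos_of_pos (by linarith : 0 < x)
    have := Real.Gamma_pos_of_pos (by linarith : 0 < x / 2)
    have := Real.pi_pos
    positivity
  have h2 : ∑' n : ℕ, ENNReal.ofReal (r n * (n : ℝ) ^ (-x)) ≠ ∞ := by
    intro htop
    rw [htop, ENNReal.mul_top (by simpa using hpos)] at h1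
    exact absurd h1 (lt_irrefl _)
  have h3 := ENNReal.summable_toReal h2
  refine h3.congr fun n => ?_
  exact (ENNReal.toReal_ofReal (mul_nonneg (h.r_nonneg n) (Real.rpow_nonneg (Nat.cast_nonneg _) _)))

end Pool.Agent.MaassRS74
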