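import Pool.Agent.W_7742r_h74.Defs

/-!
# The integral over the strip

`∫_{strip} G(z) h(Im z) dx dy / y ^ 2 = ∫_0^∞ (∫_0^1 G(x + i y) dx) h(y) dy / y ^ 2`
(`UpperHalfPlane.volume_def` or `volume_eq_lintegral`, `Complex.measurableEquivRealProd`, Tonelli).
All functions are nonnegative; `cterm G y` is the inner integral, which is the lower integral of
`ENNReal.ofReal (G ..)` because `x ↦ G (x + i y)` is continuous on `[0, 1]`.
-/

set_option autoImplicit false

noncomputable section

namespace Pool.Agent.MaassRS74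

open UpperHalfPlane ENNReal MeasureTheory

theorem StripB_cont {G : ℍ → ℝ} (hG : Continuous G) :
    ContinuousOn (fun w : ℂ => G (ofComplex w)) {w : ℂ | 0 < w.im} := by
  intro w hw
  apply ContinuousAt.continuousWithinAt
  refine hG.continuousAt.comp ?_
  exact (contMDiffAt_ofComplex (n := 0) hw).continuousAt

theorem StripB_meas {G : ℍ → ℝ} (hG : Continuous G) :
    Measurable (fun w : ℂ => G (ofComplex w)) := by
  have hU : MeasurableSet {w : ℂ | 0 < w.im} :=
    measurableSet_lt measurable_const Complex.measurable_im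
  refine measurable_of_restrict_of_restrict_compl hU ?_ ?_
  · exact (continuousOn_iff_continuous_domRestrict.mp (StripB_cont hG)).measurable
  · have : (Set.domRestrict {w : ℂ | 0 < w.im}ᶜ fun w : ℂ => G (ofComplex w)) =
        fun _ => G (Classical.choice inferInstance) := by
      funext w
      have hw : (w : ℂ).im ≤ 0 := not_lt.mp w.2
      rw [Set.domRestrict_apply, ofComplex_apply_of_im_nonpos hw]
    rw [this]
    exact measurable_const

theorem StripB_slice {G : ℍ → ℝ} (hG : Continuous G) (y : ℝ) :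
    Continuous (fun x : ℝ => G (ofComplex (x + y * Complex.I))) := by
  rcases le_or_gt y 0 with hy | hy
  · have : (fun x : ℝ => G (ofComplex (x + y * Complex.I))) =
        fun _ => G (Classical.choice inferInstance) := by
      funext x
      rw [ofComplex_apply_of_im_nonpos]
      simpa using hy
    rw [this]
    exact continuous_const
  · have h1 : Continuous (fun x : ℝ => ((x : ℂ) + y * Complex.I)) := by fun_prop
    refine (StripB_cont hG).comp_continuous h1 ?_
    intro x
    simpa using hy

theorem cterm_nonneg {G : ℍ → ℝ} (h0 : ∀ z, 0 ≤ G z) (y : ℝ) : 0 ≤ cterm G y := by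
  unfold cterm
  exact intervalIntegral.integral_nonneg zero_le_one (fun _ _ => h0 _)

theorem cterm_le {G : ℍ → ℝ} (hG : Continuous G) {C : ℝ} (hC : ∀ z, G z ≤ C) (y : ℝ) :
    cterm G y ≤ C := by
  unfold cterm
  have h1 : ∫ x in (0 : ℝ)..1, G (ofComplex (x + y * Complex.I)) ≤ ∫ _ in (0 : ℝ)..1, C := by
    apply intervalIntegral.integral_mono_on zero_le_one
    · exact (StripB_slice hG y).intervalIntegrable _ _
    · exact intervalIntegrable_const
    · intro x _
      exact hC _
  simpa using h1

theorem cterm_continuousOn {G : ℍ → ℝ} (hG : Continuous G) :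
    ContinuousOn (cterm G) (Set.Ioi 0) := by
  have key : ContinuousOn (fun p : ℝ × ℝ => G (ofComplex (p.2 + p.1 * Complex.I)))
      (Set.Ioi 0 ×ˢ Set.univ) := by
    have h1 : Continuous (fun p : ℝ × ℝ => ((p.2 : ℂ) + p.1 * Complex.I)) := by fun_prop
    refine (StripB_cont hG).comp h1.continuousOn ?_
    rintro ⟨y, x⟩ ⟨hy, -⟩
    simpa using hy
  rw [isOpen_Ioi.continuousOn_iff]
  intro y hy
  have hcont : Continuous (fun p : (Set.Ioi (0 : ℝ)) × ℝ =>
      G (ofComplex (p.2 + (p.1 : ℝ) * Complex.I))) := by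
    have h2 : Continuous (fun p : (Set.Ioi (0 : ℝ)) × ℝ => (((p.1 : ℝ), p.2) : ℝ × ℝ)) := by
      fun_prop
    refine key.comp_continuous h2 ?_
    rintro ⟨y, x⟩
    exact ⟨y.2, Set.mem_univ _⟩
  have h3 : Continuous (fun y : Set.Ioi (0 : ℝ) =>
      ∫ x in (0 : ℝ)..1, G (ofComplex (x + (y : ℝ) * Complex.I))) :=
    intervalIntegral.continuous_parametric_intervalIntegral_of_continuous' hcont 0 1
  have h4 : ContinuousOn (cterm G) (Set.Ioi 0) := by
    rw [continuousOn_iff_continuous_domRestrict]
    exact h3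
  exact h4.continuousAt (isOpen_Ioi.mem_nhds hy)

theorem StripB_inner {G : ℍ → ℝ} (hG : Continuous G) (h0 : ∀ z, 0 ≤ G z) (y : ℝ) :
    ∫⁻ x in Set.Ico (0 : ℝ) 1, ENNReal.ofReal (G (ofComplex (x + y * Complex.I))) =
      ENNReal.ofReal (cterm G y) := by
  unfold cterm
  rw [intervalIntegral.integral_of_le zero_le_one, ← integral_Icc_eq_integral_Ioc,
    integral_Icc_eq_integral_Ico, ofReal_integral_eq_lintegral_ofReal]
  · exact ((StripB_slice hG y).continuousOn.integrableOn_Icc).mono_set Set.Ico_subset_Icc_self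
  · exact Filter.Eventually.of_forall (fun _ => h0 _)

theorem lintegral_strip {G : ℍ → ℝ} (hG : Continuous G) (h0 : ∀ z, 0 ≤ G z) {h : ℝ → ℝ}
    (hh : Measurable h) (hh0 : ∀ y, 0 ≤ h y) :
    ∫⁻ z in strip, ENNReal.ofReal (G z * h z.im) =
      ∫⁻ y in Set.Ioi (0 : ℝ), ENNReal.ofReal (cterm G y * h y / y ^ 2) := by
  have hGm : Measurable (fun w : ℂ => G (ofComplex w)) := StripB_meas hG
  have hstrip : MeasurableSet strip := by
    have h1 : Measurable (fun z : ℍ => z.re) := UpperHalfPlane.continuous_re.measurable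
    exact (measurableSet_le measurable_const h1).inter (measurableSet_lt h1 measurable_const)
  -- the integrand on the plane
  set Φ : ℂ → ℝ≥0∞ := fun w => (({w : ℂ | 0 ≤ w.re ∧ w.re < 1} : Set ℂ).indicator
    (fun w : ℂ => ENNReal.ofReal (G (ofComplex w) * h w.im / w.im ^ 2)) w) with hΦ
  have hset : MeasurableSet ({w : ℂ | 0 ≤ w.re ∧ w.re < 1} : Set ℂ) :=
    (measurableSet_le measurable_const Complex.measurable_re).inter
      (measurableSet_lt Complex.measurable_re measurable_const)
  have hΦm : Measurable Φ := by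
    refine Measurable.indicator ?_ hset
    exact (((hGm.mul (hh.comp Complex.measurable_im)).div
      (Complex.measurable_im.pow_const 2))).ennreal_ofReal
  have hmp : MeasurePreserving UpperHalfPlane.coe (volume.comap UpperHalfPlane.coe)
      (volume.restrict (.range UpperHalfPlane.coe)) :=
    ⟨measurable_coe, by rw [measurableEmbedding_coe.map_comap]⟩
  have hrange : Set.range UpperHalfPlane.coe = {w : ℂ | 0 < w.im} := by
    ext w
    constructor
    · rintro ⟨z, rfl⟩
      exact z.im_pos
    · intro hw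
      exact ⟨⟨w, hw⟩, rfl⟩
  have hdens : Measurable (fun z : ℍ => ((((1 / NNReal.mk z.im z.im_pos.le : NNReal) ^ 2 : NNReal)) : ℝ≥0∞)) := by
    refine Measurable.coe_nnreal_ennreal ?_
    refine Continuous.measurable ?_
    refine .pow (.div₀ continuous_const ?_ ?_) _
    · exact continuous_im.subtype_mk _
    · exact fun x ↦ NNReal.ne_iff.mp x.im_ne_zero
  have hFm : Measurable (fun z : ℍ => ENNReal.ofReal (G z * h z.im)) :=
    (hG.measurable.mul (hh.comp UpperHalfPlane.continuous_im.measurable)).ennreal_ofReal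
  have s1 : ∫⁻ z in strip, ENNReal.ofReal (G z * h z.im) =
      ∫⁻ z, Φ (UpperHalfPlane.coe z) ∂(volume.comap UpperHalfPlane.coe) := by
    rw [← lintegral_indicator hstrip, volume_def,
      lintegral_withDensity_eq_lintegral_mul _ hdens (hFm.indicator hstrip)]
    refine lintegral_congr fun z => ?_
    simp only [Pi.mul_apply, hΦ]
    by_cases hz : z ∈ strip
    · have hz' : UpperHalfPlane.coe z ∈ ({w : ℂ | 0 ≤ w.re ∧ w.re < 1} : Set ℂ) := hz
      rw [Set.indicator_of_mem hz, Set.indicator_of_mem hz', ofComplex_apply]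
      have e1 : ((((1 / NNReal.mk z.im z.im_pos.le : NNReal) ^ 2 : NNReal)) : ℝ≥0∞) =
          ENNReal.ofReal ((1 / z.im) ^ 2) := by
        rw [ENNReal.ofReal, ENNReal.coe_inj]
        ext
        rw [Real.coe_toNNReal _ (by positivity)]
        simp
      rw [e1, ← ENNReal.ofReal_mul (by positivity)]
      congr 1
      have : ((z : ℂ)).im = z.im := rfl
      rw [this]
      have hz0 : z.im ≠ 0 := z.im_ne_zero
      field_simp
    · have hz' : UpperHalfPlane.coe z ∉ ({w : ℂ | 0 ≤ w.re ∧ w.re < 1} : Set ℂ) := hz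
      rw [Set.indicator_of_notMem hz, Set.indicator_of_notMem hz', mul_zero]
  rw [s1, hmp.lintegral_comp hΦm, hrange]
  -- pass to the product
  have hvp := Complex.volume_preserving_equiv_real_prod.symm
  have hUm : MeasurableSet {w : ℂ | 0 < w.im} :=
    measurableSet_lt measurable_const Complex.measurable_im
  rw [← hvp.setLIntegral_comp_preimage hUm hΦm]
  have hpre : (⇑Complex.measurableEquivRealProd.symm ⁻¹' {w : ℂ | 0 < w.im}) =
      (Set.univ : Set ℝ) ×ˢ Set.Ioi (0 : ℝ) := by
    ext p
    simp [Complex.measurableEquivRealProd_symm_apply]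
  rw [hpre]
  have hvol : (volume : Measure (ℝ × ℝ)).restrict ((Set.univ : Set ℝ) ×ˢ Set.Ioi (0 : ℝ)) =
      (volume : Measure ℝ).prod ((volume : Measure ℝ).restrict (Set.Ioi 0)) := by
    rw [Measure.volume_eq_prod, ← Measure.prod_restrict, Measure.restrict_univ]
  have hΨm : Measurable (fun p : ℝ × ℝ => Φ (Complex.measurableEquivRealProd.symm p)) :=
    hΦm.comp Complex.measurableEquivRealProd.symm.measurable
  rw [hvol, lintegral_prod_symm' _ hΨm]
  refine setLIntegral_congr_fun measurableSet_Ioi fun y hy => ?_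
  have hy0 : (0 : ℝ) < y := hy
  have e2 : ∀ x : ℝ, Φ (Complex.measurableEquivRealProd.symm (x, y)) =
      (Set.Ico (0 : ℝ) 1).indicator (fun x : ℝ =>
        ENNReal.ofReal (h y / y ^ 2) *
          ENNReal.ofReal (G (ofComplex (x + y * Complex.I)))) x := by
    intro x
    have e3 : (Complex.measurableEquivRealProd.symm (x, y) : ℂ) = x + y * Complex.I := by
      rw [Complex.measurableEquivRealProd_symm_apply]
      apply Complex.ext <;> simp
    rw [e3]
    simp only [hΦ]
    by_cases hx : x ∈ Set.Ico (0 : ℝ) 1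
    · have hx' : ((x : ℂ) + y * Complex.I) ∈ ({w : ℂ | 0 ≤ w.re ∧ w.re < 1} : Set ℂ) := by
        simpa using hx
      rw [Set.indicator_of_mem hx, Set.indicator_of_mem hx',
        ← ENNReal.ofReal_mul (div_nonneg (hh0 y) (by positivity))]
      congr 1
      have : ((x : ℂ) + y * Complex.I).im = y := by simp
      rw [this]
      ring
    · have hx' : ((x : ℂ) + y * Complex.I) ∉ ({w : ℂ | 0 ≤ w.re ∧ w.re < 1} : Set ℂ) := by
        simpa using hx
      rw [Set.indicator_of_notMem hx, Set.indicator_of_notMem hx']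
  simp only [e2]
  rw [lintegral_indicator measurableSet_Ico, lintegral_const_mul _
    ((StripB_slice hG y).measurable.ennreal_ofReal), StripB_inner hG h0 y,
    ← ENNReal.ofReal_mul (div_nonneg (hh0 y) (by positivity))]
  congr 1
  ring

end Pool.Agent.MaassRS74
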