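import Pool.Agent.W_7742r_h74.Defs

/-!
# The theta function: convergence and functional equation

* `th_lt_top`: `qf z (m, n) = ((m x + n) ^ 2 + m ^ 2 y ^ 2) / y` is a positive definite quadratic
  form, so `qf z v ≥ c (m ^ 2 + n ^ 2) ≥ c (|m| + |n|)` with `c > 0` depending on `z`, and the double
  series is bounded by a product of two geometric series.
* `th_inv`: twice `Complex.tsum_exp_neg_quadratic`.  With `z = x + i y` the inner sum over `n` of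
  `exp(-π (t / y) (n + m x) ^ 2)` is `(y / t) ^ (1 / 2) ∑_k exp(-π y k ^ 2 / t + 2 π i k m x)`
  (`a = t / y`, `b = -(t / y) m x`); then the sum over `m` of
  `exp(-π t y m ^ 2 + 2 π i k x m)` is `(t y) ^ (-1 / 2) ∑_l exp(-π (l - k x) ^ 2 / (t y))`
  (`a = t y`, `b = i k x`).  So `Θ(t, z) = t⁻¹ ∑_{k, l} exp(-(π / t) (k ^ 2 y ^ 2 + (l - k x) ^ 2) / y)`,
  and `k ^ 2 y ^ 2 + (l - k x) ^ 2 = |l - k z| ^ 2`; replace `k` by `-k`.  (All double series
  converge absolutely; do the computation with complex valued `tsum` and take real parts, then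
  `ENNReal.ofReal_tsum_of_nonneg`.)
-/

set_option autoImplicit false

noncomputable section

namespace Pool.Agent.MaassRS74

open UpperHalfPlane ENNReal

theorem ThA_sq {c : ℝ} (hc : 0 < c) :
    Summable (fun n : ℤ => Real.exp (-(Real.pi * c * (n : ℝ) ^ 2))) := by
  have h := (summable_jacobiTheta₂_term_iff 0 (c * Complex.I)).2 (by simpa using hc)
  refine h.norm.congr fun n => ?_
  rw [norm_jacobiTheta₂_term]
  congr 1
  simp
  ring

theorem ThA_qf (z : ℍ) (m n : ℤ) :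
    qf z (m, n) = (((m : ℝ) * z.re + n) ^ 2 + ((m : ℝ) * z.im) ^ 2) / z.im := by
  unfold qf
  rw [← Complex.normSq_eq_norm_sq, Complex.normSq_apply]
  congr 1
  simp
  ring

/-- The real terms. -/
def ThA_F (t : ℝ) (z : ℍ) (v : ℤ × ℤ) : ℝ := Real.exp (-(Real.pi * t * qf z v))

theorem ThA_summable {t : ℝ} (ht : 0 < t) (z : ℍ) : Summable (ThA_F t z) := by
  have hy : 0 < z.im := z.im_pos
  obtain ⟨d, hd⟩ : ∃ d : ℝ, d = min 1 (z.im ^ 2 / (2 * z.re ^ 2 + 1)) := ⟨_, rfl⟩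
  have hd0 : 0 < d := by
    rw [hd]
    refine lt_min one_pos ?_
    positivity
  have hd1 : d ≤ 1 := by rw [hd]; exact min_le_left _ _
  have hd2 : d * (2 * z.re ^ 2 + 1) ≤ z.im ^ 2 := by
    rw [← le_div_iff₀ (by positivity), hd]
    exact min_le_right _ _
  have h1 := ThA_sq (c := t * z.im / 2) (by positivity)
  have h2 := ThA_sq (c := t * d / (2 * z.im)) (by positivity)
  have h3 := Summable.mul_of_nonneg h1 h2 (fun n => (Real.exp_pos _).le) (fun n => (Real.exp_pos _).le)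
  refine Summable.of_nonneg_of_le (fun v => (Real.exp_pos _).le) (fun v => ?_) h3
  obtain ⟨m, n⟩ := v
  unfold ThA_F
  rw [← Real.exp_add, Real.exp_le_exp, ThA_qf]
  simp only
  have key : z.im ^ 2 / 2 * (m : ℝ) ^ 2 + d / 2 * (n : ℝ) ^ 2 ≤
      ((m : ℝ) * z.re + n) ^ 2 + ((m : ℝ) * z.im) ^ 2 := by
    have e1 : 0 ≤ ((m : ℝ) * z.re + n + (m : ℝ) * z.re) ^ 2 := sq_nonneg _
    have e2 : (n : ℝ) ^ 2 / 2 - (m : ℝ) ^ 2 * z.re ^ 2 ≤ ((m : ℝ) * z.re + n) ^ 2 := by nlinarith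
    have e3 : d * ((n : ℝ) ^ 2 / 2 - (m : ℝ) ^ 2 * z.re ^ 2) ≤ ((m : ℝ) * z.re + n) ^ 2 := by
      have e4 : d * ((n : ℝ) ^ 2 / 2 - (m : ℝ) ^ 2 * z.re ^ 2) ≤ d * ((m : ℝ) * z.re + n) ^ 2 :=
        mul_le_mul_of_nonneg_left e2 hd0.le
      have e5 : d * ((m : ℝ) * z.re + n) ^ 2 ≤ 1 * ((m : ℝ) * z.re + n) ^ 2 :=
        mul_le_mul_of_nonneg_right hd1 (sq_nonneg _)
      linarith
    have e6 : d * z.re ^ 2 ≤ z.im ^ 2 / 2 := by nlinarith
    have e7 : (m : ℝ) ^ 2 * (d * z.re ^ 2) ≤ (m : ℝ) ^ 2 * (z.im ^ 2 / 2) :=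
      mul_le_mul_of_nonneg_left e6 (sq_nonneg _)
    nlinarith
  have key2 := mul_le_mul_of_nonneg_left key (show 0 ≤ Real.pi * t / z.im by positivity)
  have e1 : Real.pi * t / z.im * (z.im ^ 2 / 2 * (m : ℝ) ^ 2 + d / 2 * (n : ℝ) ^ 2) =
      Real.pi * (t * z.im / 2) * (m : ℝ) ^ 2 + Real.pi * (t * d / (2 * z.im)) * (n : ℝ) ^ 2 := by
    field_simp
  have e2 : Real.pi * t * ((((m : ℝ) * z.re + n) ^ 2 + ((m : ℝ) * z.im) ^ 2) / z.im) =
      Real.pi * t / z.im * (((m : ℝ) * z.re + n) ^ 2 + ((m : ℝ) * z.im) ^ 2) := by ring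
  rw [e2]
  linarith

theorem ThA_th {t : ℝ} (ht : 0 < t) (z : ℍ) : th t z = ENNReal.ofReal (∑' v, ThA_F t z v) := by
  exact (ENNReal.ofReal_tsum_of_nonneg (f := ThA_F t z) (fun v => (Real.exp_pos _).le)
    (ThA_summable ht z)).symm

/-- The mixed terms. -/
def ThA_H (t x y : ℝ) (m k : ℤ) : ℂ :=
  Complex.exp (-Real.pi * (t * y : ℝ) * (m : ℂ) ^ 2) *
    Complex.exp (-Real.pi * (y / t : ℝ) * (k : ℂ) ^ 2 + 2 * Real.pi * (-(Complex.I * m * x)) * k)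

theorem ThA_H_summable {t x y : ℝ} (ht : 0 < t) (hy : 0 < y) :
    Summable (Function.uncurry (ThA_H t x y)) := by
  have h1 := ThA_sq (c := t * y) (by positivity)
  have h2 := ThA_sq (c := y / t) (by positivity)
  have h3 := Summable.mul_of_nonneg h1 h2 (fun n => (Real.exp_pos _).le) (fun n => (Real.exp_pos _).le)
  refine Summable.of_norm (h3.congr fun v => ?_)
  obtain ⟨m, k⟩ := v
  show _ = ‖ThA_H t x y m k‖
  unfold ThA_H
  rw [norm_mul, Complex.norm_exp, Complex.norm_exp]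
  congr 2
  · have e : -(Real.pi : ℂ) * ((t * y : ℝ) : ℂ) * (m : ℂ) ^ 2 =
        ((-(Real.pi * (t * y) * (m : ℝ) ^ 2) : ℝ) : ℂ) := by push_cast; ring
    rw [e, Complex.ofReal_re]
  · have e : -(Real.pi : ℂ) * ((y / t : ℝ) : ℂ) * (k : ℂ) ^ 2 +
        2 * Real.pi * (-(Complex.I * m * x)) * k =
        ((-(Real.pi * (y / t) * (k : ℝ) ^ 2) : ℝ) : ℂ) +
          ((-(2 * Real.pi * m * x * k) : ℝ) : ℂ) * Complex.I := by push_cast; ring
    rw [e, Complex.add_re, Complex.ofReal_re, Complex.re_ofReal_mul]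
    simp

/-- The inner sum. -/
theorem ThA_inner {t : ℝ} (ht : 0 < t) (z : ℍ) (m : ℤ) :
    ∑' n : ℤ, ((ThA_F t z (m, n) : ℝ) : ℂ) =
      ((z.im / t : ℝ) : ℂ) ^ (1 / 2 : ℂ) * ∑' k : ℤ, ThA_H t z.re z.im m k := by
  have hy : 0 < z.im := z.im_pos
  have hyt : 0 < z.im / t := by positivity
  have h := Complex.tsum_exp_neg_quadratic (a := ((z.im / t : ℝ) : ℂ)) (by rwa [Complex.ofReal_re])
    (-(Complex.I * m * z.re))
  have hne : ((z.im / t : ℝ) : ℂ) ^ (1 / 2 : ℂ) ≠ 0 := by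
    rw [Complex.cpow_def_of_ne_zero (by exact_mod_cast hyt.ne')]
    exact Complex.exp_ne_zero _
  unfold ThA_H
  rw [tsum_mul_left, h]
  have e0 : ∀ A E S : ℂ, A ≠ 0 → A * (E * (1 / A * S)) = E * S := by
    intro A E S hA
    field_simp
  rw [e0 _ _ _ hne, ← tsum_mul_left]
  refine tsum_congr fun n => ?_
  rw [← Complex.exp_add]
  unfold ThA_F
  rw [ThA_qf, Complex.ofReal_exp]
  congr 1
  have hyc : (z.im : ℂ) ≠ 0 := by exact_mod_cast hy.ne'
  have htc : (t : ℂ) ≠ 0 := by exact_mod_cast ht.ne'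
  have e : Complex.I * (-(Complex.I * m * z.re)) = (m : ℂ) * z.re := by
    have := Complex.I_sq
    linear_combination (-(m : ℂ) * z.re) * this
  rw [e]
  push_cast
  field_simp
  ring

/-- The outer sum. -/
theorem ThA_outer {t : ℝ} (ht : 0 < t) (z : ℍ) (k : ℤ) :
    ∑' m : ℤ, ThA_H t z.re z.im m k =
      1 / ((t * z.im : ℝ) : ℂ) ^ (1 / 2 : ℂ) * ∑' l : ℤ, ((ThA_F t⁻¹ z (k, l) : ℝ) : ℂ) := by
  have hy : 0 < z.im := z.im_pos
  have hty : 0 < t * z.im := by positivity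
  have h := Complex.tsum_exp_neg_quadratic (a := ((t * z.im : ℝ) : ℂ)) (by rwa [Complex.ofReal_re])
    (-(Complex.I * k * z.re))
  have e0 : ∀ m : ℤ, ThA_H t z.re z.im m k =
      Complex.exp (-Real.pi * (z.im / t : ℝ) * (k : ℂ) ^ 2) *
      Complex.exp (-Real.pi * (t * z.im : ℝ) * (m : ℂ) ^ 2 +
        2 * Real.pi * (-(Complex.I * k * z.re)) * m) := by
    intro m
    unfold ThA_H
    rw [← Complex.exp_add, ← Complex.exp_add]
    congr 1
    ring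
  rw [tsum_congr e0, tsum_mul_left, h, mul_left_comm, ← tsum_mul_left]
  congr 1
  refine tsum_congr fun n => ?_
  rw [← Complex.exp_add]
  unfold ThA_F
  rw [ThA_qf, Complex.ofReal_exp]
  congr 1
  have hyc : (z.im : ℂ) ≠ 0 := by exact_mod_cast hy.ne'
  have htc : (t : ℂ) ≠ 0 := by exact_mod_cast ht.ne'
  have e : Complex.I * (-(Complex.I * k * z.re)) = (k : ℂ) * z.re := by
    have := Complex.I_sq
    linear_combination (-(k : ℂ) * z.re) * this
  rw [e]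
  push_cast
  field_simp
  ring

theorem ThA_const {t y : ℝ} (ht : 0 < t) (hy : 0 < y) :
    ((y / t : ℝ) : ℂ) ^ (1 / 2 : ℂ) * (1 / ((t * y : ℝ) : ℂ) ^ (1 / 2 : ℂ)) = ((t⁻¹ : ℝ) : ℂ) := by
  have h1 : ((y / t : ℝ) : ℂ) ^ (1 / 2 : ℂ) = ((Real.sqrt (y / t) : ℝ) : ℂ) := by
    rw [Real.sqrt_eq_rpow, Complex.ofReal_cpow (by positivity)]
    norm_num
  have h2 : ((t * y : ℝ) : ℂ) ^ (1 / 2 : ℂ) = ((Real.sqrt (t * y) : ℝ) : ℂ) := by
    rw [Real.sqrt_eq_rpow, Complex.ofReal_cpow (by positivity)]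
    norm_num
  rw [h1, h2]
  have h3 : Real.sqrt (y / t) * (1 / Real.sqrt (t * y)) = t⁻¹ := by
    have e1 : Real.sqrt (y / t) = Real.sqrt y / Real.sqrt t := Real.sqrt_div hy.le t
    have e2 : Real.sqrt (t * y) = Real.sqrt t * Real.sqrt y := Real.sqrt_mul ht.le y
    have e3 : Real.sqrt t * Real.sqrt t = t := Real.mul_self_sqrt ht.le
    have e4 : 0 < Real.sqrt t := Real.sqrt_pos.2 ht
    have e5 : 0 < Real.sqrt y := Real.sqrt_pos.2 hy
    rw [e1, e2]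
    calc Real.sqrt y / Real.sqrt t * (1 / (Real.sqrt t * Real.sqrt y)) =
        (Real.sqrt t * Real.sqrt t)⁻¹ := by field_simp
      _ = t⁻¹ := by rw [e3]
  rw [← h3]
  push_cast
  ring

theorem ThA_real {t : ℝ} (ht : 0 < t) (z : ℍ) :
    ∑' v, ThA_F t z v = t⁻¹ * ∑' v, ThA_F t⁻¹ z v := by
  have hti : 0 < t⁻¹ := inv_pos.2 ht
  have c1 : Summable (fun v => ((ThA_F t z v : ℝ) : ℂ)) :=
    Complex.ofRealCLM.summable (ThA_summable ht z)
  have c2 : Summable (fun v => ((ThA_F t⁻¹ z v : ℝ) : ℂ)) :=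
    Complex.ofRealCLM.summable (ThA_summable hti z)
  have h1 : ((∑' v, ThA_F t z v : ℝ) : ℂ) = ((t⁻¹ * ∑' v, ThA_F t⁻¹ z v : ℝ) : ℂ) := by
    rw [Complex.ofReal_mul, Complex.ofReal_tsum, Complex.ofReal_tsum, c1.tsum_prod, c2.tsum_prod]
    rw [tsum_congr fun m => ThA_inner ht z m, tsum_mul_left,
      ← (ThA_H_summable (x := z.re) ht z.im_pos).tsum_comm, tsum_congr fun k => ThA_outer ht z k, tsum_mul_left,
      ← mul_assoc, ThA_const ht z.im_pos]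
  exact_mod_cast h1

theorem th_lt_top {t : ℝ} (ht : 0 < t) (z : ℍ) : th t z < ∞ := by
  rw [ThA_th ht]
  exact ENNReal.ofReal_lt_top

theorem th_inv {t : ℝ} (ht : 0 < t) (z : ℍ) : th t z = ENNReal.ofReal t⁻¹ * th t⁻¹ z := by
  rw [ThA_th ht, ThA_th (inv_pos.2 ht), ThA_real ht, ENNReal.ofReal_mul (inv_pos.2 ht).le]

end Pool.Agent.MaassRS74
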