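import Pool.Agent.W_7742r_h74.Defs

/-!
# The theta function: invariance

* `qf_smul`: `m (g z) + n = ((m a + n c) z + (m b + n d)) / (c z + d)` and
  `Im (g z) = Im z / |c z + d| ^ 2`.
* `th_smul`: `v ↦ v g` is a bijection of `ℤ × ℤ` (inverse: `g⁻¹`).
* `one_le_th`: the term `v = 0`.
* `th_sc_le`: `qf (e z) (m, n) = |m e z + n| ^ 2 / (e y) = qf z (e m, n) / e`, and
  `(m, n) ↦ (e m, n)` is injective.
* `measurable_th`: countable sum of continuous functions of `z`.
-/

set_option autoImplicit false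

noncomputable section

namespace Pool.Agent.MaassRS74

open UpperHalfPlane ENNReal
open scoped MatrixGroups

theorem qf_smul (g : SL(2, ℤ)) (z : ℍ) (v : ℤ × ℤ) :
    qf (g • z) v = qf z (v.1 * g 0 0 + v.2 * g 1 0, v.1 * g 0 1 + v.2 * g 1 1) := by
  have hD : (((g 1 0 : ℤ) : ℂ) * z + ((g 1 1 : ℤ) : ℂ)) ≠ 0 := by
    have := UpperHalfPlane.denom_ne_zero (g : GL (Fin 2) ℝ) z
    rwa [ModularGroup.denom_apply] at this
  have hgz : ((g • z : ℍ) : ℂ) = (((g 0 0 : ℤ) : ℂ) * z + ((g 0 1 : ℤ) : ℂ)) /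
      (((g 1 0 : ℤ) : ℂ) * z + ((g 1 1 : ℤ) : ℂ)) := by
    rw [UpperHalfPlane.coe_specialLinearGroup_apply]
    simp
  have him : (g • z).im = z.im / ‖(((g 1 0 : ℤ) : ℂ) * z + ((g 1 1 : ℤ) : ℂ))‖ ^ 2 := by
    rw [ModularGroup.im_smul_eq_div_normSq, ModularGroup.denom_apply, Complex.normSq_eq_norm_sq]
  have hz : z.im ≠ 0 := z.im_ne_zero
  have hN : ‖(((g 1 0 : ℤ) : ℂ) * z + ((g 1 1 : ℤ) : ℂ))‖ ≠ 0 := norm_ne_zero_iff.2 hD
  have key : (v.1 : ℂ) * ((g • z : ℍ) : ℂ) + v.2 =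
      (((v.1 * g 0 0 + v.2 * g 1 0 : ℤ) : ℂ) * z + ((v.1 * g 0 1 + v.2 * g 1 1 : ℤ) : ℂ)) /
      (((g 1 0 : ℤ) : ℂ) * z + ((g 1 1 : ℤ) : ℂ)) := by
    rw [hgz, eq_div_iff hD, add_mul, mul_assoc, div_mul_cancel₀ _ hD]
    push_cast
    ring
  unfold qf
  rw [key, norm_div, him]
  generalize ‖(((g 1 0 : ℤ) : ℂ) * z + ((g 1 1 : ℤ) : ℂ))‖ = D at hN
  field_simp

theorem th_smul (g : SL(2, ℤ)) (t : ℝ) (z : ℍ) : th t (g • z) = th t z := by
  have hdet : g 0 0 * g 1 1 - g 0 1 * g 1 0 = 1 := by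
    have := g.det_coe
    rwa [Matrix.det_fin_two] at this
  let E : (ℤ × ℤ) ≃ (ℤ × ℤ) :=
    { toFun := fun v => (v.1 * g 0 0 + v.2 * g 1 0, v.1 * g 0 1 + v.2 * g 1 1)
      invFun := fun w => (w.1 * g 1 1 - w.2 * g 1 0, -(w.1 * g 0 1) + w.2 * g 0 0)
      left_inv := by
        intro v
        refine Prod.ext ?_ ?_
        · show (v.1 * g 0 0 + v.2 * g 1 0) * g 1 1 - (v.1 * g 0 1 + v.2 * g 1 1) * g 1 0 = v.1
          linear_combination v.1 * hdet
        · show -((v.1 * g 0 0 + v.2 * g 1 0) * g 0 1) + (v.1 * g 0 1 + v.2 * g 1 1) * g 0 0 = v.2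
          linear_combination v.2 * hdet
      right_inv := by
        intro w
        refine Prod.ext ?_ ?_
        · show (w.1 * g 1 1 - w.2 * g 1 0) * g 0 0 + (-(w.1 * g 0 1) + w.2 * g 0 0) * g 1 0 = w.1
          linear_combination w.1 * hdet
        · show (w.1 * g 1 1 - w.2 * g 1 0) * g 0 1 + (-(w.1 * g 0 1) + w.2 * g 0 0) * g 1 1 = w.2
          linear_combination w.2 * hdet }
  have h1 : th t (g • z) =
      ∑' v : ℤ × ℤ, ENNReal.ofReal (Real.exp (-(Real.pi * t * qf z (E v)))) := by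
    unfold th
    refine tsum_congr fun v => ?_
    rw [qf_smul]
    rfl
  rw [h1]
  exact E.tsum_eq (fun w => ENNReal.ofReal (Real.exp (-(Real.pi * t * qf z w))))

theorem one_le_th (t : ℝ) (z : ℍ) : 1 ≤ th t z := by
  have h0 : qf z (0, 0) = 0 := by
    unfold qf
    simp
  have h := ENNReal.le_tsum (f := fun v : ℤ × ℤ =>
    ENNReal.ofReal (Real.exp (-(Real.pi * t * qf z v)))) (0, 0)
  have h2 : ENNReal.ofReal (Real.exp (-(Real.pi * t * qf z (0, 0)))) = 1 := by
    rw [h0]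
    simp
  rw [← h2]
  exact h

theorem th_sc_le {e : ℕ} (he : 0 < e) (t : ℝ) (z : ℍ) : th t (sc e z) ≤ th (t / e) z := by
  have he' : (0 : ℝ) < e := Nat.cast_pos.2 he
  have hpos : 0 < ((e : ℂ) * z).im := by
    have : ((e : ℂ) * z).im = e * z.im := by
      simp
    rw [this]
    exact mul_pos he' z.im_pos
  have hc : ((sc e z : ℍ) : ℂ) = (e : ℂ) * z := by
    unfold sc
    rw [ofComplex_apply_of_im_pos hpos]
  have him : (sc e z).im = e * z.im := by
    have : (sc e z).im = ((sc e z : ℍ) : ℂ).im := rfl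
    rw [this, hc]
    simp
  have hq : ∀ v : ℤ × ℤ, Real.exp (-(Real.pi * t * qf (sc e z) v)) =
      Real.exp (-(Real.pi * (t / e) * qf z ((e : ℤ) * v.1, v.2))) := by
    intro v
    have hz : z.im ≠ 0 := z.im_ne_zero
    have hn : (v.1 : ℂ) * ((sc e z : ℍ) : ℂ) + v.2 =
        ((((e : ℤ) * v.1 : ℤ)) : ℂ) * z + v.2 := by
      rw [hc]
      push_cast
      ring
    unfold qf
    rw [hn, him]
    congr 1
    field_simp
  have h1 : th t (sc e z) = ∑' v : ℤ × ℤ,
      (fun w : ℤ × ℤ => ENNReal.ofReal (Real.exp (-(Real.pi * (t / e) * qf z w))))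
        ((fun v : ℤ × ℤ => ((e : ℤ) * v.1, v.2)) v) := by
    unfold th
    refine tsum_congr fun v => ?_
    rw [hq v]
  rw [h1]
  refine ENNReal.tsum_comp_le_tsum_of_injective (f := fun v : ℤ × ℤ => ((e : ℤ) * v.1, v.2)) ?_ _
  intro v w h
  have h' : (((e : ℤ) * v.1, v.2) : ℤ × ℤ) = ((e : ℤ) * w.1, w.2) := h
  have hv1 : (e : ℤ) * v.1 = (e : ℤ) * w.1 := (Prod.ext_iff.1 h').1
  have hv2 : v.2 = w.2 := (Prod.ext_iff.1 h').2
  refine Prod.ext (mul_left_cancel₀ ?_ hv1) hv2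
  exact_mod_cast he.ne'

theorem measurable_th (t : ℝ) : Measurable (th t) := by
  have hcoe : Continuous (fun z : ℍ => (z : ℂ)) := UpperHalfPlane.continuous_coe
  have him : Continuous (fun z : ℍ => z.im) := UpperHalfPlane.continuous_im
  have hqf : ∀ v : ℤ × ℤ, Continuous fun z : ℍ => qf z v := by
    intro v
    unfold qf
    exact (((continuous_const.mul hcoe).add continuous_const).norm.pow 2).div him
      (fun z => z.im_ne_zero)
  have hth : th t = fun z => ∑' v : ℤ × ℤ,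
      ENNReal.ofReal (Real.exp (-(Real.pi * t * qf z v))) := rfl
  rw [hth]
  refine Measurable.tsum fun v => ?_
  refine ENNReal.measurable_ofReal.comp ?_
  exact (Real.continuous_exp.comp (continuous_const.mul (hqf v)).neg).measurable

theorem measurable_sc (e : ℕ) : Measurable (sc e) := by
  rcases Nat.eq_zero_or_pos e with rfl | he
  · have : sc 0 = fun _ => ofComplex 0 := by
      funext z
      unfold sc
      simp
    rw [this]
    exact measurable_const
  · have he' : (0 : ℝ) < e := Nat.cast_pos.2 he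
    have hc : ∀ z : ℍ, ((sc e z : ℍ) : ℂ) = (e : ℂ) * z := by
      intro z
      have hpos : 0 < ((e : ℂ) * z).im := by
        have : ((e : ℂ) * z).im = e * z.im := by
          simp
        rw [this]
        exact mul_pos he' z.im_pos
      unfold sc
      rw [ofComplex_apply_of_im_pos hpos]
    have hcont : Continuous (sc e) := by
      refine UpperHalfPlane.isEmbedding_coe.continuous_iff.2 ?_
      have : ((fun z : ℍ => (z : ℂ)) ∘ sc e) = fun z : ℍ => (e : ℂ) * z := by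
        funext z
        exact hc z
      rw [this]
      exact continuous_const.mul UpperHalfPlane.continuous_coe
    exact hcont.measurable

end Pool.Agent.MaassRS74
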