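import Pool.Agent.W_7742r_h74.Defs

/-!
# Unfolding: abstract form

`unfold_abstract`: `∫ w(x) ∑_g F(g x) = ∑_g ∫ w(x) F(g x) = ∑_g ∫ w(g⁻¹ x) F(x)
= ∫ F(x) ∑_g w(g⁻¹ x) = ∫ F` (`lintegral_tsum`, `MeasurePreserving.lintegral_comp`, the sum over
`g⁻¹` is the sum over `g`).
-/

set_option autoImplicit false

noncomputable section

namespace Pool.Agent.MaassRS74

open UpperHalfPlane ENNReal MeasureTheory CongruenceSubgroup
open scoped MatrixGroups

theorem unfold_abstract {X : Type} [MeasurableSpace X] (μ : Measure X)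
    {G : Type} [Group G] [Countable G] [MulAction G X]
    (hG : ∀ g : G, MeasurePreserving (fun x : X => g • x) μ μ)
    (w : X → ℝ≥0∞) (hw : Measurable w) (hw1 : ∀ᵐ x ∂μ, ∑' g : G, w (g • x) = 1)
    (F : X → ℝ≥0∞) (hF : Measurable F) :
    ∫⁻ x, w x * ∑' g : G, F (g • x) ∂μ = ∫⁻ x, F x ∂μ := by
  have hm : ∀ g : G, Measurable (fun x : X => g • x) := fun g => (hG g).measurable
  have h1 : ∀ x, w x * ∑' g : G, F (g • x) = ∑' g : G, w x * F (g • x) := fun x => ENNReal.tsum_mul_left.symm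
  simp_rw [h1]
  have k1 : ∀ g : G, AEMeasurable (fun x => w x * F (g • x)) μ := fun g => (hw.mul (hF.comp (hm g))).aemeasurable
  rw [lintegral_tsum k1]
  have h2 : ∀ g : G, ∫⁻ x, w x * F (g • x) ∂μ = ∫⁻ x, w (g⁻¹ • x) * F x ∂μ := by
    intro g
    have h3 := (hG g).lintegral_comp (f := fun x => w (g⁻¹ • x) * F x) ((hw.comp (hm g⁻¹)).mul hF)
    rw [← h3]
    refine lintegral_congr fun x => ?_
    show w x * F (g • x) = w (g⁻¹ • g • x) * F (g • x)
    rw [inv_smul_smul]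
  simp_rw [h2]
  have k2 : ∀ g : G, AEMeasurable (fun x => w (g⁻¹ • x) * F x) μ :=
    fun g => ((hw.comp (hm g⁻¹)).mul hF).aemeasurable
  rw [← lintegral_tsum k2]
  refine lintegral_congr_ae ?_
  filter_upwards [hw1] with x hx
  rw [ENNReal.tsum_mul_right]
  have h4 : ∑' g : G, w (g⁻¹ • x) = ∑' g : G, w (g • x) := (Equiv.inv G).tsum_eq (fun g => w (g • x))
  rw [h4, hx, one_mul]

end Pool.Agent.MaassRS74
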