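import Pool.Agent.W_7742r_h74.Defs

/-!
# Unfolding: bottom rows

`strip_sum`: an element `γ` of `Γ₀(M)` is determined by its bottom row `(c, d)` up to left
multiplication by a power of `T`; every coprime `(c, d)` with `M ∣ c` occurs
(`ModularGroup.bottom_row_surj`), and for given `γ₀` exactly one `n` satisfies
`Re (T ^ n γ₀ z) ∈ [0, 1)`.  Moreover `Im (γ z) = Im z / |c z + d| ^ 2 = (qf z (c, d))⁻¹`.
-/

set_option autoImplicit false

noncomputable section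

namespace Pool.Agent.MaassRS74

open UpperHalfPlane ENNReal MeasureTheory CongruenceSubgroup
open scoped MatrixGroups

theorem UC_im (γ : SL(2, ℤ)) (z : ℍ) : (γ • z).im = (qf z (γ 1 0, γ 1 1))⁻¹ := by
  rw [ModularGroup.im_smul_eq_div_normSq, ModularGroup.denom_apply, Complex.normSq_eq_norm_sq]
  unfold qf
  rw [inv_div]

/-- Elements with the same bottom row. -/
theorem UC_row (γ γ' : SL(2, ℤ)) (h0 : γ 1 0 = γ' 1 0) (h1 : γ 1 1 = γ' 1 1) :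
    ∃ n : ℤ, γ' = ModularGroup.T ^ n * γ := by
  have d1 := Matrix.det_fin_two γ.1
  have d2 := Matrix.det_fin_two γ'.1
  rw [γ.2] at d1
  rw [γ'.2] at d2
  refine ⟨γ 0 0 * γ' 0 1 - γ' 0 0 * γ 0 1, ?_⟩
  ext i j
  rw [Matrix.SpecialLinearGroup.coe_mul, ModularGroup.coe_T_zpow]
  fin_cases i <;> fin_cases j
  · simp [Matrix.mul_apply, Fin.sum_univ_two]
    rw [← h0, ← h1] at d2
    linear_combination γ' 0 0 * d1 - γ 0 0 * d2
  · simp [Matrix.mul_apply, Fin.sum_univ_two]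
    rw [← h0, ← h1] at d2
    linear_combination γ' 0 1 * d1 - γ 0 1 * d2
  · simp [Matrix.mul_apply, Fin.sum_univ_two, h0]
  · simp [Matrix.mul_apply, Fin.sum_univ_two, h1]

theorem UC_mem (M : ℕ) (γ : SL(2, ℤ)) : γ ∈ Gamma0 M ↔ (M : ℤ) ∣ γ 1 0 := by
  rw [Gamma0_mem]
  exact CharP.intCast_eq_zero_iff (ZMod M) M _

/-- The bottom row. -/
def UC_phi (M : ℕ) (γ : Gamma0 M) : Row M :=
  ⟨((γ : SL(2, ℤ)) 1 0, (γ : SL(2, ℤ)) 1 1), ModularGroup.bottom_row_coprime _, (UC_mem M _).1 γ.2⟩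

theorem UC_bij (M : ℕ) (z : ℍ) : Function.Bijective
    (fun γ : {γ : Gamma0 M | ((γ : SL(2, ℤ)) • z) ∈ strip} => UC_phi M γ.1) := by
  constructor
  · rintro ⟨γ, hγ⟩ ⟨γ', hγ'⟩ h
    have h2 := congrArg Subtype.val h
    have h3 : (γ : SL(2, ℤ)) 1 0 = (γ' : SL(2, ℤ)) 1 0 := congrArg Prod.fst h2
    have h4 : (γ : SL(2, ℤ)) 1 1 = (γ' : SL(2, ℤ)) 1 1 := congrArg Prod.snd h2
    obtain ⟨n, hn⟩ := UC_row _ _ h3 h4
    have h5 : ((γ' : SL(2, ℤ)) • z).re = ((γ : SL(2, ℤ)) • z).re + n := by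
      rw [hn, mul_smul, ModularGroup.re_T_zpow_smul]
    have h6 : 0 ≤ ((γ : SL(2, ℤ)) • z).re ∧ ((γ : SL(2, ℤ)) • z).re < 1 := hγ
    have h7 : 0 ≤ ((γ' : SL(2, ℤ)) • z).re ∧ ((γ' : SL(2, ℤ)) • z).re < 1 := hγ'
    have h8 : n < 1 := by
      have : (n : ℝ) < 1 := by linarith [h6.1, h7.2]
      exact_mod_cast this
    have h9 : -1 < n := by
      have : (-1 : ℝ) < n := by linarith [h6.2, h7.1]
      exact_mod_cast this
    have h10 : n = 0 := by omega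
    rw [h10, zpow_zero, one_mul] at hn
    apply Subtype.ext
    apply Subtype.ext
    exact hn.symm
  · rintro ⟨⟨c, d⟩, hcd, hM⟩
    obtain ⟨u, v, huv⟩ := hcd
    set γ₀ : SL(2, ℤ) := ⟨!![v, -u; c, d], by
      rw [Matrix.det_fin_two_of]
      linear_combination huv⟩ with hγ₀
    have g0 : γ₀ 1 0 = c := rfl
    have g1 : γ₀ 1 1 = d := rfl
    set n : ℤ := -⌊(γ₀ • z).re⌋ with hn
    have r0 : (ModularGroup.T ^ n * γ₀) 1 0 = c := by
      rw [Matrix.SpecialLinearGroup.coe_mul, ModularGroup.coe_T_zpow]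
      simp [Matrix.mul_apply, Fin.sum_univ_two, g0]
    have r1 : (ModularGroup.T ^ n * γ₀) 1 1 = d := by
      rw [Matrix.SpecialLinearGroup.coe_mul, ModularGroup.coe_T_zpow]
      simp [Matrix.mul_apply, Fin.sum_univ_two, g1]
    refine ⟨⟨⟨ModularGroup.T ^ n * γ₀, (UC_mem M _).2 (by rw [r0]; exact hM)⟩, ?_⟩, ?_⟩
    · show 0 ≤ ((ModularGroup.T ^ n * γ₀) • z).re ∧ ((ModularGroup.T ^ n * γ₀) • z).re < 1
      rw [mul_smul, ModularGroup.re_T_zpow_smul, hn]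
      push_cast
      constructor
      · linarith [Int.floor_le (γ₀ • z).re]
      · linarith [Int.lt_floor_add_one (γ₀ • z).re]
    · apply Subtype.ext
      exact Prod.ext r0 r1

open Classical in
theorem strip_sum (M : ℕ) (z : ℍ) (h : ℝ → ℝ≥0∞) :
    ∑' γ : Gamma0 M, (if ((γ : SL(2, ℤ)) • z) ∈ strip then h ((γ : SL(2, ℤ)) • z).im else 0) =
      ∑' v : Row M, h (qf z v.1)⁻¹ := by
  rw [← (Equiv.ofBijective _ (UC_bij M z)).tsum_eq (fun v : Row M => h (qf z v.1)⁻¹)]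
  have h1 : ∀ γ : {γ : Gamma0 M | ((γ : SL(2, ℤ)) • z) ∈ strip},
      h (qf z ((Equiv.ofBijective _ (UC_bij M z)) γ).1)⁻¹ =
        (fun γ : Gamma0 M => h ((γ : SL(2, ℤ)) • z).im) γ.1 := by
    intro γ
    show h (qf z (((γ.1 : Gamma0 M) : SL(2, ℤ)) 1 0, ((γ.1 : Gamma0 M) : SL(2, ℤ)) 1 1))⁻¹ = h (((γ.1 : Gamma0 M) : SL(2, ℤ)) • z).im
    rw [UC_im]
  rw [tsum_congr h1, tsum_subtype {γ : Gamma0 M | ((γ : SL(2, ℤ)) • z) ∈ strip}
    (fun γ : Gamma0 M => h ((γ : SL(2, ℤ)) • z).im)]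
  refine tsum_congr fun γ => ?_
  rw [Set.indicator_apply]
  rfl

end Pool.Agent.MaassRS74
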