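import Pool.Agent.W_7742r_h74.Defs

/-!
# Unfolding: primitive vectors

`prim_sum`: every `v ≠ 0` with `M ∣ v.1`, `(v.2, M) = 1` is `k (c, d)` with a unique `k > 0`
(the gcd) and a unique primitive `(c, d)`; `k` is prime to `M`, so `M ∣ c`, and conversely;
`qf z (k c, k d) = k ^ 2 qf z (c, d)`.  The vector `v = 0` satisfies the conditions if and only
if `M = 1` and contributes `exp 0 = 1`.
-/

set_option autoImplicit false

noncomputable section

namespace Pool.Agent.MaassRS74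

open UpperHalfPlane ENNReal MeasureTheory CongruenceSubgroup
open scoped MatrixGroups

theorem UD_qf (z : ℍ) (k : ℕ) (c d : ℤ) : qf z ((k : ℤ) * c, (k : ℤ) * d) = (k : ℝ) ^ 2 * qf z (c, d) := by
  unfold qf
  have h : (((k : ℤ) * c : ℤ) : ℂ) * z + (((k : ℤ) * d : ℤ) : ℂ) = (k : ℂ) * ((c : ℂ) * z + d) := by
    push_cast
    ring
  show ‖(((k : ℤ) * c : ℤ) : ℂ) * z + (((k : ℤ) * d : ℤ) : ℂ)‖ ^ 2 / z.im = (k : ℝ) ^ 2 * (‖(c : ℂ) * z + d‖ ^ 2 / z.im)
  rw [h, norm_mul, Complex.norm_natCast, mul_pow, mul_div_assoc]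

theorem UD_zero (M : ℕ) : IsCoprime (0 : ℤ) (M : ℤ) ↔ M = 1 := by
  rw [isCoprime_zero_left, Int.isUnit_iff]
  omega

/-- Multiples of primitive vectors. -/
def UD_map (M : ℕ) (p : {k : ℕ | 0 < k ∧ k.Coprime M} × Row M) :
    {v : ℤ × ℤ | ((M : ℤ) ∣ v.1 ∧ IsCoprime v.2 (M : ℤ)) ∧ v ≠ 0} :=
  ⟨((p.1.1 : ℤ) * p.2.1.1, (p.1.1 : ℤ) * p.2.1.2), by
    obtain ⟨⟨k, hk0, hk⟩, ⟨⟨c, d⟩, hcd, hM⟩⟩ := p
    refine ⟨⟨Dvd.dvd.mul_left hM _, ?_⟩, ?_⟩
    · apply IsCoprime.mul_left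
      · exact Nat.isCoprime_iff_coprime.2 hk
      · exact (hcd.of_isCoprime_of_dvd_left hM).symm
    · intro h
      have h1 : (k : ℤ) * c = 0 := congrArg Prod.fst h
      have h2 : (k : ℤ) * d = 0 := congrArg Prod.snd h
      have hk' : (k : ℤ) ≠ 0 := by
        have : 0 < k := hk0
        omega
      have h3 : c = 0 := (mul_eq_zero.1 h1).resolve_left hk'
      have h4 : d = 0 := (mul_eq_zero.1 h2).resolve_left hk'
      have h5 : IsCoprime c d := hcd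
      rw [h3, h4] at h5
      exact not_isCoprime_zero_zero h5⟩

theorem UD_bij {M : ℕ} (hM : 0 < M) : Function.Bijective (UD_map M) := by
  constructor
  · rintro ⟨⟨k, hk0, hk⟩, ⟨⟨c, d⟩, hcd, hc⟩⟩ ⟨⟨k', hk0', hk'⟩, ⟨⟨c', d'⟩, hcd', hc'⟩⟩ h
    have h1 := congrArg Subtype.val h
    have h2 : (k : ℤ) * c = (k' : ℤ) * c' := congrArg Prod.fst h1
    have h3 : (k : ℤ) * d = (k' : ℤ) * d' := congrArg Prod.snd h1
    have e1 : Int.gcd ((k : ℤ) * c) ((k : ℤ) * d) = k := by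
      have : IsCoprime c d := hcd
      rw [Int.gcd_mul_left, Int.isCoprime_iff_gcd_eq_one.1 this, mul_one, Int.natAbs_natCast]
    have e2 : Int.gcd ((k' : ℤ) * c') ((k' : ℤ) * d') = k' := by
      have : IsCoprime c' d' := hcd'
      rw [Int.gcd_mul_left, Int.isCoprime_iff_gcd_eq_one.1 this, mul_one, Int.natAbs_natCast]
    have e3 : k = k' := by
      rw [← e1, ← e2, h2, h3]
    subst e3
    have hk'' : (k : ℤ) ≠ 0 := by
      have : 0 < k := hk0
      omega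
    have h4 : c = c' := mul_left_cancel₀ hk'' h2
    have h5 : d = d' := mul_left_cancel₀ hk'' h3
    subst h4
    subst h5
    rfl
  · rintro ⟨⟨m, n⟩, ⟨hm, hn⟩, hv⟩
    have hm' : (M : ℤ) ∣ m := hm
    have hn' : IsCoprime n (M : ℤ) := hn
    have hg : 0 < Int.gcd m n := by
      apply Nat.pos_of_ne_zero
      intro h
      rw [Int.gcd_eq_zero_iff] at h
      apply hv
      rw [h.1, h.2]
      rfl
    obtain ⟨c, hc⟩ : ((Int.gcd m n : ℕ) : ℤ) ∣ m := Int.gcd_dvd_left ..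
    obtain ⟨d, hd⟩ : ((Int.gcd m n : ℕ) : ℤ) ∣ n := Int.gcd_dvd_right ..
    have hkM : IsCoprime ((Int.gcd m n : ℕ) : ℤ) (M : ℤ) := hn'.of_isCoprime_of_dvd_left ⟨d, hd⟩
    have hcd : IsCoprime c d := by
      rw [Int.isCoprime_iff_gcd_eq_one]
      have h1 : Int.gcd m n = Int.gcd m n * Int.gcd c d := by
        have h3 : Int.gcd (((Int.gcd m n : ℕ) : ℤ) * c) (((Int.gcd m n : ℕ) : ℤ) * d) =
            Int.gcd m n * Int.gcd c d := by
          rw [Int.gcd_mul_left, Int.natAbs_natCast]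
        rw [← hc, ← hd] at h3
        exact h3
      have h2 : Int.gcd m n * 1 = Int.gcd m n * Int.gcd c d := by rw [mul_one]; exact h1
      exact (Nat.eq_of_mul_eq_mul_left hg h2).symm
    have hMc : (M : ℤ) ∣ c := by
      have h1 : (M : ℤ) ∣ ((Int.gcd m n : ℕ) : ℤ) * c := hc ▸ hm'
      exact hkM.symm.dvd_of_dvd_mul_left h1
    refine ⟨(⟨Int.gcd m n, hg, Nat.isCoprime_iff_coprime.1 hkM⟩, ⟨(c, d), hcd, hMc⟩), ?_⟩
    apply Subtype.ext
    exact Prod.ext hc.symm hd.symm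

open Classical in
theorem prim_sum {M : ℕ} (hM : 0 < M) (t : ℝ) (z : ℍ) :
    thN M t z = (if M = 1 then 1 else 0) + ∑' k : ℕ, if 0 < k ∧ k.Coprime M then
      ∑' v : Row M, ENNReal.ofReal (Real.exp (-(Real.pi * t * k ^ 2 * qf z v.1))) else 0 := by
  set S : Set (ℤ × ℤ) := {v | ((M : ℤ) ∣ v.1 ∧ IsCoprime v.2 (M : ℤ)) ∧ v ≠ 0} with hS
  set f : ℤ × ℤ → ℝ≥0∞ := fun v => ENNReal.ofReal (Real.exp (-(Real.pi * t * qf z v))) with hf
  have hf0 : f 0 = 1 := by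
    rw [hf]
    show ENNReal.ofReal (Real.exp (-(Real.pi * t * qf z 0))) = 1
    have : qf z 0 = 0 := by
      unfold qf
      simp
    rw [this, mul_zero, neg_zero, Real.exp_zero, ENNReal.ofReal_one]
  have h1 : thN M t z = ∑' v : ℤ × ℤ, ((if v = 0 then (if M = 1 then 1 else 0) else 0) + S.indicator f v) := by
    unfold thN
    refine tsum_congr fun v => ?_
    rw [Set.indicator_apply]
    by_cases hv : v = 0
    · subst hv
      have hns : (0 : ℤ × ℤ) ∉ S := fun h => h.2 rfl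
      rw [if_pos rfl, if_neg hns, add_zero]
      by_cases hM1 : M = 1
      · rw [if_pos hM1, if_pos ⟨dvd_zero _, (UD_zero M).2 hM1⟩]
        exact hf0
      · rw [if_neg hM1, if_neg fun h => hM1 ((UD_zero M).1 h.2)]
    · rw [if_neg hv, zero_add]
      by_cases hc : (M : ℤ) ∣ v.1 ∧ IsCoprime v.2 (M : ℤ)
      · rw [if_pos hc, if_pos (show v ∈ S from ⟨hc, hv⟩)]
      · rw [if_neg hc, if_neg (show v ∉ S from fun h => hc h.1)]
  rw [h1, ENNReal.tsum_add]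
  congr 1
  · rw [tsum_eq_single (0 : ℤ × ℤ) (fun v hv => if_neg hv), if_pos rfl]
  · rw [← tsum_subtype S f, ← (Equiv.ofBijective _ (UD_bij hM)).tsum_eq (fun v : S => f v)]
    have h2 : ∀ p : {k : ℕ | 0 < k ∧ k.Coprime M} × Row M,
        f ((Equiv.ofBijective _ (UD_bij hM) p : S) : ℤ × ℤ) =
          (fun (k : {k : ℕ | 0 < k ∧ k.Coprime M}) (v : Row M) =>
            ENNReal.ofReal (Real.exp (-(Real.pi * t * (k.1 : ℝ) ^ 2 * qf z v.1)))) p.1 p.2 := by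
      intro p
      show ENNReal.ofReal (Real.exp (-(Real.pi * t * qf z ((p.1.1 : ℤ) * p.2.1.1, (p.1.1 : ℤ) * p.2.1.2)))) =
        ENNReal.ofReal (Real.exp (-(Real.pi * t * (p.1.1 : ℝ) ^ 2 * qf z p.2.1)))
      rw [UD_qf]
      congr 3
      ring
    refine (tsum_congr h2).trans ((ENNReal.tsum_prod (f := fun (k : {k : ℕ | 0 < k ∧ k.Coprime M}) (v : Row M) =>
      ENNReal.ofReal (Real.exp (-(Real.pi * t * (k.1 : ℝ) ^ 2 * qf z v.1))))).trans ?_)
    refine (tsum_subtype {k : ℕ | 0 < k ∧ k.Coprime M}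
      (fun k : ℕ => ∑' v : Row M, ENNReal.ofReal (Real.exp (-(Real.pi * t * (k : ℝ) ^ 2 * qf z v.1))))).trans ?_
    refine tsum_congr fun k => ?_
    rw [Set.indicator_apply]
    rfl

end Pool.Agent.MaassRS74
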