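import Pool.Agent.W_7742r_h74.UnfA
import Pool.Agent.W_7742r_h74.UnfC
import Pool.Agent.W_7742r_h74.UnfD
import Pool.Agent.W_7742r_h74.StripB
import Pool.Agent.W_7742r_h74.ThB

/-!
# The unfolded theta integral

By `prim_sum` and `strip_sum` (with `h y = ofReal (exp(-π t k ^ 2 / y))`, so
`h (qf z v)⁻¹ = ofReal (exp(-π t k ^ 2 qf z v))`) and the invariance of `G`
`G(z) Θ_M(t, z) = [M = 1] G(z) + ∑_k ∑_γ F_k(γ z)` with
`F_k(z) = 1_strip(z) ofReal (G(z) exp(-π t k ^ 2 / Im z))`; multiply by `w`, integrate, use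
`unfold_abstract` for each `k` and `lintegral_strip`.
-/

set_option autoImplicit false

noncomputable section

namespace Pool.Agent.MaassRS74

open UpperHalfPlane ENNReal MeasureTheory CongruenceSubgroup
open scoped MatrixGroups

theorem UnfB_countable (N : ℕ) : Countable (Gamma0 N) := by
  have h1 : Countable (Matrix (Fin 2) (Fin 2) ℤ) := inferInstanceAs (Countable (Fin 2 → Fin 2 → ℤ))
  have h2 : Countable SL(2, ℤ) := Subtype.countable
  exact Subtype.countable

theorem UnfB_measurePreserving {N : ℕ} (γ : Gamma0 N) :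
    MeasurePreserving (fun z : ℍ => γ • z) volume volume := by
  have h : (fun z : ℍ => γ • z) =
      fun z : ℍ => (((γ : SL(2, ℤ)) : GL (Fin 2) ℝ)) • z := by
    funext z
    exact ModularGroup.sl_moeb _ _
  rw [h]
  exact measurePreserving_smul _ _

theorem UnfB_continuous_re : Continuous (fun z : ℍ => z.re) :=
  Complex.continuous_re.comp UpperHalfPlane.continuous_coe

theorem UnfB_continuous_im : Continuous (fun z : ℍ => z.im) :=
  Complex.continuous_im.comp UpperHalfPlane.continuous_coe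

theorem UnfB_measurableSet_strip : MeasurableSet strip := by
  have h1 : MeasurableSet {z : ℍ | 0 ≤ z.re} :=
    (isClosed_le continuous_const UnfB_continuous_re).measurableSet
  have h2 : MeasurableSet {z : ℍ | z.re < 1} :=
    (isOpen_lt UnfB_continuous_re continuous_const).measurableSet
  exact h1.inter h2

/-- The function on the strip. -/
def UnfB_F (G : ℍ → ℝ) (t : ℝ) (k : ℕ) : ℍ → ℝ≥0∞ :=
  strip.indicator fun z => ENNReal.ofReal (G z * Real.exp (-(Real.pi * t * k ^ 2 / z.im)))

theorem UnfB_measurable_F {G : ℍ → ℝ} (hG : Continuous G) (t : ℝ) (k : ℕ) :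
    Measurable (UnfB_F G t k) := by
  refine Measurable.indicator ?_ UnfB_measurableSet_strip
  refine ENNReal.measurable_ofReal.comp ?_
  refine (hG.mul ?_).measurable
  refine Real.continuous_exp.comp (Continuous.neg ?_)
  exact continuous_const.div UnfB_continuous_im fun z => z.im_ne_zero

theorem UnfB_key {M : ℕ} {G : ℍ → ℝ} (h0 : ∀ z, 0 ≤ G z)
    (hinv : ∀ γ ∈ Gamma0 M, ∀ z : ℍ, G (γ • z) = G z) (t : ℝ) (k : ℕ) (z : ℍ) :
    ENNReal.ofReal (G z) *
      ∑' v : Row M, ENNReal.ofReal (Real.exp (-(Real.pi * t * k ^ 2 * qf z v.1))) =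
      ∑' γ : Gamma0 M, UnfB_F G t k (γ • z) := by
  classical
  have h1 : ∑' v : Row M, ENNReal.ofReal (Real.exp (-(Real.pi * t * k ^ 2 * qf z v.1))) =
      ∑' v : Row M, (fun y : ℝ => ENNReal.ofReal (Real.exp (-(Real.pi * t * k ^ 2 / y))))
        (qf z v.1)⁻¹ := by
    refine tsum_congr fun v => ?_
    simp only [div_inv_eq_mul]
  have h1' := h1.trans (strip_sum M z
    (fun y : ℝ => ENNReal.ofReal (Real.exp (-(Real.pi * t * k ^ 2 / y))))).symm
  refine (congrArg (fun x => ENNReal.ofReal (G z) * x) h1').trans ?_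
  rw [← ENNReal.tsum_mul_left]
  refine tsum_congr fun γ => ?_
  have h2 : G ((γ : SL(2, ℤ)) • z) = G z := hinv γ γ.2 z
  by_cases h3 : ((γ : SL(2, ℤ)) • z) ∈ strip
  · rw [if_pos h3]
    have h4 : γ • z ∈ strip := h3
    rw [UnfB_F, Set.indicator_of_mem h4, ← h2, ← ENNReal.ofReal_mul (h0 _)]
    rfl
  · rw [if_neg h3]
    have h4 : γ • z ∉ strip := h3
    rw [UnfB_F, Set.indicator_of_notMem h4, mul_zero]

theorem unfolding {M : ℕ} (hM : 0 < M) {G : ℍ → ℝ} (hG : Continuous G) (h0 : ∀ z, 0 ≤ G z)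
    (hinv : ∀ γ ∈ Gamma0 M, ∀ z : ℍ, G (γ • z) = G z) {w : ℍ → ℝ≥0∞} (hw : Measurable w)
    (hw1 : ∀ᵐ z : ℍ, ∑' γ : Gamma0 M, w ((γ : SL(2, ℤ)) • z) = 1) (t : ℝ) :
    ∫⁻ z, w z * (ENNReal.ofReal (G z) * thN M t z) =
      (if M = 1 then 1 else 0) * (∫⁻ z, w z * ENNReal.ofReal (G z)) + uth M G t := by
  classical
  have hcount := UnfB_countable M
  have hGm : Measurable fun z : ℍ => ENNReal.ofReal (G z) :=
    ENNReal.measurable_ofReal.comp hG.measurable
  have hpt : ∀ z : ℍ, w z * (ENNReal.ofReal (G z) * thN M t z) =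
      (if M = 1 then 1 else 0) * (w z * ENNReal.ofReal (G z)) +
        ∑' k : ℕ, if 0 < k ∧ k.Coprime M then
          w z * ∑' γ : Gamma0 M, UnfB_F G t k (γ • z) else 0 := by
    intro z
    rw [prim_sum hM t z, mul_add, mul_add]
    congr 1
    · ring
    · rw [← ENNReal.tsum_mul_left, ← ENNReal.tsum_mul_left]
      refine tsum_congr fun k => ?_
      split_ifs with hk
      · rw [UnfB_key h0 hinv]
      · simp
  have hmeasF : ∀ (k : ℕ) (γ : Gamma0 M), Measurable fun z : ℍ => UnfB_F G t k (γ • z) :=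
    fun k γ => (UnfB_measurable_F hG t k).comp (UnfB_measurePreserving γ).measurable
  have hmeas : ∀ k : ℕ, Measurable fun z : ℍ => if 0 < k ∧ k.Coprime M then
      w z * ∑' γ : Gamma0 M, UnfB_F G t k (γ • z) else 0 := by
    intro k
    by_cases hk : 0 < k ∧ k.Coprime M
    · simp only [if_pos hk]
      exact hw.mul (Measurable.tsum fun γ => hmeasF k γ)
    · simp only [if_neg hk]
      exact measurable_const
  have hc : (if M = 1 then (1 : ℝ≥0∞) else 0) ≠ ∞ := by
    split_ifs
    · exact ENNReal.one_ne_top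
    · exact ENNReal.zero_ne_top
  calc ∫⁻ z, w z * (ENNReal.ofReal (G z) * thN M t z)
      = ∫⁻ z, ((if M = 1 then 1 else 0) * (w z * ENNReal.ofReal (G z)) +
        ∑' k : ℕ, if 0 < k ∧ k.Coprime M then
          w z * ∑' γ : Gamma0 M, UnfB_F G t k (γ • z) else 0) := lintegral_congr hpt
    _ = (∫⁻ z, (if M = 1 then 1 else 0) * (w z * ENNReal.ofReal (G z))) +
        ∫⁻ z, ∑' k : ℕ, (if 0 < k ∧ k.Coprime M then
          w z * ∑' γ : Gamma0 M, UnfB_F G t k (γ • z) else 0) :=
        lintegral_add_left (measurable_const.mul (hw.mul hGm)) _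
    _ = (if M = 1 then 1 else 0) * (∫⁻ z, w z * ENNReal.ofReal (G z)) +
        ∑' k : ℕ, ∫⁻ z, (if 0 < k ∧ k.Coprime M then
          w z * ∑' γ : Gamma0 M, UnfB_F G t k (γ • z) else 0) := by
        have h7 := lintegral_const_mul (μ := (volume : Measure ℍ))
          (f := fun z => w z * ENNReal.ofReal (G z)) (if M = 1 then 1 else 0) (hw.mul hGm)
        rw [h7, lintegral_tsum fun k => (hmeas k).aemeasurable]
    _ = (if M = 1 then 1 else 0) * (∫⁻ z, w z * ENNReal.ofReal (G z)) + uth M G t := by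
        congr 1
        rw [uth]
        refine tsum_congr fun k => ?_
        by_cases hk : 0 < k ∧ k.Coprime M
        · simp only [if_pos hk]
          have h5 := unfold_abstract (X := ℍ) volume (G := Gamma0 M)
            (fun γ => UnfB_measurePreserving γ) w hw hw1 (UnfB_F G t k) (UnfB_measurable_F hG t k)
          have h6 := lintegral_strip hG h0
            (h := fun y => Real.exp (-(Real.pi * t * k ^ 2 / y)))
            (Real.measurable_exp.comp (measurable_const.div measurable_id).neg)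
            (fun y => (Real.exp_pos _).le)
          rw [h5, UnfB_F, lintegral_indicator UnfB_measurableSet_strip]
          exact h6
        · simp only [if_neg hk, lintegral_zero]

end Pool.Agent.MaassRS74
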